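import Pool.Agent.SLtwo.Defs
import Pool.Agent.PurNrd.Lift

/-! A1-A3: simplicity of base changes and freeness over semilocal domains (no local hypothesis). -/

namespace Pool.Agent.SLtwo

open Module TensorProduct

universe u

private theorem finrank_quot {C : Type u} [CommRing C] [IsDomain C] (M : Type u) [AddCommGroup M]
    [Module C M] [Module.Finite C M] [Module.Projective C M] (P : Ideal C) [hP : P.IsMaximal] :
    finrank (C ⧸ P) ((C ⧸ P) ⊗[C] M) = finrank C M := by
  let _ : Field (C ⧸ P) := Ideal.Quotient.field P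
  have h1 : finrank P.ResidueField (P.Fiber M) = finrank C M := Ideal.finrank_fiber_eq_finrank P
  have h2 : finrank P.ResidueField (P.ResidueField ⊗[C ⧸ P] ((C ⧸ P) ⊗[C] M)) =
      finrank P.ResidueField (P.Fiber M) :=
    (AlgebraTensorModule.cancelBaseChange C (C ⧸ P) P.ResidueField P.ResidueField M).finrank_eq
  have h3 : finrank P.ResidueField (P.ResidueField ⊗[C ⧸ P] ((C ⧸ P) ⊗[C] M)) =
      finrank (C ⧸ P) ((C ⧸ P) ⊗[C] M) := Module.finrank_baseChange
  rw [← h1, ← h2, h3]

/-- Nakayama over all maximal ideals -/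
private theorem eq_top_of_quot {C : Type u} [CommRing C] {M : Type u} [AddCommGroup M]
    [Module C M] [Module.Finite C M] (N : Submodule C M)
    (h : ∀ (P : MaximalSpectrum C), ∀ m : M, ∃ n ∈ N,
      ((1 : C ⧸ P.1) ⊗ₜ[C] m : (C ⧸ P.1) ⊗[C] M) = 1 ⊗ₜ[C] n) : N = ⊤ := by
  have hA : Module.annihilator C (M ⧸ N) = ⊤ := by
    by_contra hA
    obtain ⟨P, hP, hAP⟩ := Ideal.exists_le_maximal _ hA
    have h1 : (⊤ : Submodule C (M ⧸ N)) ≤ P • ⊤ := by
      intro q _
      obtain ⟨m, rfl⟩ := N.mkQ_surjective q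
      obtain ⟨n, hn, hmn⟩ := h ⟨P, hP⟩ m
      have h2 : m - n ∈ P • (⊤ : Submodule C M) := by
        have h3 := congrArg (quotTensorEquivQuotSMul M P) hmn
        rw [quotTensorEquivQuotSMul_mk_one_tmul, quotTensorEquivQuotSMul_mk_one_tmul] at h3
        exact (Submodule.Quotient.eq _).1 h3
      have h4 : N.mkQ m = N.mkQ (m - n) := by
        rw [map_sub]
        have : N.mkQ n = 0 := by simpa using hn
        rw [this, sub_zero]
      rw [h4]
      have h5 : Submodule.map N.mkQ (P • (⊤ : Submodule C M)) ≤ P • ⊤ := by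
        rw [Submodule.map_smul'']
        exact Submodule.smul_mono le_rfl le_top
      exact h5 (Submodule.mem_map_of_mem h2)
    obtain ⟨r, hr, hr2⟩ := Submodule.exists_sub_one_mem_and_smul_eq_zero_of_fg_of_le_smul P
      (⊤ : Submodule C (M ⧸ N)) Module.Finite.fg_top h1
    have h6 : r ∈ P := hAP (Module.mem_annihilator.2 fun q => hr2 q trivial)
    have h7 : (1 : C) ∈ P := by
      have h8 := P.sub_mem h6 hr
      simpa using h8
    exact hP.ne_top ((Ideal.eq_top_iff_one P).2 h7)
  have h1 : (1 : C) ∈ Module.annihilator C (M ⧸ N) := by rw [hA]; trivial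
  rw [eq_top_iff]
  intro m _
  have h2 := Module.mem_annihilator.1 h1 (N.mkQ m)
  rw [one_smul] at h2
  simpa using h2

section gen
variable {C : Type u} [CommRing C] [IsDomain C] {S : Type u} [Ring S] [Algebra C S]
  [Module.Free C S] [Module.Finite C S]

/-- generators modulo a maximal ideal -/
private theorem exists_gen
    (M : Type u) [AddCommGroup M] [Module S M] [Module C M]
    [IsScalarTower C S M] [Module.Finite C M] [Module.Projective C M] (r : ℕ)
    (hr : finrank C M = r * finrank C S) (P : MaximalSpectrum C)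
    (hs : IsSimpleRing ((C ⧸ P.1) ⊗[C] S)) :
    ∃ l : Fin r → (C ⧸ P.1) ⊗[C] M, ∀ y : (C ⧸ P.1) ⊗[C] M, ∃ b : Fin r → S,
      ∀ m : Fin r → M, (∀ i, (1 : C ⧸ P.1) ⊗ₜ[C] m i = l i) →
        y = (1 : C ⧸ P.1) ⊗ₜ[C] (∑ i, b i • m i) := by
  classical
  let _ : Field (C ⧸ P.1) := Ideal.Quotient.field P.1
  let _ : Module ((C ⧸ P.1) ⊗[C] S) ((C ⧸ P.1) ⊗[C] M) :=
    Module.compHom _ (PurNrd.act (C ⧸ P.1) M).toRingHom
  have hsm : ∀ (c : (C ⧸ P.1) ⊗[C] S) (x : (C ⧸ P.1) ⊗[C] M),
      c • x = PurNrd.act (C ⧸ P.1) M c x := fun c x => rfl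
  have : IsScalarTower (C ⧸ P.1) ((C ⧸ P.1) ⊗[C] S) ((C ⧸ P.1) ⊗[C] M) :=
    ⟨fun f c x => by rw [hsm, hsm, map_smul]; rfl⟩
  have hd1 : finrank (C ⧸ P.1) ((C ⧸ P.1) ⊗[C] S) = finrank C S := Module.finrank_baseChange
  have hd : finrank (C ⧸ P.1) (Fin r → (C ⧸ P.1) ⊗[C] S) =
      finrank (C ⧸ P.1) ((C ⧸ P.1) ⊗[C] M) := by
    have hP := P.2
    rw [Module.finrank_pi_fintype, finrank_quot M P.1, hr]
    simp [hd1]
  obtain ⟨ψ⟩ := PurNrd.equiv_of_finrank (F := C ⧸ P.1) (S := (C ⧸ P.1) ⊗[C] S) hd
  have hsurjB : ∀ y : (C ⧸ P.1) ⊗[C] S, ∃ x : S, (1 : C ⧸ P.1) ⊗ₜ[C] x = y :=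
    TensorProduct.mk_surjective C S (C ⧸ P.1) Ideal.Quotient.mk_surjective
  refine ⟨fun i => ψ (Pi.single i 1), fun y => ?_⟩
  obtain ⟨s, rfl⟩ := ψ.surjective y
  choose b hb using fun i : Fin r => hsurjB (s i)
  refine ⟨b, fun m hm => ?_⟩
  have hs1 : s = ∑ i, s i • (Pi.single i (1 : (C ⧸ P.1) ⊗[C] S) :
      Fin r → (C ⧸ P.1) ⊗[C] S) := by
    ext i
    simp [Finset.sum_apply, Pi.single_apply]
  rw [hs1, map_sum, TensorProduct.tmul_sum]
  refine Finset.sum_congr rfl fun i _ => ?_
  have hmi : ψ (Pi.single i 1) = (1 : C ⧸ P.1) ⊗ₜ[C] m i := (hm i).symm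
  rw [map_smul, hmi, ← hb, hsm, PurNrd.act_tmul, one_mul]

private theorem free_gen [IsNoetherianRing C] [Finite (MaximalSpectrum C)]
    (hs : ∀ P : MaximalSpectrum C, IsSimpleRing ((C ⧸ P.1) ⊗[C] S))
    (M : Type u) [AddCommGroup M] [Module S M] [Module C M]
    [IsScalarTower C S M] [Module.Finite C M] [Module.Projective C M] (r : ℕ)
    (hr : finrank C M = r * finrank C S) : Nonempty ((Fin r → S) ≃ₗ[S] M) := by
  classical
  have hfr : finrank C (Fin r → S) = finrank C M := by
    rw [Module.finrank_pi_fintype, hr]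
    simp
  choose l hl using fun P => exists_gen (C := C) (S := S) M r hr P (hs P)
  choose m hm using fun i : Fin r => Ideal.pi_tensorProductMk_quotient_surjective M
    (fun P : MaximalSpectrum C => P.1) (fun _ _ ne => Ideal.isCoprime_of_isMaximal
      (MaximalSpectrum.ext_iff.ne.mp ne)) fun P => l P i
  have hm' : ∀ (P : MaximalSpectrum C) i, (1 : C ⧸ P.1) ⊗ₜ[C] m i = l P i := fun P i =>
    congrFun (hm i) P
  let h : (Fin r → S) →ₗ[S] M := Fintype.linearCombination S m
  have hh : ∀ b, h b = ∑ i, b i • m i := fun b => by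
    simp [h, Fintype.linearCombination_apply]
  have htop : LinearMap.range (h.restrictScalars C) = ⊤ := by
    refine eq_top_of_quot _ fun P y => ?_
    obtain ⟨b, hb⟩ := hl P (1 ⊗ₜ[C] y)
    exact ⟨h b, ⟨b, rfl⟩, by rw [hb m (hm' P), hh]⟩
  have hsur : Function.Surjective (h.restrictScalars C) := LinearMap.range_eq_top.1 htop
  have hinj : LinearMap.ker (h.restrictScalars C) = ⊥ := by
    have h1 := Submodule.finrank_quotient_add_finrank (LinearMap.ker (h.restrictScalars C))
    rw [((h.restrictScalars C).quotKerEquivOfSurjective hsur).finrank_eq, hfr] at h1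
    exact Submodule.finrank_eq_zero.1 (by omega)
  have hinj' : Function.Injective (h.restrictScalars C) := LinearMap.ker_eq_bot.1 hinj
  exact ⟨LinearEquiv.ofBijective h ⟨hinj', hsur⟩⟩

end gen

section
variable {R : Type u} [CommRing R] {B : Type u} [Ring B] [Algebra R B] [IsAzumaya R B]

theorem isSimpleRing_baseChange [Module.Free R B] (F : Type u) [Field F] [Algebra R F] :
    IsSimpleRing (F ⊗[R] B) := by
  classical
  let b := Module.Free.chooseBasis R B
  have hnt : Nontrivial B := by
    by_contra h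
    rw [not_nontrivial_iff_subsingleton] at h
    have h1 : (1 : R) = 0 := FaithfulSMul.algebraMap_injective R B (Subsingleton.elim _ _)
    have h2 : (1 : F) = 0 := by
      rw [← map_one (algebraMap R F), h1, map_zero]
    exact one_ne_zero h2
  have hne : Nonempty (Module.Free.ChooseBasisIndex R B) := by
    by_contra h
    rw [not_nonempty_iff] at h
    have : Subsingleton B := b.repr.toEquiv.subsingleton
    exact not_subsingleton B this
  have hntF : Nontrivial (F ⊗[R] B) := by
    have := (b.baseChange F)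
    obtain ⟨i⟩ := hne
    exact ⟨⟨this i, 0, this.ne_zero i⟩⟩
  refine IsSimpleRing.of_eq_bot_or_eq_top fun I => ?_
  by_cases hI : I = ⊥
  · exact Or.inl hI
  · right
    have : ∃ z ∈ I, z ≠ 0 := by
      by_contra hcon
      push Not at hcon
      apply hI
      rw [eq_bot_iff]
      intro z hz
      rw [TwoSidedIdeal.mem_bot]
      exact hcon z hz
    obtain ⟨z, hz, hz0⟩ := this
    have : ∃ j, (b.baseChange F).repr z j ≠ 0 := by
      by_contra hcon
      push Not at hcon
      apply hz0
      apply (b.baseChange F).repr.injective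
      ext j
      simp [hcon j]
    obtain ⟨j, hj⟩ := this
    set g : B →ₗ[R] B := (b.coord j).smulRight 1 with hg
    have hgz : g.baseChange F z = ((b.baseChange F).repr z j) ⊗ₜ[R] (1 : B) := by
      have : g.baseChange F = ((b.baseChange F).coord j).smulRight (1 : F ⊗[R] B) := by
        refine (b.baseChange F).ext fun i => ?_
        rw [Module.Basis.baseChange_apply, LinearMap.baseChange_tmul, LinearMap.smulRight_apply,
          LinearMap.smulRight_apply, Module.Basis.coord_apply, Module.Basis.repr_self]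
        have : ((1 : F) ⊗ₜ[R] b i) = b.baseChange F i := by
          rw [Module.Basis.baseChange_apply]
        rw [this, Module.Basis.coord_apply, Module.Basis.repr_self]
        by_cases h : i = j
        · subst h
          simp [Algebra.TensorProduct.one_def]
        · simp [h]
      rw [this, LinearMap.smulRight_apply, Module.Basis.coord_apply, Algebra.TensorProduct.one_def,
        TensorProduct.smul_tmul', smul_eq_mul, mul_one]
    have h1 := PurNrd.end_mem F I hz g
    rw [hgz] at h1
    have h2 := I.mul_mem_left (((b.baseChange F).repr z j)⁻¹ ⊗ₜ[R] (1 : B)) _ h1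
    rw [Algebra.TensorProduct.tmul_mul_tmul, inv_mul_cancel₀ hj, one_mul,
      ← Algebra.TensorProduct.one_def] at h2
    exact I.one_mem_iff.1 h2

theorem free_of_rank [Module.Free R B] {C : Type u} [CommRing C] [IsDomain C] [IsNoetherianRing C]
    [Algebra R C] [Finite (MaximalSpectrum C)] (M : Type u) [AddCommGroup M]
    [Module (C ⊗[R] B) M] [Module C M]
    [IsScalarTower C (C ⊗[R] B) M] [Module.Finite C M] [Module.Projective C M] (r : ℕ)
    (hr : finrank C M = r * finrank R B) :
    Nonempty ((Fin r → C ⊗[R] B) ≃ₗ[C ⊗[R] B] M) := by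
  have hS : finrank C (C ⊗[R] B) = finrank R B := by
    have : Nontrivial R := (algebraMap R C).domain_nontrivial
    exact Module.finrank_baseChange
  refine free_gen (C := C) (S := C ⊗[R] B) (fun P => ?_) M r (by rw [hS, hr])
  let _ : Field (C ⧸ P.1) := Ideal.Quotient.field P.1
  have hs0 : IsSimpleRing ((C ⧸ P.1) ⊗[R] B) := isSimpleRing_baseChange (C ⧸ P.1)
  let e : ((C ⧸ P.1) ⊗[R] B) ≃ₐ[C ⧸ P.1] ((C ⧸ P.1) ⊗[C] (C ⊗[R] B)) :=
    AlgEquiv.ofLinearEquiv
      (AlgebraTensorModule.cancelBaseChange R C (C ⧸ P.1) (C ⧸ P.1) B).symm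
      (by simp [Algebra.TensorProduct.one_def]) <|
      LinearMap.map_mul_of_map_mul_tmul (fun _ _ _ _ ↦ by simp)
  exact IsSimpleRing.of_ringEquiv e.toRingEquiv hs0

/-- finitely generated projective modules over a semilocal domain are free -/
theorem free_of_projective (C : Type u) [CommRing C] [IsDomain C] [IsNoetherianRing C]
    [Finite (MaximalSpectrum C)] (M : Type u) [AddCommGroup M] [Module C M] [Module.Finite C M]
    [Module.Projective C M] : Module.Free C M :=
  Module.free_of_flat_of_finrank_eq C M (finrank C M) fun P => by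
    have hP := P.2
    exact finrank_quot M P.1

theorem free_of_azumaya (R : Type u) [CommRing R] [SemiReg R] (B : Type u) [Ring B] [Algebra R B]
    [IsAzumaya R B] : Module.Free R B := free_of_projective R B

theorem free_of_rank_R [SemiReg R] (M : Type u) [AddCommGroup M] [Module B M]
    [Module R M] [IsScalarTower R B M] [Module.Finite R M] [Module.Projective R M] (r : ℕ)
    (hr : finrank R M = r * finrank R B) :
    Nonempty ((Fin r → B) ≃ₗ[B] M) := by
  have hf : Module.Free R B := free_of_azumaya R B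
  refine free_gen (C := R) (S := B) (fun P => ?_) M r hr
  let _ : Field (R ⧸ P.1) := Ideal.Quotient.field P.1
  exact isSimpleRing_baseChange (R ⧸ P.1)

end

end Pool.Agent.SLtwo
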