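import Pool.Agent.PurNrd.Ufd
import Pool.Agent.PurNrd.Reg
import Pool.Agent.SLtwo.FreeC

/-! A7: unique factorization over semilocal regular domains. -/

namespace Pool.Agent.SLtwo

open Pool.Agent.PurNrd

universe u

/-- a principal ideal of a domain is a projective module -/
private theorem projective_of_isPrincipal {A : Type u} [CommRing A] [IsDomain A] (I : Ideal A)
    (h : I.IsPrincipal) : Module.Projective A I := by
  obtain ⟨g, rfl⟩ := h
  by_cases hg : g = 0
  · subst hg
    have : Subsingleton (Submodule.span A {(0 : A)}) := by
      rw [Submodule.span_zero_singleton]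
      infer_instance
    infer_instance
  · exact Module.Projective.of_equiv (LinearEquiv.toSpanNonzeroSingleton A A g hg)

/-- an ideal of a domain which is a free module is principal -/
private theorem isPrincipal_of_free {A : Type u} [CommRing A] [IsDomain A] [IsNoetherianRing A]
    (I : Ideal A) (hI : I ≠ ⊥) (h : Module.Free A I) : I.IsPrincipal := by
  obtain ⟨a, haI, ha0⟩ := Submodule.exists_mem_ne_zero_of_ne_bot hI
  have h1 : Module.finrank A I ≤ Module.finrank A A :=
    LinearMap.finrank_le_finrank_of_injective (f := I.subtype) I.injective_subtype
  have h2 : Module.finrank A A ≤ Module.finrank A I :=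
    LinearMap.finrank_le_finrank_of_injective (f := LinearMap.toSpanSingleton A I ⟨a, haI⟩) (by
      intro x y hxy
      have h3 : x * a = y * a := congrArg Subtype.val hxy
      exact mul_right_cancel₀ ha0 h3)
  let e : A ≃ₗ[A] I := LinearEquiv.ofFinrankEq _ _ (le_antisymm h2 h1)
  refine ⟨(e 1 : A), le_antisymm ?_ ?_⟩
  · intro x hx
    obtain ⟨y, hy⟩ := e.surjective ⟨x, hx⟩
    rw [Submodule.mem_span_singleton]
    refine ⟨y, ?_⟩
    have h3 : e (y • 1) = y • e 1 := map_smul e y 1
    rw [smul_eq_mul, mul_one, hy] at h3
    exact (congrArg Subtype.val h3).symm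
  · rw [Submodule.span_singleton_le_iff_mem]
    exact (e 1).2

section
variable (R : Type u) [CommRing R] [SemiReg R]

theorem ufd : UniqueFactorizationMonoid R := by
  refine UniqueFactorizationMonoid.of_forall_isPrincipal_of_height_eq_one fun p _ hp => ?_
  have hpb : p ≠ ⊥ := p.ne_bot_of_height_eq_one hp
  refine isPrincipal_of_free p hpb ?_
  have hfp : Module.FinitePresentation R p := Module.finitePresentation_of_finite R p
  have hproj : Module.Projective R p := by
    refine Module.projective_of_localization_maximal' (fun P _ => Localization.AtPrime P)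
      (fun P _ => p.localized' (Localization.AtPrime P) P.primeCompl
        (Algebra.linearMap R (Localization.AtPrime P)))
      (fun P _ => p.toLocalized' (Localization.AtPrime P) P.primeCompl
        (Algebra.linearMap R (Localization.AtPrime P))) fun P hP => ?_
    have hreg : IsRegularLocalRing (Localization.AtPrime P) := SemiReg.regular P
    have hdom : IsDomain (Localization.AtPrime P) := isDomain_of_regular _
    have hufd : UniqueFactorizationMonoid (Localization.AtPrime P) := PurNrd.ufd (finite_pd _)
    refine projective_of_isPrincipal _ ?_
    have h1 : p.localized' (Localization.AtPrime P) P.primeCompl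
        (Algebra.linearMap R (Localization.AtPrime P)) =
        Ideal.map (algebraMap R (Localization.AtPrime P)) p := by
      rw [Submodule.localized'_eq_span]
      rfl
    rw [h1]
    by_cases hle : p ≤ P
    · have hdisj : Disjoint (P.primeCompl : Set R) (p : Set R) := by
        rw [Set.disjoint_left]
        intro x hx hx'
        exact hx (hle hx')
      have hprime : (Ideal.map (algebraMap R (Localization.AtPrime P)) p).IsPrime :=
        IsLocalization.isPrime_of_isPrime_disjoint P.primeCompl _ p inferInstance hdisj
      refine UniqueFactorizationMonoid.isPrincipal_of_height_eq_one ?_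
      rw [IsLocalization.height_map_of_disjoint P.primeCompl p hdisj, hp]
    · have h2 : Ideal.map (algebraMap R (Localization.AtPrime P)) p = ⊤ := by
        obtain ⟨x, hx, hxP⟩ := Set.not_subset.1 hle
        exact Ideal.eq_top_of_isUnit_mem _ (Ideal.mem_map_of_mem _ hx)
          (IsLocalization.map_units (Localization.AtPrime P) (⟨x, hxP⟩ : P.primeCompl))
      rw [h2]
      exact ⟨1, by simp⟩
  exact free_of_projective R p

theorem pid_height_one (p : Ideal R) [p.IsPrime] (hp : p.height = 1) :
    IsPrincipalIdealRing (Localization.AtPrime p) := by
  have hufd : UniqueFactorizationMonoid R := ufd R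
  have hprin : p.IsPrincipal := UniqueFactorizationMonoid.isPrincipal_of_height_eq_one hp
  have hdom : IsDomain (Localization.AtPrime p) :=
    IsLocalization.isDomain_localization (Ideal.primeCompl_le_nonZeroDivisors _)
  have hnoe : IsNoetherianRing (Localization.AtPrime p) :=
    IsLocalization.isNoetherianRing p.primeCompl _ inferInstance
  refine ((tfae_of_isNoetherianRing_of_isLocalRing_of_isDomain
    (Localization.AtPrime p)).out 4 0).1 ?_
  obtain ⟨π, hπ⟩ := hprin
  rw [← Localization.AtPrime.map_eq_maximalIdeal]
  have h := congrArg (Ideal.map (algebraMap R (Localization.AtPrime p))) hπ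
  rw [Ideal.submodule_span_eq, Ideal.map_span, Set.image_singleton] at h
  exact ⟨algebraMap R _ π, h⟩

end

end Pool.Agent.SLtwo
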