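import Pool.Agent.SLtwo.PurC
import Pool.Agent.SLtwo.Reg
import Pool.Agent.PurNrd.Purity

/-! P4: purity for reduced norms over semilocal regular domains. -/

namespace Pool.Agent.SLtwo

open Module TensorProduct Matrix Pool.Agent.PurNrd Pool.Agent.SLone

universe u

section
variable {R : Type u} [CommRing R] [SemiReg R]
  (B : Type u) [Ring B] [Algebra R B] [IsAzumaya R B]
  (K : Type u) [Field K] [Algebra R K] [IsFractionRing R K] [CharZero K]

omit [IsFractionRing R K] [CharZero K] in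
/-- a splitting of `K ⊗ B` over the algebraic closure -/
private theorem exists_split : ∃ (n : ℕ) (_ : n ≠ 0),
    Nonempty ((AlgebraicClosure K ⊗[K] (K ⊗[R] B)) ≃ₐ[AlgebraicClosure K]
      Matrix (Fin n) (Fin n) (AlgebraicClosure K)) := by
  have hfB : Module.Free R B := free_of_azumaya R B
  have hs : IsSimpleRing (AlgebraicClosure K ⊗[R] B) :=
    isSimpleRing_baseChange (AlgebraicClosure K)
  obtain ⟨n, hn, ⟨φ⟩⟩ := IsSimpleRing.exists_algEquiv_matrix_of_isAlgClosed
    (AlgebraicClosure K) (AlgebraicClosure K ⊗[R] B)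
  exact ⟨n, hn.ne, ⟨(cancelBC R B K (AlgebraicClosure K)).trans φ⟩⟩

theorem exists_hom : ∃ (n : ℕ) (N : (K ⊗[R] B)ˣ →* Kˣ), n ≠ 0 ∧
    (∀ b : (K ⊗[R] B)ˣ, IsReducedNorm K (b : K ⊗[R] B) (N b : K)) ∧
    (∀ b, (N b) ^ n = DK K (K ⊗[R] B) b) ∧
    (∀ (b : (K ⊗[R] B)ˣ) (ν : K), IsReducedNorm K (b : K ⊗[R] B) ν →
      ν ^ n = (DK K (K ⊗[R] B) b : K)) := by
  classical
  have hfB : Module.Free R B := free_of_azumaya R B
  obtain ⟨n, hn, ⟨φ⟩⟩ := exists_split (R := R) B K
  choose c hc using fun s : K ⊗[R] B => exists_nrd φ hn s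
  have hinj : Function.Injective (algebraMap K (AlgebraicClosure K)) :=
    (algebraMap K (AlgebraicClosure K)).injective
  let N0 : (K ⊗[R] B) →* K :=
    { toFun := c
      map_one' := by
        apply hinj
        rw [hc, ← Algebra.TensorProduct.one_def, map_one, Matrix.det_one, map_one]
      map_mul' := fun x y => by
        apply hinj
        rw [map_mul, hc, hc, hc, ← Matrix.det_mul, ← map_mul, Algebra.TensorProduct.tmul_mul_tmul,
          one_mul] }
  refine ⟨n, Units.map N0, hn, fun b => ⟨AlgebraicClosure K, inferInstance, inferInstance, n, φ,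
    (hc b).symm⟩, fun b => ?_, fun b ν => ?_⟩
  · apply Units.ext
    rw [Units.val_pow_eq_pow_val, DK_val]
    apply hinj
    rw [map_pow, det_mulRight_eq φ]
    congr 1
    exact hc b
  · rintro ⟨L, _, _, n', φ', h'⟩
    have h1 := finrank_eq_sq φ
    have h2 := finrank_eq_sq φ'
    have h3 : n' = n := by
      rw [h1] at h2
      exact (Nat.pow_left_injective (by norm_num : 2 ≠ 0) h2).symm
    subst h3
    rw [DK_val]
    apply (algebraMap K L).injective
    rw [map_pow, ← h', det_mulRight_eq φ']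

end

section
variable {R : Type u} [CommRing R] [SemiReg R]

private theorem height_span {π : R} (hπ : Prime π) : (Ideal.span {π}).height = 1 := by
  have hP := prime_span hπ
  refine le_antisymm ?_ ?_
  · exact Ideal.height_le_one_of_isPrincipal_of_mem_minimalPrimes (Ideal.span {π})
      (Ideal.span {π}) ⟨⟨hP, le_rfl⟩, fun J hJ _ => hJ.2⟩
  · rw [Order.one_le_iff_pos, pos_iff_ne_zero]
    intro h
    rw [Ideal.height_eq_zero_iff_eq_bot, Ideal.span_singleton_eq_bot] at h
    exact hπ.ne_zero h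

theorem purity {m r : ℕ} (B : Fin m → Type u) [∀ j, Ring (B j)] [∀ j, Algebra R (B j)]
    [∀ j, IsAzumaya R (B j)]
    (K : Type u) [Field K] [Algebra R K] [IsFractionRing R K] [CharZero K]
    (l : Fin m → Fin r → ℤ) (c : Fin r → K) (hc : ∀ i, c i ≠ 0)
    (h : ∀ p : Ideal R, p.IsPrime → p.height = 1 →
      ∃ (a s : Fin r → R) (b : ∀ j, (K ⊗[R] B j)ˣ) (ν : Fin m → K),
        (∀ i, a i ∉ p ∧ s i ∉ p) ∧ (∀ j, IsReducedNorm K (b j : K ⊗[R] B j) (ν j)) ∧
        ∀ i, algebraMap R K (s i) * c i = algebraMap R K (a i) * ∏ j, ν j ^ l j i) :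
    ∃ (a : Fin r → Rˣ) (b : ∀ j, (K ⊗[R] B j)ˣ) (ν : Fin m → K),
      (∀ j, IsReducedNorm K (b j : K ⊗[R] B j) (ν j)) ∧
      ∀ i, c i = algebraMap R K (a i) * ∏ j, ν j ^ l j i := by
  have hufd : UniqueFactorizationMonoid R := ufd R
  classical
  choose n N hn hNr hNp hNa using fun j => exists_hom (R := R) (B j) K
  have hvn : ∀ (π : R), Prime π → ∀ j (b : (K ⊗[R] B j)ˣ) (ν : K),
      IsReducedNorm K (b : K ⊗[R] B j) ν → vl π ν = vl π (N j b : K) := by
    intro π hπ j b ν hν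
    have h1 := hNa j b ν hν
    have hν0 : ν ≠ 0 := by
      rintro rfl
      rw [zero_pow (hn j)] at h1
      exact (Units.ne_zero _) h1.symm
    have h2 := vl_pow hπ (Units.mk0 ν hν0) (n j)
    have h3 := vl_pow hπ (N j b) (n j)
    rw [Units.val_pow_eq_pow_val, Units.val_mk0, h1] at h2
    rw [hNp] at h3
    rw [h2] at h3
    exact mul_left_cancel₀ (Nat.cast_ne_zero.2 (hn j)) h3
  have hN : ∀ (j : Fin m) (g : (K ⊗[R] B j)ˣ) (π : R), Prime π → ∃ y : (K ⊗[R] B j)ˣ,
      vl π (N j y : K) = vl π (N j g : K) ∧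
      ∀ π' : R, Prime π' → ¬ Associated π π' → vl π' (N j y : K) = 0 := by
    intro j g π hπ
    obtain ⟨y, hy1, hy2⟩ := local_step K hπ g
    refine ⟨y, ?_, fun π' hπ' hna => ?_⟩
    · rw [← hNp, ← hNp, vl_pow hπ, vl_pow hπ] at hy1
      exact mul_left_cancel₀ (Nat.cast_ne_zero.2 (hn j)) hy1
    · have h1 := hy2 π' hπ' hna
      rw [← hNp, vl_pow hπ'] at h1
      exact (mul_eq_zero.1 h1).resolve_left (Nat.cast_ne_zero.2 (hn j))
  obtain ⟨a, g, hg⟩ := glue (fun j => (K ⊗[R] B j)ˣ) N l hN (fun i => Units.mk0 (c i) (hc i)) (by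
    intro π hπ
    obtain ⟨a, s, b, ν, has, hν, heq⟩ := h (Ideal.span {π}) (prime_span hπ) (height_span hπ)
    refine ⟨b, fun i => ?_⟩
    have hν0 : ∀ j, ν j ≠ 0 := by
      rintro j hz
      have h1 := hNa j (b j) (ν j) (hν j)
      rw [hz, zero_pow (hn j)] at h1
      exact (Units.ne_zero _) h1.symm
    have ha : ¬ π ∣ a i := fun hd => (has i).1 (Ideal.mem_span_singleton.2 hd)
    have hs : ¬ π ∣ s i := fun hd => (has i).2 (Ideal.mem_span_singleton.2 hd)
    have ha0 : a i ≠ 0 := fun h0 => ha (h0 ▸ dvd_zero π)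
    have hs0 : s i ≠ 0 := fun h0 => hs (h0 ▸ dvd_zero π)
    have haK : algebraMap R K (a i) ≠ 0 := by
      rw [Ne, FaithfulSMul.algebraMap_eq_zero_iff]; exact ha0
    have hsK : algebraMap R K (s i) ≠ 0 := by
      rw [Ne, FaithfulSMul.algebraMap_eq_zero_iff]; exact hs0
    have hprod : ∏ j, ν j ^ l j i = ((∏ j, (Units.mk0 (ν j) (hν0 j)) ^ l j i : Kˣ) : K) := by
      rw [Units.coe_prod]
      exact Finset.prod_congr rfl fun j _ => by rw [Units.val_zpow_eq_zpow_val, Units.val_mk0]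
    have h1 := congrArg (vl π) (heq i)
    rw [vl_mul hπ hsK (hc i), hprod, vl_mul hπ haK (Units.ne_zero _), vl_prod hπ,
      vl_algebraMap hπ hs0, vl_algebraMap hπ ha0, multiplicity_eq_zero.2 hs,
      multiplicity_eq_zero.2 ha, Nat.cast_zero, zero_add, zero_add] at h1
    rw [Units.val_mk0, h1]
    refine Finset.sum_congr rfl fun j _ => ?_
    rw [vl_zpow hπ, Units.val_mk0, hvn π hπ j (b j) (ν j) (hν j)])
  refine ⟨a, g, fun j => (N j (g j) : K), fun j => hNr j (g j), fun i => ?_⟩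
  have h1 := congrArg Units.val (hg i)
  rw [Units.val_mk0, Units.val_mul, Units.coe_prod] at h1
  rw [h1]
  congr 1
  refine Finset.prod_congr rfl fun j _ => ?_
  rw [Units.val_zpow_eq_zpow_val]

end

end Pool.Agent.SLtwo
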