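import Pool.Agent.PurNrd.Length
import Pool.Agent.SLtwo.FreeC
import Pool.Agent.SLone.CodimLp

/-! A10: codimension one without local hypothesis. -/

namespace Pool.Agent.SLtwo

open Pool.Agent.PurNrd Pool.Agent.SLone TensorProduct

universe u

section
variable {R : Type u} [CommRing R] {B : Type u} [Ring B] [Algebra R B] {G : Type u} [CommGroup G]

private theorem iso_of_field [Module.Finite R B] {F : Type u} [Field F] [Algebra R F]
    [IsSimpleRing (F ⊗[R] B)]
    (V V' : Type u) [AddCommGroup V] [Module R V] [Module F V] [Module B V] [IsScalarTower R F V]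
    [IsScalarTower R B V] [SMulCommClass F B V] [FiniteDimensional F V]
    [AddCommGroup V'] [Module R V'] [Module F V'] [Module B V'] [IsScalarTower R F V']
    [IsScalarTower R B V'] [SMulCommClass F B V'] [FiniteDimensional F V']
    (h : Module.finrank F V = Module.finrank F V') : Nonempty (V ≃ₗ[B] V') := by
  let _ := TensorProduct.Algebra.module (R := R) (A := F) (B := B) (M := V)
  let _ := TensorProduct.Algebra.module (R := R) (A := F) (B := B) (M := V')
  have t1 : IsScalarTower F (F ⊗[R] B) V := by
    refine ⟨fun f z v => ?_⟩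
    induction z using TensorProduct.induction_on with
    | zero => simp
    | tmul a b =>
      rw [TensorProduct.smul_tmul', TensorProduct.Algebra.smul_def,
        TensorProduct.Algebra.smul_def, smul_assoc]
    | add x y hx hy => rw [smul_add, add_smul, hx, hy, add_smul, smul_add]
  have t2 : IsScalarTower F (F ⊗[R] B) V' := by
    refine ⟨fun f z v => ?_⟩
    induction z using TensorProduct.induction_on with
    | zero => simp
    | tmul a b =>
      rw [TensorProduct.smul_tmul', TensorProduct.Algebra.smul_def,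
        TensorProduct.Algebra.smul_def, smul_assoc]
    | add x y hx hy => rw [smul_add, add_smul, hx, hy, add_smul, smul_add]
  obtain ⟨e⟩ := equiv_of_finrank (F := F) (S := F ⊗[R] B) h
  refine ⟨{ e.toAddEquiv with map_smul' := fun b v => ?_ }⟩
  change e (b • v) = b • e v
  have h1 : b • v = ((1 : F) ⊗ₜ[R] b) • v := by
    rw [TensorProduct.Algebra.smul_def, one_smul]
  have h2 : b • e v = ((1 : F) ⊗ₜ[R] b) • e v := by
    rw [TensorProduct.Algebra.smul_def, one_smul]
  rw [h1, h2, map_smul]

/-- `B` acts on `A ⊗ N` through the second factor -/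
@[reducible] private noncomputable def modB (A : Type u) [CommRing A] [Algebra R A] (N : Type u)
    [AddCommGroup N] [Module R N] [Module B N] [IsScalarTower R B N] :
    Module B (A ⊗[R] N) :=
  Module.compHom (A ⊗[R] N)
    ((Module.End.baseChangeHom R A N).toRingHom.comp (Algebra.lsmul R R N).toRingHom :
      B →+* Module.End A (A ⊗[R] N))

private theorem torsion_max (p : Ideal R) [p.IsPrime] (V : Type u) [AddCommGroup V] [Module R V]
    [Module (Localization.AtPrime p) V] [IsScalarTower R (Localization.AtPrime p) V]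
    (hV : ∀ r ∈ p, ∀ v : V, r • v = 0) :
    Module.IsTorsionBySet (Localization.AtPrime p) V
      (IsLocalRing.maximalIdeal (Localization.AtPrime p)) := by
  rw [← Localization.AtPrime.map_eq_maximalIdeal]
  rintro v ⟨a, ha⟩
  change a • v = 0
  have ha' : a ∈ Ideal.map (algebraMap R (Localization.AtPrime p)) p := ha
  induction ha' using Submodule.span_induction with
  | mem x hx =>
    obtain ⟨r, hr, rfl⟩ := hx
    rw [algebraMap_smul]
    exact hV r hr v
  | zero => rw [zero_smul]
  | add x y hx hy h1 h2 => rw [add_smul, h1 hx, h2 hy, add_zero]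
  | smul c x hx h1 => rw [smul_eq_mul, mul_smul, h1 hx, smul_zero]

private theorem iso_of_length [IsAzumaya R B] [Module.Free R B] (p : Ideal R) [p.IsPrime]
    (V V' : Type u) [AddCommGroup V] [Module R V] [Module (Localization.AtPrime p) V]
    [Module B V] [IsScalarTower R (Localization.AtPrime p) V] [IsScalarTower R B V]
    [SMulCommClass (Localization.AtPrime p) B V] [Module.Finite (Localization.AtPrime p) V]
    [AddCommGroup V'] [Module R V'] [Module (Localization.AtPrime p) V']
    [Module B V'] [IsScalarTower R (Localization.AtPrime p) V'] [IsScalarTower R B V']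
    [SMulCommClass (Localization.AtPrime p) B V'] [Module.Finite (Localization.AtPrime p) V']
    (hV : ∀ r ∈ p, ∀ v : V, r • v = 0) (hV' : ∀ r ∈ p, ∀ v : V', r • v = 0)
    (h : Module.length (Localization.AtPrime p) V = Module.length (Localization.AtPrime p) V') :
    Nonempty (V ≃ₗ[B] V') := by
  let A := Localization.AtPrime p
  let F := IsLocalRing.ResidueField A
  have hm := torsion_max p V hV
  have hm' := torsion_max p V' hV'
  let _ : Module F V := hm.module
  let _ : Module F V' := hm'.module
  have hs : Function.Surjective (algebraMap A F) := IsLocalRing.residue_surjective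
  have act : ∀ (a : A) (v : V), algebraMap A F a • v = a • v := fun a v => rfl
  have act' : ∀ (a : A) (v : V'), algebraMap A F a • v = a • v := fun a v => rfl
  have tA : IsScalarTower A F V := IsScalarTower.of_algebraMap_smul act
  have tA' : IsScalarTower A F V' := IsScalarTower.of_algebraMap_smul act'
  have tR : IsScalarTower R F V := IsScalarTower.of_algebraMap_smul fun r v => by
    rw [IsScalarTower.algebraMap_apply R A F, act, algebraMap_smul]
  have tR' : IsScalarTower R F V' := IsScalarTower.of_algebraMap_smul fun r v => by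
    rw [IsScalarTower.algebraMap_apply R A F, act', algebraMap_smul]
  have cB : SMulCommClass F B V := ⟨fun f b v => by
    obtain ⟨a, rfl⟩ := hs f
    rw [act, act, smul_comm]⟩
  have cB' : SMulCommClass F B V' := ⟨fun f b v => by
    obtain ⟨a, rfl⟩ := hs f
    rw [act', act', smul_comm]⟩
  have fd : FiniteDimensional F V := Module.Finite.of_restrictScalars_finite A F V
  have fd' : FiniteDimensional F V' := Module.Finite.of_restrictScalars_finite A F V'
  have hsimp : IsSimpleRing (F ⊗[R] B) := SLtwo.isSimpleRing_baseChange F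
  refine iso_of_field (R := R) (B := B) (F := F) V V' ?_
  have h1 : Module.length A V = Module.length A V' := h
  rw [Module.length_eq_of_surjective (S := A) (R := F) hs,
    Module.length_eq_of_surjective (S := A) (R := F) hs, Module.length_eq_finrank,
    Module.length_eq_finrank] at h1
  exact_mod_cast h1

private theorem two_le_height (p : Ideal R) [p.IsPrime] (hp : p.height = 1) (s : R) (hs : s ∉ p)
    (q : Ideal R) (hq : q.IsPrime) (h : p ⊔ Ideal.span {s} ≤ q) : 2 ≤ q.height := by
  have hle : p ≤ q := le_sup_left.trans h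
  have hsq : s ∈ q := h (Ideal.mem_sup_right (Ideal.mem_span_singleton_self s))
  have hlt : p < q := lt_of_le_of_ne hle fun e => hs (e ▸ hsq)
  have h1 := Ideal.height_add_one_le_of_lt_of_isPrime hlt
  rw [hp] at h1
  exact h1

private theorem delta_one (Δ : DeltaFn R B G)
    (h2 : ∀ a : Ideal R, (∀ q : Ideal R, q.IsPrime → a ≤ q → 2 ≤ q.height) →
      ∀ (N : Type u) [AddCommGroup N] [Module B N] [Module.Finite B N], Killed R B a N →
        Δ.δ N = 1)
    (p : Ideal R) [p.IsPrime] (hp : p.height = 1)
    (M : Type u) [AddCommGroup M] [Module B M] [Module.Finite B M] (hM : Killed R B p M)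
    (hs : ∀ x : M, ∃ s : R, s ∉ p ∧ algebraMap R B s • x = 0) : Δ.δ M = 1 := by
  classical
  obtain ⟨t, ht⟩ := Module.Finite.fg_top (R := B) (M := M)
  choose f hf using hs
  let s : R := ∏ x ∈ t, f x
  have hsp : s ∉ p := by
    intro h
    obtain ⟨x, -, hx⟩ := (Ideal.IsPrime.prod_mem_iff (p := p)).1 h
    exact (hf x).1 hx
  have hkill : ∀ x : M, algebraMap R B s • x = 0 := by
    intro x
    have hx : x ∈ Submodule.span B (t : Set M) := ht ▸ Submodule.mem_top
    induction hx using Submodule.span_induction with
    | mem y hy =>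
      obtain ⟨c, hc⟩ := Finset.dvd_prod_of_mem f hy
      change algebraMap R B (∏ x ∈ t, f x) • y = 0
      rw [hc, mul_comm, map_mul, mul_smul, (hf y).2, smul_zero]
    | zero => rw [smul_zero]
    | add y z hy hz h1 h2 => rw [smul_add, h1, h2, add_zero]
    | smul b y hy h1 => rw [← mul_smul, Algebra.commutes, mul_smul, h1, smul_zero]
  refine h2 (p ⊔ Ideal.span {s}) (two_le_height p hp s hsp) M fun r hr x => ?_
  obtain ⟨a, ha, b, hb, rfl⟩ := Submodule.mem_sup.1 hr
  obtain ⟨c, rfl⟩ := Ideal.mem_span_singleton'.1 hb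
  rw [map_add, add_smul, hM a ha, zero_add, map_mul, mul_smul, hkill, smul_zero]

variable [IsNoetherianRing R] [Module.Finite R B] [IsDomain R]

omit [IsNoetherianRing R] [Module.Finite R B] in
private theorem tors_of_killed (p : Ideal R) (hp : p.height = 1) (M : Type u) [AddCommGroup M]
    [Module B M] (hM : Killed R B p M) : Tors R B M := by
  have hne : p ≠ ⊥ := by
    rintro rfl
    rw [Ideal.height_bot] at hp
    exact zero_ne_one hp
  obtain ⟨r, hr, hr0⟩ := Submodule.exists_mem_ne_zero_of_ne_bot hne
  exact ⟨r, hr0, hM r hr⟩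

private theorem noeth (R : Type u) [CommRing R] [IsNoetherianRing R] (B : Type u) [Ring B]
    [Algebra R B] [Module.Finite R B] : IsNoetherianRing B := by
  have : IsNoetherian R B := isNoetherian_of_isNoetherianRing_of_finite R B
  exact isNoetherian_of_tower R this

private theorem delta_range (Δ : DeltaFn R B G)
    (h2 : ∀ a : Ideal R, (∀ q : Ideal R, q.IsPrime → a ≤ q → 2 ≤ q.height) →
      ∀ (N : Type u) [AddCommGroup N] [Module B N] [Module.Finite B N], Killed R B a N →
        Δ.δ N = 1)
    (p : Ideal R) [p.IsPrime] (hp : p.height = 1)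
    (M V : Type u) [AddCommGroup M] [Module B M] [Module.Finite B M] [AddCommGroup V]
    [Module B V] (hM : Killed R B p M) (f : M →ₗ[B] V)
    (hf : ∀ x : M, f x = 0 → ∃ s : R, s ∉ p ∧ algebraMap R B s • x = 0) :
    Δ.δ M = Δ.δ (LinearMap.range f) := by
  have hn : IsNoetherianRing B := noeth R B
  have hk : Δ.δ (LinearMap.ker f) = 1 := by
    refine delta_one Δ h2 p hp (LinearMap.ker f) (fun r hr x => Subtype.ext (hM r hr x)) ?_
    rintro ⟨x, hx⟩
    obtain ⟨s, hs, h0⟩ := hf x hx
    exact ⟨s, hs, Subtype.ext h0⟩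
  have h := Δ.add (tors_of_killed p hp M hM) (LinearMap.ker f).subtype f.rangeRestrict
    (LinearMap.ker f).subtype_injective f.surjective_rangeRestrict (fun x => by
      constructor
      · intro hx
        exact ⟨⟨x, congrArg Subtype.val hx⟩, rfl⟩
      · rintro ⟨y, rfl⟩
        exact Subtype.ext y.2)
  rw [h, hk, one_mul]

private theorem delta_sub (Δ : DeltaFn R B G)
    (h2 : ∀ a : Ideal R, (∀ q : Ideal R, q.IsPrime → a ≤ q → 2 ≤ q.height) →
      ∀ (N : Type u) [AddCommGroup N] [Module B N] [Module.Finite B N], Killed R B a N →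
        Δ.δ N = 1)
    (p : Ideal R) [p.IsPrime] (hp : p.height = 1)
    (V : Type u) [AddCommGroup V] [Module B V] (hV : Killed R B p V) (P W : Submodule B V)
    (hPW : P ≤ W) (hW : W.FG) (h : ∀ x : V, ∃ s : R, s ∉ p ∧ algebraMap R B s • x ∈ P) :
    Δ.δ P = Δ.δ W := by
  have hn : IsNoetherianRing B := noeth R B
  have hWf : Module.Finite B W := Module.Finite.iff_fg.2 hW
  let i : P →ₗ[B] W := Submodule.inclusion hPW
  let Q := W ⧸ LinearMap.range i
  have hk : Δ.δ Q = 1 := by
    refine delta_one Δ h2 p hp Q (fun r hr x => ?_) ?_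
    · obtain ⟨y, rfl⟩ := Submodule.Quotient.mk_surjective _ x
      rw [← Submodule.Quotient.mk_smul]
      have : algebraMap R B r • y = 0 := Subtype.ext (hV r hr y)
      rw [this, Submodule.Quotient.mk_zero]
    · intro x
      obtain ⟨y, rfl⟩ := Submodule.Quotient.mk_surjective _ x
      obtain ⟨s, hs, hy⟩ := h y
      refine ⟨s, hs, ?_⟩
      rw [← Submodule.Quotient.mk_smul, Submodule.Quotient.mk_eq_zero]
      exact ⟨⟨_, hy⟩, rfl⟩
  have hT : Tors R B W := tors_of_killed p hp W fun r hr x => Subtype.ext (hV r hr x)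
  have h3 := Δ.add hT i (LinearMap.range i).mkQ (Submodule.inclusion_injective hPW)
    (Submodule.mkQ_surjective _) (fun x => by
      rw [← LinearMap.mem_ker, Submodule.ker_mkQ]
      exact Iff.rfl)
  rw [h3]
  change _ = _ * Δ.δ Q
  rw [hk, mul_one]

end

section
variable {R : Type u} [CommRing R] [IsNoetherianRing R] [IsDomain R]
  [UniqueFactorizationMonoid R]
  {B : Type u} [Ring B] [Algebra R B] [IsAzumaya R B] [Module.Free R B] {G : Type u} [CommGroup G]

omit [UniqueFactorizationMonoid R] in
/-- two modules killed by a prime element with the same length there -/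
theorem delta_eq_of_killed (Δ : DeltaFn R B G)
    (h2 : ∀ a : Ideal R, (∀ q : Ideal R, q.IsPrime → a ≤ q → 2 ≤ q.height) →
      ∀ (N : Type u) [AddCommGroup N] [Module B N] [Module.Finite B N], Killed R B a N →
        Δ.δ N = 1)
    (p : Ideal R) [p.IsPrime] (hp : p.height = 1)
    (N N' : Type u) [AddCommGroup N] [Module B N] [Module.Finite B N] [Module R N]
    [IsScalarTower R B N] [AddCommGroup N'] [Module B N'] [Module.Finite B N'] [Module R N']
    [IsScalarTower R B N'] (hN : Killed R B p N) (hN' : Killed R B p N')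
    (h : lp (R := R) (Localization.AtPrime p) N = lp (R := R) (Localization.AtPrime p) N') :
    Δ.δ N = Δ.δ N' := by
  let A := Localization.AtPrime p
  have key : ∀ (M : Type u) [AddCommGroup M] [Module B M] [Module.Finite B M] [Module R M]
      [IsScalarTower R B M] (_ : Killed R B p M),
      ∃ (mb : Module B (A ⊗[R] M)) (_ : IsScalarTower R B (A ⊗[R] M))
        (_ : SMulCommClass A B (A ⊗[R] M)) (_ : Module.Finite A (A ⊗[R] M))
        (_ : ∀ r ∈ p, ∀ v : A ⊗[R] M, r • v = 0) (f : M →ₗ[B] A ⊗[R] M),
        (∀ x, f x = 0 → ∃ s : R, s ∉ p ∧ algebraMap R B s • x = 0) ∧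
        ∀ v, ∃ s : R, s ∉ p ∧ ∃ x, algebraMap R B s • v = f x := by
    intro M _ _ _ _ _ hM
    let mb : Module B (A ⊗[R] M) := modB A M
    have act : ∀ (b : B) (a : A) (x : M), b • (a ⊗ₜ[R] x) = a ⊗ₜ[R] (b • x) := fun _ _ _ => rfl
    have st : IsScalarTower R B (A ⊗[R] M) := by
      refine ⟨fun r b v => ?_⟩
      induction v using TensorProduct.induction_on with
      | zero => simp
      | tmul a x => rw [act, act, smul_assoc, TensorProduct.tmul_smul]
      | add x y hx hy => rw [smul_add, smul_add, smul_add, hx, hy]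
    have cc : SMulCommClass A B (A ⊗[R] M) := by
      refine ⟨fun a b v => ?_⟩
      induction v using TensorProduct.induction_on with
      | zero => simp
      | tmul c x =>
        rw [act, TensorProduct.smul_tmul', TensorProduct.smul_tmul', act]
      | add x y hx hy => rw [smul_add, smul_add, smul_add, smul_add, hx, hy]
    have fR : Module.Finite R M := Module.Finite.trans B M
    have fA : Module.Finite A (A ⊗[R] M) := inferInstance
    have kl : ∀ r ∈ p, ∀ v : A ⊗[R] M, r • v = 0 := by
      intro r hr v
      induction v using TensorProduct.induction_on with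
      | zero => simp
      | tmul a x =>
        rw [← TensorProduct.tmul_smul, ← algebraMap_smul B r x, hM r hr, TensorProduct.tmul_zero]
      | add x y hx hy => rw [smul_add, hx, hy, add_zero]
    let f : M →ₗ[B] A ⊗[R] M :=
      { toFun := fun x => 1 ⊗ₜ[R] x
        map_add' := fun x y => TensorProduct.tmul_add _ _ _
        map_smul' := fun b x => rfl }
    have hloc : IsLocalizedModule p.primeCompl (TensorProduct.mk R A M 1) := inferInstance
    refine ⟨mb, st, cc, fA, kl, f, fun x hx => ?_, fun v => ?_⟩
    · have h0 : TensorProduct.mk R A M 1 x = TensorProduct.mk R A M 1 0 := by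
        rw [map_zero]
        exact hx
      obtain ⟨s, hs⟩ := (IsLocalizedModule.eq_iff_exists p.primeCompl
        (TensorProduct.mk R A M 1)).1 h0
      refine ⟨s, s.2, ?_⟩
      rw [algebraMap_smul]
      rw [smul_zero] at hs
      exact hs
    · obtain ⟨⟨x, s⟩, hs⟩ := IsLocalizedModule.surj p.primeCompl (TensorProduct.mk R A M 1) v
      refine ⟨s, s.2, x, ?_⟩
      rw [algebraMap_smul]
      exact hs
  obtain ⟨m1, s1, c1, f1, k1, f, hf, hfs⟩ := key N hN
  obtain ⟨m2, s2, c2, f2, k2, f', hf', hfs'⟩ := key N' hN'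
  obtain ⟨e⟩ := iso_of_length (R := R) (B := B) p (A ⊗[R] N') (A ⊗[R] N) k2 k1 h.symm
  have hV : Killed R B p (A ⊗[R] N) := fun r hr v => by
    rw [algebraMap_smul]
    exact k1 r hr v
  let g : N' →ₗ[B] A ⊗[R] N := e.toLinearMap ∘ₗ f'
  have hg : ∀ x, g x = 0 → ∃ s : R, s ∉ p ∧ algebraMap R B s • x = 0 := by
    intro x hx
    refine hf' x (e.injective ?_)
    rw [map_zero]
    exact hx
  have e1 := delta_range Δ h2 p hp N (A ⊗[R] N) hN f hf
  have e2 := delta_range Δ h2 p hp N' (A ⊗[R] N) hN' g hg
  have hfg1 : (LinearMap.range f).FG := Module.Finite.iff_fg.1 inferInstance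
  have hfg2 : (LinearMap.range g).FG := Module.Finite.iff_fg.1 inferInstance
  have e3 := delta_sub Δ h2 p hp (A ⊗[R] N) hV (LinearMap.range f)
    (LinearMap.range f ⊔ LinearMap.range g) le_sup_left (hfg1.sup hfg2) (fun v => by
      obtain ⟨s, hs, x, hx⟩ := hfs v
      exact ⟨s, hs, x, hx.symm⟩)
  have e4 := delta_sub Δ h2 p hp (A ⊗[R] N) hV (LinearMap.range g)
    (LinearMap.range f ⊔ LinearMap.range g) le_sup_right (hfg1.sup hfg2) (fun v => by
      obtain ⟨s, hs, x, hx⟩ := hfs' (e.symm v)
      refine ⟨s, hs, x, ?_⟩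
      change e (f' x) = _
      rw [← hx, map_smul, e.apply_symm_apply])
  rw [e1, e2, e3, e4]

theorem delta_eq_of_lp (Δ : DeltaFn R B G)
    (h2 : ∀ a : Ideal R, (∀ q : Ideal R, q.IsPrime → a ≤ q → 2 ≤ q.height) →
      ∀ (N : Type u) [AddCommGroup N] [Module B N] [Module.Finite B N], Killed R B a N →
        Δ.δ N = 1)
    (N N' : Type u) [AddCommGroup N] [Module B N] [Module.Finite B N] [Module R N]
    [IsScalarTower R B N] [AddCommGroup N'] [Module B N'] [Module.Finite B N'] [Module R N']
    [IsScalarTower R B N'] (hN : Tors R B N) (hN' : Tors R B N')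
    (h : ∀ (p : Ideal R) [p.IsPrime], p.height = 1 →
      lp (R := R) (Localization.AtPrime p) N = lp (R := R) (Localization.AtPrime p) N') :
    Δ.δ N = Δ.δ N' :=
  delta_eq_of_lp_of Δ (fun p _ hp N N' _ _ _ _ _ _ _ _ _ _ hN hN' h =>
    delta_eq_of_killed Δ h2 p hp N N' hN hN' h) N N' hN hN' h

end

end Pool.Agent.SLtwo
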