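import Pool.Agent.PurNrd.Simple
import Pool.Agent.SLone.Defs

/-! Semilocal regular domains. -/

namespace Pool.Agent.SLtwo

open TensorProduct

universe u

/-- A noetherian domain with finitely many maximal ideals, all whose localizations at maximal
ideals are regular. -/
class SemiReg (R : Type u) [CommRing R] : Prop where
  isDomain : IsDomain R
  isNoetherian : IsNoetherianRing R
  finite_max : Finite (MaximalSpectrum R)
  regular : ∀ (P : Ideal R) [P.IsMaximal], IsRegularLocalRing (Localization.AtPrime P)

attribute [instance] SemiReg.isDomain SemiReg.isNoetherian SemiReg.finite_max

end Pool.Agent.SLtwo
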