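import Pool.Agent.SLtwo.Reg
import Pool.Agent.SLone.Ind

/-! A5: existence of the invariant over semilocal regular domains. -/

namespace Pool.Agent.SLtwo

open Module Matrix Pool.Agent.SLone

universe u

section
variable {R : Type u} [CommRing R] {B : Type u} [Ring B] [Algebra R B]

/-- the `R`-module structure of a `B`-module -/
private theorem tower_compHom (N : Type u) [AddCommGroup N] [Module B N] :
    letI := Module.compHom N (algebraMap R B)
    IsScalarTower R B N := by
  letI := Module.compHom N (algebraMap R B)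
  refine ⟨fun r b x => ?_⟩
  rw [Algebra.smul_def, mul_smul]
  rfl

/-- the kernel over `B` and over `R` -/
private def kerEquiv {M N : Type u} [AddCommGroup M] [Module B M] [Module R M]
    [IsScalarTower R B M] [AddCommGroup N] [Module B N] [Module R N] [IsScalarTower R B N]
    (f : M →ₗ[B] N) : LinearMap.ker (f.restrictScalars R) ≃ₗ[R] LinearMap.ker f where
  toFun x := ⟨x.1, x.2⟩
  invFun x := ⟨x.1, x.2⟩
  map_add' _ _ := rfl
  map_smul' _ _ := rfl
  left_inv _ := rfl
  right_inv _ := rfl

private theorem rank_zero_of_tors [IsDomain R] (N : Type u) [AddCommGroup N] [Module B N]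
    [Module R N] [IsScalarTower R B N] (hN : Tors R B N) : Module.finrank R N = 0 := by
  obtain ⟨r, hr, h⟩ := hN
  have : Module.rank R N = 0 := by
    rw [rank_eq_zero_iff]
    intro x
    refine ⟨r, hr, ?_⟩
    have := h x
    rwa [algebraMap_smul] at this
  rw [Module.finrank, this]
  simp

private theorem tors_of_rank [IsDomain R] (N : Type u) [AddCommGroup N] [Module B N]
    [Module R N] [IsScalarTower R B N] [Module.Finite R N] (h : Module.finrank R N = 0) :
    Tors R B N := by
  have h0 : Module.rank R N = 0 := by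
    rw [← Module.finrank_eq_rank, h]; simp
  rw [rank_eq_zero_iff] at h0
  have ht : Module.IsTorsion R N := by
    intro x
    obtain ⟨a, ha, hax⟩ := h0 x
    exact ⟨⟨a, mem_nonZeroDivisors_of_ne_zero ha⟩, hax⟩
  obtain ⟨r, hr1, hr2⟩ := Submodule.annihilator_top_inter_nonZeroDivisors ht
  refine ⟨r, nonZeroDivisors.ne_zero hr2, fun x => ?_⟩
  rw [algebraMap_smul]
  exact Submodule.mem_annihilator.1 hr1 x trivial

end

section
variable {R : Type u} [CommRing R] [SemiReg R]
  {B : Type u} [Ring B] [Algebra R B] [IsAzumaya R B] {L : Type u} [Field L] {n : ℕ}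
  (σ : B →+* Matrix (Fin n) (Fin n) L) (U : Subgroup Lˣ)

/-- modules of projective dimension at most one -/
private theorem exists_del_base
    (hdt : ∀ (m : ℕ) (G : Matrix (Fin m) (Fin m) B), Function.Injective G.vecMulLinear →
      dt σ G ≠ 0)
    (N : Type u) [AddCommGroup N] [Module B N] [Module R N] [IsScalarTower R B N]
    [Module.Finite B N] (hN : Tors R B N) (hpd : PurNrd.PDLT R N 2) :
    ∃ x, Del σ U 0 N x := by
  have hfree : Module.Free R B := SLtwo.free_of_azumaya R B
  obtain ⟨m, f, hf⟩ := Module.Finite.exists_fin' B N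
  have hfR : Function.Surjective (f.restrictScalars R) := hf
  have h1 : PurNrd.PDLT R (LinearMap.ker (f.restrictScalars R)) 1 :=
    PurNrd.pd_ker (f.restrictScalars R) hfR 0 hpd
  have hproj0 : Module.Projective R (LinearMap.ker (f.restrictScalars R)) :=
    (PurNrd.pd_one_iff _).1 h1
  have hproj : Module.Projective R (LinearMap.ker f) :=
    Module.Projective.of_equiv (kerEquiv f)
  have hfin0 : Module.Finite R (LinearMap.ker (f.restrictScalars R)) := inferInstance
  have hfin : Module.Finite R (LinearMap.ker f) := Module.Finite.equiv (kerEquiv f)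
  have hrank : finrank R (LinearMap.ker f) = m * finrank R B := by
    have e1 : finrank R (LinearMap.ker f) = finrank R (LinearMap.ker (f.restrictScalars R)) :=
      (kerEquiv f).finrank_eq.symm
    have e2 := Submodule.finrank_quotient_add_finrank (LinearMap.ker (f.restrictScalars R))
    have e3 : finrank R ((Fin m → B) ⧸ LinearMap.ker (f.restrictScalars R)) = finrank R N :=
      ((f.restrictScalars R).quotKerEquivOfSurjective hfR).finrank_eq
    rw [e3, rank_zero_of_tors N hN, zero_add] at e2
    rw [e1, e2, Module.finrank_pi_fintype]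
    simp
  obtain ⟨e⟩ := free_of_rank_R (R := R) (LinearMap.ker f) m hrank
  set g : (Fin m → B) →ₗ[B] (Fin m → B) := (LinearMap.ker f).subtype ∘ₗ e.toLinearMap with hg
  set G : Matrix (Fin m) (Fin m) B := LinearMap.toMatrixRight' g with hG
  have hGg : G.vecMulLinear = g := by
    have : G.toLinearMapRight' = g := by
      rw [hG]; exact LinearMap.toMatrixRight'.symm_apply_apply g
    rw [← this]
    rfl
  have hinj : Function.Injective G.vecMulLinear := by
    rw [hGg, hg]
    exact (Submodule.injective_subtype _).comp e.injective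
  have hrange : LinearMap.range G.vecMulLinear = LinearMap.ker f := by
    rw [hGg, hg, LinearMap.range_comp, LinearEquiv.range, Submodule.map_top,
      Submodule.range_subtype]
  refine ⟨QuotientGroup.mk (Units.mk0 _ (hdt m G hinj)), Fin m, inferInstance, inferInstance, G,
    hdt m G hinj, ⟨?_⟩, rfl⟩
  exact (Submodule.quotEquivOfEq _ _ hrange).trans (f.quotKerEquivOfSurjective hf)

/-- cokernels have projective dimension at most one -/
private theorem pd_of_del_zero (hσ : Function.Injective σ)
    (P : Type u) [AddCommGroup P] [Module B P] [Module R P] [IsScalarTower R B P]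
    {y : Lˣ ⧸ U} (h : Del σ U 0 P y) : PurNrd.PDLT R P 2 := by
  obtain ⟨ι, _, _, G, hG, ⟨e⟩, -⟩ := h
  have hfree : Module.Free R B := SLtwo.free_of_azumaya R B
  have hinj := inj_of_dt σ hσ G hG
  set π : (ι → B) →ₗ[B] P := e.toLinearMap ∘ₗ (LinearMap.range G.vecMulLinear).mkQ with hπ
  have hπs : Function.Surjective π := e.surjective.comp (Submodule.mkQ_surjective _)
  have hker : LinearMap.ker π = LinearMap.range G.vecMulLinear := by
    rw [hπ, LinearEquiv.ker_comp, Submodule.ker_mkQ]
  have e1 : (ι → B) ≃ₗ[B] LinearMap.ker π :=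
    (LinearEquiv.ofInjective G.vecMulLinear hinj).trans (LinearEquiv.ofEq _ _ hker.symm)
  have hproj : Module.Projective R (LinearMap.ker π) :=
    Module.Projective.of_equiv (e1.restrictScalars R)
  have hproj0 : Module.Projective R (LinearMap.ker (π.restrictScalars R)) :=
    Module.Projective.of_equiv (kerEquiv (R := R) π).symm
  exact PurNrd.pd_quot (π.restrictScalars R) hπs 1 ((PurNrd.pd_one_iff _).2 hproj0)
    (PurNrd.pd_mono (by omega) ((PurNrd.pd_one_iff (R := R) (ι → B)).2 inferInstance))

private theorem exists_del_aux (hσ : Function.Injective σ)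
    (hR : ∀ r : R, r ≠ 0 → ∃ c : L, c ≠ 0 ∧
      σ (algebraMap R B r) = c • (1 : Matrix (Fin n) (Fin n) L))
    (hdt : ∀ (m : ℕ) (G : Matrix (Fin m) (Fin m) B), Function.Injective G.vecMulLinear →
      dt σ G ≠ 0) (k : ℕ) :
    ∀ (N : Type u) [AddCommGroup N] [Module B N] [Module R N] [IsScalarTower R B N]
      [Module.Finite B N], Tors R B N → PurNrd.PDLT R N (k + 2) → ∃ d x, Del σ U d N x := by
  induction k with
  | zero =>
    intro N _ _ _ _ _ hN hpd
    exact ⟨0, exists_del_base σ U hdt N hN hpd⟩
  | succ k ih =>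
    intro N _ _ _ _ _ hN hpd
    obtain ⟨P, _, _, f, hf, ⟨y, hy⟩, hPf, hPt⟩ := exists_cover (R := R) σ U hR hN
    let _ : Module R P := Module.compHom P (algebraMap R B)
    have : IsScalarTower R B P := tower_compHom P
    have hPpd := pd_of_del_zero (R := R) σ U hσ P hy
    have hfR : Function.Surjective (f.restrictScalars R) := hf
    have hK0 : PurNrd.PDLT R (LinearMap.ker (f.restrictScalars R)) (k + 2) := by
      have hS := LinearMap.shortExact_shortComplexKer hfR
      exact hS.hasProjectiveDimensionLT_X₁ (k + 2) (PurNrd.pd_mono (by omega) hPpd) hpd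
    have hK : PurNrd.PDLT R (LinearMap.ker f) (k + 2) := PurNrd.pd_congr (kerEquiv f) _ hK0
    have hnoeth : IsNoetherianRing B := IsNoetherianRing.of_finite R B
    have hKfin : Module.Finite B (LinearMap.ker f) := inferInstance
    have hKt : Tors R B (LinearMap.ker f) := by
      obtain ⟨r, hr, h⟩ := hPt
      exact ⟨r, hr, fun x => Subtype.ext (h x)⟩
    obtain ⟨d, z, hz⟩ := ih (LinearMap.ker f) hKt hK
    exact ⟨d + 1, y / z, P, inferInstance, inferInstance, f, hf, y, z, hy, hz, rfl⟩

theorem exists_del (hσ : Function.Injective σ)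
    (hR : ∀ r : R, r ≠ 0 → ∃ c : L, c ≠ 0 ∧
      σ (algebraMap R B r) = c • (1 : Matrix (Fin n) (Fin n) L))
    (hdt : ∀ (m : ℕ) (G : Matrix (Fin m) (Fin m) B), Function.Injective G.vecMulLinear →
      dt σ G ≠ 0)
    (N : Type u) [AddCommGroup N] [Module B N] [Module.Finite B N] (hN : Tors R B N) :
    ∃ d x, Del σ U d N x := by
  let _ : Module R N := Module.compHom N (algebraMap R B)
  have : IsScalarTower R B N := tower_compHom N
  have : Module.Finite R N := Module.Finite.trans B N
  obtain ⟨m, hm⟩ := SLtwo.finite_pd R N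
  exact exists_del_aux σ U hσ hR hdt m N hN (PurNrd.pd_mono (by omega) hm)

theorem exists_deltaFn (hσ : Function.Injective σ) (hU : AutTriv σ U)
    (hR : ∀ r : R, r ≠ 0 → ∃ c : L, c ≠ 0 ∧
      σ (algebraMap R B r) = c • (1 : Matrix (Fin n) (Fin n) L))
    (hdt : ∀ (m : ℕ) (G : Matrix (Fin m) (Fin m) B), Function.Injective G.vecMulLinear →
      dt σ G ≠ 0) :
    ∃ Δ : DeltaFn R B (Lˣ ⧸ U), ∀ (ι : Type) [Fintype ι] [DecidableEq ι] (G : Matrix ι ι B)
      (h : dt σ G ≠ 0), Δ.δ (Coker G) = QuotientGroup.mk (Units.mk0 _ h) := by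
  classical
  have hnoeth : IsNoetherianRing B := IsNoetherianRing.of_finite R B
  -- monotonicity
  have hmono : ∀ (N : Type u) [AddCommGroup N] [Module B N] (d d' : ℕ) (x : Lˣ ⧸ U), d ≤ d' →
      Del σ U d N x → Del σ U d' N x := by
    intro N _ _ d d' x hdd h
    induction hdd with
    | refl => exact h
    | step _ ih => exact del_mono σ U hσ _ ih
  -- uniqueness
  have huniq : ∀ (N : Type u) [AddCommGroup N] [Module B N] [Module.Finite B N],
      Tors R B N → ∀ (d d' : ℕ) (x x' : Lˣ ⧸ U), Del σ U d N x → Del σ U d' N x' → x = x' := by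
    intro N _ _ _ hN d d' x x' h h'
    exact del_unique (R := R) σ U hσ hU hR (max d d') hN
      (hmono N d _ x (le_max_left _ _) h) (hmono N d' _ x' (le_max_right _ _) h')
  let δ : ∀ (N : Type u) [AddCommGroup N] [Module B N], Lˣ ⧸ U := fun N _ _ =>
    if h : (Module.Finite B N ∧ Tors R B N) ∧ ∃ x d, Del σ U d N x then h.2.choose else 1
  have hδ : ∀ (N : Type u) [AddCommGroup N] [Module B N] [Module.Finite B N],
      Tors R B N → ∀ (d : ℕ) (x : Lˣ ⧸ U), Del σ U d N x → δ N = x := by
    intro N _ _ hfin hN d x h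
    have h1 : (Module.Finite B N ∧ Tors R B N) ∧ ∃ x d, Del σ U d N x := ⟨⟨hfin, hN⟩, x, d, h⟩
    have h2 : δ N = h1.2.choose := dif_pos h1
    rw [h2]
    obtain ⟨d', hd'⟩ := h1.2.choose_spec
    exact huniq N hN d' d _ x hd' h
  have hδ0 : ∀ (N : Type u) [AddCommGroup N] [Module B N],
      ¬ (Module.Finite B N ∧ Tors R B N) → δ N = 1 := by
    intro N _ _ h
    exact dif_neg (fun h' => h h'.1)
  have htors : ∀ {N N' : Type u} [AddCommGroup N] [Module B N] [AddCommGroup N'] [Module B N'],
      (N ≃ₗ[B] N') → Tors R B N → Tors R B N' := by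
    rintro N N' _ _ _ _ e ⟨r, hr, h⟩
    refine ⟨r, hr, fun x => ?_⟩
    have := congrArg e (h (e.symm x))
    rwa [map_smul, map_zero, e.apply_symm_apply] at this
  refine ⟨⟨δ, ?_, ?_⟩, ?_⟩
  · intro N N' _ _ _ _ e
    by_cases h : Module.Finite B N ∧ Tors R B N
    · have hf := h.1
      have hf' : Module.Finite B N' := Module.Finite.equiv e
      obtain ⟨d, x, hx⟩ := exists_del σ U hσ hR hdt N h.2
      rw [hδ N h.2 d x hx, hδ N' (htors e h.2) d x (del_congr σ U d e hx)]
    · have h' : ¬ (Module.Finite B N' ∧ Tors R B N') := by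
        rintro ⟨h1, h2⟩
        exact h ⟨Module.Finite.equiv e.symm, htors e.symm h2⟩
      rw [hδ0 N h, hδ0 N' h']
  · intro N' N N'' _ _ _ _ _ _ _ hN i p hi hp hip
    have hf' : Module.Finite B N' := Module.Finite.of_injective i hi
    have hf'' : Module.Finite B N'' := Module.Finite.of_surjective p hp
    have ht' : Tors R B N' := by
      obtain ⟨r, hr, h⟩ := hN
      refine ⟨r, hr, fun x => hi ?_⟩
      rw [map_smul, map_zero]
      exact h (i x)
    have ht'' : Tors R B N'' := by
      obtain ⟨r, hr, h⟩ := hN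
      refine ⟨r, hr, fun x => ?_⟩
      obtain ⟨y, rfl⟩ := hp x
      rw [← map_smul, h y, map_zero]
    obtain ⟨d', x', hx'⟩ := exists_del σ U hσ hR hdt N' ht'
    obtain ⟨d'', x'', hx''⟩ := exists_del σ U hσ hR hdt N'' ht''
    have h1 := hmono N' d' (max d' d'') x' (le_max_left _ _) hx'
    have h2 := hmono N'' d'' (max d' d'') x'' (le_max_right _ _) hx''
    have h3 := del_add (R := R) σ U hσ hU hR (max d' d'') hN i p hi hp hip h1 h2
    rw [hδ N hN _ _ h3, hδ N' ht' _ _ hx', hδ N'' ht'' _ _ hx'']
  · intro ι _ _ G h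
    have h0 : Del σ U 0 (Coker G) (QuotientGroup.mk (Units.mk0 _ h)) :=
      ⟨ι, inferInstance, inferInstance, G, h, ⟨LinearEquiv.refl _ _⟩, rfl⟩
    have htG : Tors R B (Coker G) := by
      have hfree : Module.Free R B := SLtwo.free_of_azumaya R B
      have hinj := inj_of_dt σ hσ G h
      have : IsScalarTower R B (Coker G) := inferInstance
      have : Module.Finite R (Coker G) := Module.Finite.trans B (Coker G)
      apply tors_of_rank
      set π : (ι → B) →ₗ[B] Coker G := (LinearMap.range G.vecMulLinear).mkQ with hπ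
      have hπs : Function.Surjective (π.restrictScalars R) := Submodule.mkQ_surjective _
      have hker : LinearMap.ker π = LinearMap.range G.vecMulLinear := Submodule.ker_mkQ _
      have e1 : (ι → B) ≃ₗ[B] LinearMap.ker π :=
        (LinearEquiv.ofInjective G.vecMulLinear hinj).trans (LinearEquiv.ofEq _ _ hker.symm)
      have e2 : finrank R (LinearMap.ker (π.restrictScalars R)) = finrank R (ι → B) := by
        rw [(kerEquiv (R := R) π).finrank_eq]
        exact (e1.restrictScalars R).finrank_eq.symm
      have e3 := Submodule.finrank_quotient_add_finrank (LinearMap.ker (π.restrictScalars R))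
      have e4 : finrank R ((ι → B) ⧸ LinearMap.ker (π.restrictScalars R)) = finrank R (Coker G) :=
        ((π.restrictScalars R).quotKerEquivOfSurjective hπs).finrank_eq
      rw [e4, e2] at e3
      omega
    exact hδ (Coker G) htG 0 _ h0

end

end Pool.Agent.SLtwo
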