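import Pool.Agent.PurNrd.Reg
import Pool.Agent.SLtwo.FreeC

/-! A6: modules over `C ⊗ B` (no local hypothesis on `R`). -/

namespace Pool.Agent.SLtwo

open Module TensorProduct Pool.Agent.SLone

universe u

section
variable (C : Type u) [CommRing C] [IsNoetherianRing C] [Finite (MaximalSpectrum C)]

/-- finitely generated modules over a semilocal ring with regular localizations have finite
projective dimension -/
theorem exists_pdlt
    (hreg : ∀ (P : Ideal C) [P.IsMaximal], IsRegularLocalRing (Localization.AtPrime P))
    (N : Type u) [AddCommGroup N] [Module C N] [Module.Finite C N] :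
    ∃ n, PurNrd.PDLT C N (n + 1) := by
  have h1 : ∀ m : MaximalSpectrum C, ∃ n, CategoryTheory.HasProjectiveDimensionLE
      ((ModuleCat.of C N).localizedModule m.1.primeCompl) n := by
    intro m
    have : IsRegularLocalRing (Localization.AtPrime m.1) := hreg m.1
    have hfin : Module.Finite (Localization.AtPrime m.1)
        ((ModuleCat.of C N).localizedModule m.1.primeCompl) := by
      have h2 : Module.Finite (Localization m.1.primeCompl)
          (LocalizedModule m.1.primeCompl N) := inferInstance
      exact Module.Finite.equiv (Shrink.linearEquiv.{u} (Localization m.1.primeCompl)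
        (LocalizedModule m.1.primeCompl N)).symm
    obtain ⟨n, hn⟩ := PurNrd.finite_pd (Localization.AtPrime m.1)
      ((ModuleCat.of C N).localizedModule m.1.primeCompl)
    exact ⟨n, CategoryTheory.hasProjectiveDimensionLT_of_ge _ n (n + 1) (by omega)⟩
  choose g hg using h1
  obtain ⟨n, hn⟩ : ∃ n, ∀ m, g m ≤ n := by
    obtain ⟨n, hn⟩ := (Set.finite_range g).bddAbove
    exact ⟨n, fun m => hn ⟨m, rfl⟩⟩
  refine ⟨n, ?_⟩
  have : Module.Finite C (ModuleCat.of C N) := ‹Module.Finite C N›
  refine (ModuleCat.hasProjectiveDimensionLE_iff_forall_maximalSpectrum n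
    (ModuleCat.of C N)).2 fun m => ?_
  have h2 := hg m
  exact CategoryTheory.hasProjectiveDimensionLT_of_ge _ (g m + 1) (n + 1) (by have := hn m; omega)

end

section
variable {R : Type u} [CommRing R] {B : Type u} [Ring B] [Algebra R B] {G : Type u} [CommGroup G]

theorem delta_zero (Δ : DeltaFn R B G) (hR : Nontrivial R) (N : Type u) [AddCommGroup N]
    [Module B N] [Subsingleton N] : Δ.δ N = 1 := by
  have : Module.Finite B N := Module.Finite.of_finite
  have h := Δ.add (N' := N) (N := N) (N'' := N) ⟨1, one_ne_zero, fun x => Subsingleton.elim _ _⟩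
    LinearMap.id LinearMap.id Function.injective_id Function.surjective_id
    (fun x => by simp [Subsingleton.elim x 0])
  simpa using h

theorem delta_pow (Δ : DeltaFn R B G) (hR : Nontrivial R) (A : Type u) [AddCommGroup A]
    [Module B A] [Module.Finite B A] (hA : Tors R B A) (r : ℕ) :
    Δ.δ (Fin r → A) = Δ.δ A ^ r := by
  induction r with
  | zero =>
    rw [pow_zero]
    exact delta_zero Δ hR _
  | succ r ih =>
    have hT : Tors R B (Fin (r + 1) → A) := by
      obtain ⟨c, hc, h⟩ := hA
      exact ⟨c, hc, fun x => funext fun i => h (x i)⟩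
    have h := Δ.add (N' := A) (N := Fin (r + 1) → A) (N'' := Fin r → A) hT
      (LinearMap.single B (fun _ => A) 0) (LinearMap.funLeft B A Fin.succ)
      (LinearMap.ker_eq_bot.1 (LinearMap.ker_single _ _ _)) (fun x => ⟨Fin.cons 0 x, by
        funext i
        simp [LinearMap.funLeft]⟩) (fun x => by
        constructor
        · intro hx
          refine ⟨x 0, ?_⟩
          funext i
          refine Fin.cases ?_ (fun j => ?_) i
          · simp
          · have := congrFun hx j
            simp only [LinearMap.funLeft_apply] at this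
            simp [this]
        · rintro ⟨y, rfl⟩
          funext j
          simp [LinearMap.funLeft_apply])
    rw [h, ih, pow_succ']

end

section
variable {R : Type u} [CommRing R] [IsNoetherianRing R] [IsDomain R]
  {B : Type u} [Ring B] [Algebra R B] [IsAzumaya R B] [Module.Free R B] {G : Type u} [CommGroup G]

/-- `B` acts on the second factor of `C ⊗ B` -/
noncomputable local instance modBA (C : Type u) [CommRing C] [Algebra R C] :
    Module B (C ⊗[R] B) :=
  Module.compHom _ (Algebra.TensorProduct.includeRight : B →ₐ[R] C ⊗[R] B).toRingHom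

theorem modBA_smul (C : Type u) [CommRing C] [Algebra R C] (b : B) (a : C ⊗[R] B) :
    b • a = ((1 : C) ⊗ₜ[R] b) * a := rfl

theorem tower_BA (C : Type u) [CommRing C] [Algebra R C] (M : Type u) [AddCommGroup M]
    [Module B M] [Module (C ⊗[R] B) M]
    (hb : ∀ (b : B) (x : M), b • x = ((1 : C) ⊗ₜ[R] b) • x) :
    IsScalarTower B (C ⊗[R] B) M :=
  ⟨fun b a x => by rw [modBA_smul, mul_smul, ← hb]⟩

theorem smul_BA (C : Type u) [CommRing C] [Algebra R C] (M : Type u) [AddCommGroup M]
    [Module B M] [Module (C ⊗[R] B) M] [IsScalarTower B (C ⊗[R] B) M] (b : B) (x : M) :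
    b • x = ((1 : C) ⊗ₜ[R] b) • x := by
  have h := smul_assoc b (1 : C ⊗[R] B) x
  rw [one_smul, modBA_smul, mul_one] at h
  exact h.symm

local instance tower_BAA (C : Type u) [CommRing C] [Algebra R C] :
    IsScalarTower B (C ⊗[R] B) (C ⊗[R] B) :=
  ⟨fun b a x => by rw [modBA_smul, modBA_smul, smul_eq_mul, smul_eq_mul, mul_assoc]⟩

local instance finite_BA (C : Type u) [CommRing C] [Algebra R C] [Module.Finite R C] :
    Module.Finite B (C ⊗[R] B) := by
  classical
  obtain ⟨s, hs⟩ := (Module.Finite.fg_top : (⊤ : Submodule R C).FG)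
  have key : ∀ c ∈ Submodule.span R (s : Set C), ∀ b : B,
      c ⊗ₜ[R] b ∈ Submodule.span B (((s.image fun c => c ⊗ₜ[R] (1 : B)) :
        Finset (C ⊗[R] B)) : Set (C ⊗[R] B)) := by
    intro c hc
    induction hc using Submodule.span_induction with
    | mem x hx =>
      intro b
      have h1 : x ⊗ₜ[R] b = b • (x ⊗ₜ[R] (1 : B)) := by
        rw [modBA_smul, Algebra.TensorProduct.tmul_mul_tmul, one_mul, mul_one]
      rw [h1]
      refine Submodule.smul_mem _ _ (Submodule.subset_span ?_)
      rw [Finset.mem_coe, Finset.mem_image]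
      exact ⟨x, hx, rfl⟩
    | zero =>
      intro b
      rw [TensorProduct.zero_tmul]
      exact zero_mem _
    | add x y _ _ h1 h2 =>
      intro b
      rw [TensorProduct.add_tmul]
      exact add_mem (h1 b) (h2 b)
    | smul r x _ h1 =>
      intro b
      rw [TensorProduct.smul_tmul]
      exact h1 (r • b)
  refine ⟨⟨s.image fun c => c ⊗ₜ[R] (1 : B), ?_⟩⟩
  rw [eq_top_iff]
  intro x _
  induction x using TensorProduct.induction_on with
  | zero => exact zero_mem _
  | tmul c b => exact key c (by rw [hs]; trivial) b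
  | add x y h1 h2 => exact add_mem (h1 trivial) (h2 trivial)

theorem tors_BA (C : Type u) [CommRing C] [Algebra R C]
    (hC : ∃ r : R, r ≠ 0 ∧ algebraMap R C r = 0) (M : Type u) [AddCommGroup M] [Module B M]
    [Module (C ⊗[R] B) M] [IsScalarTower B (C ⊗[R] B) M] : Tors R B M := by
  obtain ⟨r, hr, h⟩ := hC
  refine ⟨r, hr, fun x => ?_⟩
  rw [smul_BA (R := R) C M]
  have h1 : (1 : C) ⊗ₜ[R] (algebraMap R B r) = (algebraMap R C r) ⊗ₜ[R] (1 : B) := by
    rw [Algebra.algebraMap_eq_smul_one, Algebra.algebraMap_eq_smul_one,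
      TensorProduct.tmul_smul, TensorProduct.smul_tmul']
  rw [h1, h, TensorProduct.zero_tmul, zero_smul]

theorem finrank_B_pos : 0 < finrank R B := by
  have : Nontrivial B := by
    refine ⟨1, 0, fun h => ?_⟩
    have h2 : (1 : R) = 0 := by
      refine FaithfulSMul.eq_of_smul_eq_smul (M := R) (α := B) fun b => ?_
      have h3 : b = 0 := by rw [← one_mul b, h, zero_mul]
      rw [h3, smul_zero, smul_zero]
    exact one_ne_zero h2
  exact Module.finrank_pos

theorem delta_claim (Δ : DeltaFn R B G) (C : Type u) [CommRing C] [IsDomain C] [Algebra R C]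
    [Module.Finite R C] [Finite (MaximalSpectrum C)]
    (hC : ∃ r : R, r ≠ 0 ∧ algebraMap R C r = 0) (n : ℕ) :
    ∀ (r : ℕ) (M : Type u) [AddCommGroup M] [Module B M] [Module C M] [Module (C ⊗[R] B) M]
      [IsScalarTower C (C ⊗[R] B) M] [IsScalarTower B (C ⊗[R] B) M] [Module.Finite C M],
      finrank C M = r * finrank R B → PurNrd.PDLT C M (n + 1) →
      Δ.δ M = Δ.δ (C ⊗[R] B) ^ r := by
  have : IsNoetherianRing C := IsNoetherianRing.of_finite R C
  induction n with
  | zero =>
    intro r M _ _ _ _ _ _ _ hr hpd
    have hproj : Module.Projective C M := (PurNrd.pd_one_iff M).1 hpd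
    obtain ⟨e⟩ := free_of_rank (R := R) (B := B) (C := C) M r hr
    have h1 := Δ.congr (e.restrictScalars B)
    rw [← h1]
    exact delta_pow Δ inferInstance _ (tors_BA C hC _) r
  | succ n ih =>
    intro r M _ _ _ _ _ _ _ hr hpd
    have hMA : Module.Finite (C ⊗[R] B) M := Module.Finite.of_restrictScalars_finite C _ M
    obtain ⟨k, f, hf⟩ := Module.Finite.exists_fin' (C ⊗[R] B) M
    have hproj : Module.Projective C (Fin k → C ⊗[R] B) := inferInstance
    -- the kernel
    have hK : PurNrd.PDLT C (LinearMap.ker f) (n + 1) := by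
      have h1 := PurNrd.pd_ker (f.restrictScalars C) hf n hpd
      let e : LinearMap.ker (f.restrictScalars C) ≃ₗ[C] LinearMap.ker f :=
        { toFun := fun x => ⟨x.1, x.2⟩
          invFun := fun x => ⟨x.1, x.2⟩
          map_add' := fun _ _ => rfl
          map_smul' := fun _ _ => rfl
          left_inv := fun _ => rfl
          right_inv := fun _ => rfl }
      exact PurNrd.pd_congr e (n + 1) h1
    have hKfin : Module.Finite C (LinearMap.ker f) := by
      have h1 : Module.Finite C (LinearMap.ker (f.restrictScalars C)) := inferInstance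
      exact h1
    have hrank : finrank C (LinearMap.ker f) + finrank C M = k * finrank R B := by
      have h1 := Submodule.finrank_quotient_add_finrank (LinearMap.ker (f.restrictScalars C))
      have h2 : finrank C ((Fin k → C ⊗[R] B) ⧸ LinearMap.ker (f.restrictScalars C)) =
          finrank C M :=
        ((f.restrictScalars C).quotKerEquivOfSurjective hf).finrank_eq
      have h3 : finrank C (Fin k → C ⊗[R] B) = k * finrank R B := by
        rw [Module.finrank_pi_fintype]
        simp
      rw [h2, h3] at h1
      have h4 : finrank C (LinearMap.ker (f.restrictScalars C)) =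
          finrank C (LinearMap.ker f) := rfl
      omega
    have hpos := finrank_B_pos (R := R) (B := B)
    have hrk : r ≤ k := by
      rw [hr] at hrank
      exact Nat.le_of_mul_le_mul_right (by omega) hpos
    have hrank' : finrank C (LinearMap.ker f) = (k - r) * finrank R B := by
      rw [Nat.sub_mul]
      omega
    have h1 := ih (k - r) (LinearMap.ker f) hrank' hK
    have h2 := Δ.add (N' := LinearMap.ker f) (N := Fin k → C ⊗[R] B) (N'' := M)
      (tors_BA C hC _) ((LinearMap.ker f).subtype.restrictScalars B) (f.restrictScalars B)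
      (LinearMap.ker f).injective_subtype hf (fun x => by
        constructor
        · intro hx
          exact ⟨⟨x, hx⟩, rfl⟩
        · rintro ⟨y, rfl⟩
          exact y.2)
    rw [delta_pow Δ inferInstance _ (tors_BA C hC _) k, h1] at h2
    have h3 : Δ.δ (C ⊗[R] B) ^ k = Δ.δ (C ⊗[R] B) ^ (k - r) * Δ.δ (C ⊗[R] B) ^ r := by
      rw [← pow_add, Nat.sub_add_cancel hrk]
    rw [h3] at h2
    exact (mul_left_cancel h2).symm

theorem delta_surface (Δ : DeltaFn R B G) (C : Type u) [CommRing C] [IsDomain C] [Algebra R C]
    [Module.Finite R C] [Finite (MaximalSpectrum C)]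
    (hreg : ∀ (P : Ideal C) [P.IsMaximal], IsRegularLocalRing (Localization.AtPrime P))
    (hC : ∃ r : R, r ≠ 0 ∧ algebraMap R C r = 0)
    (N : Type u) [AddCommGroup N] [Module B N] [Module C N] [Module (C ⊗[R] B) N]
    [IsScalarTower C (C ⊗[R] B) N] [Module.Finite C N]
    (hb : ∀ (b : B) (x : N), b • x = ((1 : C) ⊗ₜ[R] b) • x)
    (hN : ∃ c : C, c ≠ 0 ∧ ∀ x : N, c • x = 0) : Δ.δ N = 1 := by
  have hnoeth : IsNoetherianRing C := IsNoetherianRing.of_finite R C
  have htower : IsScalarTower B (C ⊗[R] B) N := tower_BA C N hb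
  obtain ⟨n, hn⟩ := exists_pdlt C hreg N
  have hrank : finrank C N = 0 * finrank R B := by
    rw [zero_mul, Module.finrank_eq_zero_iff_isTorsion]
    obtain ⟨c, hc, h⟩ := hN
    intro x
    exact ⟨⟨c, mem_nonZeroDivisors_of_ne_zero hc⟩, h x⟩
  have h := delta_claim Δ C hC n 0 N hrank hn
  simpa using h

end

end Pool.Agent.SLtwo
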