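import Pool.Agent.SLtwo.Defs
import Pool.Agent.PurNrd.Reg
import Pool.Agent.SLone.Surface

/-! A8b: finite algebras over semilocal rings, and over rings of the dimension three. -/

namespace Pool.Agent.SLtwo

open IsLocalRing

universe u

/-- A8b -/
theorem finite_max {R C : Type u} [CommRing R] [Finite (MaximalSpectrum R)] [IsNoetherianRing R]
    [CommRing C] [Algebra R C] [Module.Finite R C] : Finite (MaximalSpectrum C) := by
  have h1 : ∀ m : MaximalSpectrum R, Finite (m.asIdeal.primesOver C) := by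
    intro m
    have := m.isMaximal.isPrime
    exact Algebra.QuasiFinite.finite_primesOver m.asIdeal
  have h2 : ∀ P : MaximalSpectrum C, (P.asIdeal.comap (algebraMap R C)).IsMaximal := by
    intro P
    have := P.isMaximal
    exact Ideal.isMaximal_comap_of_isIntegral_of_isMaximal (R := R) P.asIdeal
  let f : MaximalSpectrum C → (Σ m : MaximalSpectrum R, m.asIdeal.primesOver C) := fun P =>
    ⟨⟨P.asIdeal.comap (algebraMap R C), h2 P⟩, ⟨P.asIdeal, P.isMaximal.isPrime, ⟨rfl⟩⟩⟩
  have hf : Function.Injective f := by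
    intro P Q h
    refine MaximalSpectrum.ext ?_
    exact congrArg (fun s : (Σ m : MaximalSpectrum R, m.asIdeal.primesOver C) =>
      (s.2 : Ideal C)) h
  exact Finite.of_injective f hf

/-- A8c -/
theorem exists_killed {R C : Type u} [CommRing R] [IsDomain R]
    [IsNoetherianRing R] [CommRing C] [Algebra R C]
    [Module.Finite R C] (hR : ringKrullDim R = 3)
    (hC : ∀ (P : Ideal C) [P.IsMaximal], ringKrullDim (Localization.AtPrime P) = 2) :
    ∃ r : R, r ≠ 0 ∧ algebraMap R C r = 0 := by
  by_contra hcon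
  push Not at hcon
  have hinj : RingHom.ker (algebraMap R C) = ⊥ := by
    refine (RingHom.injective_iff_ker_eq_bot _).1 ((injective_iff_map_eq_zero _).2 fun r h => ?_)
    by_contra h0
    exact hcon r h0 h
  obtain ⟨l, hl⟩ := Order.le_krullDim_iff.1 (show ((3 : ℕ) : WithBot ℕ∞) ≤
    Order.krullDim (PrimeSpectrum R) from le_of_eq hR.symm)
  obtain ⟨Q, -, hQ, hQl⟩ := Ideal.exists_ideal_over_prime_of_isIntegral
    (RelSeries.head l).asIdeal (⊥ : Ideal C) (by
      rw [← RingHom.ker_eq_comap_bot, hinj]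
      exact bot_le)
  have hlo : Q.LiesOver (RelSeries.head l).asIdeal := ⟨hQl.symm⟩
  obtain ⟨L, hL, -, -⟩ := Ideal.exists_ltSeries_of_hasGoingUp (R := R) (S := C) l Q
  have h3 : ((3 : ℕ) : WithBot ℕ∞) ≤ ringKrullDim C := Order.le_krullDim_iff.2 ⟨L, hL.trans hl⟩
  have h2 : ringKrullDim C ≤ 2 := by
    rw [ringKrullDim_le_iff_isMaximal_height_le]
    intro P hP
    rw [← IsLocalization.AtPrime.ringKrullDim_eq_height P (Localization.AtPrime P), hC P]
  have h4 := h3.trans h2
  exact absurd h4 (by decide)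

end Pool.Agent.SLtwo
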