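import Pool.Agent.SLtwo.Defs
import Pool.Agent.PurNrd.Reg
import Pool.Agent.SLone.Surface
import Pool.Agent.SLtwo.SurfA

/-! A8d: surfaces over semilocal regular domains. `Pool.Agent.SLtwo.SurfA` is to contain
`mvpoly_regular` (A8a), `finite_max` (A8b) and `exists_killed` (A8c). -/

namespace Pool.Agent.SLtwo

open IsLocalRing

universe u

/-- A8d -/
theorem exists_surface {R : Type u} [CommRing R] [SemiReg R] (hd : ringKrullDim R = 3)
    {T : Type u} [CommRing T] [IsDedekindDomain T]
    [Algebra R T] [Module.Finite R T]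
    (hT : ∀ m : Ideal R, m.IsMaximal → RingHom.ker (algebraMap R T) ≤ m → m.height = 3) :
    ∃ (C : Type u) (_ : CommRing C) (_ : Algebra R C) (f : C →ₐ[R] T),
      IsDomain C ∧ Module.Finite R C ∧ Finite (MaximalSpectrum C) ∧
      (∀ (P : Ideal C) [P.IsMaximal], IsRegularLocalRing (Localization.AtPrime P)) ∧
      Function.Surjective f ∧ ¬ Function.Injective f ∧
      (∃ r : R, r ≠ 0 ∧ algebraMap R C r = 0) := by
  have : Finite (MaximalSpectrum T) := finite_max (R := R)
  obtain ⟨s, φ, hφ⟩ := Algebra.FiniteType.iff_quotient_mvPolynomial''.1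
    (inferInstance : Algebra.FiniteType R T)
  -- the monic polynomials
  have hint : ∀ i : Fin s, ∃ q : Polynomial R, q.Monic ∧
      Polynomial.aeval (φ (MvPolynomial.X i)) q = 0 := fun i =>
    Algebra.IsIntegral.isIntegral (R := R) (φ (MvPolynomial.X i))
  choose q hqm hq0 using hint
  have hD : ∀ i N, 2 * (q i).natDegree < N →
      (MvPolynomial.X i ^ (N - 2 * (q i).natDegree) *
        (Polynomial.aeval (MvPolynomial.X i : MvPolynomial (Fin s) R) (q i)) ^ 2 -
        MvPolynomial.X i ^ N).totalDegree < N := by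
    intro i N hN
    set E : Polynomial R := Polynomial.X ^ (N - 2 * (q i).natDegree) * (q i) ^ 2 with hE
    have hEm : E.Monic := (Polynomial.monic_X_pow _).mul ((hqm i).pow 2)
    have hEd : E.natDegree = N := by
      rw [hE, (Polynomial.monic_X_pow _).natDegree_mul ((hqm i).pow 2),
        Polynomial.natDegree_X_pow, (hqm i).natDegree_pow]
      omega
    have h1 : MvPolynomial.X i ^ (N - 2 * (q i).natDegree) *
        (Polynomial.aeval (MvPolynomial.X i : MvPolynomial (Fin s) R) (q i)) ^ 2 -
        MvPolynomial.X i ^ N =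
        Polynomial.aeval (MvPolynomial.X i : MvPolynomial (Fin s) R)
          (E - Polynomial.X ^ N) := by
      rw [hE]
      simp
    rw [h1]
    refine lt_of_le_of_lt (SLone.totalDegree_aeval_X s i _) ?_
    have h2 : (E - Polynomial.X ^ N).degree < E.degree := by
      refine Polynomial.degree_sub_lt_left ?_ hEm.ne_zero ?_
      · rw [Polynomial.degree_X_pow, Polynomial.degree_eq_natDegree hEm.ne_zero, hEd]
      · rw [hEm.leadingCoeff, (Polynomial.monic_X_pow N).leadingCoeff]
    rcases eq_or_ne (E - Polynomial.X ^ N) 0 with h3 | h3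
    · rw [h3, Polynomial.natDegree_zero]
      omega
    · have h4 := Polynomial.natDegree_lt_natDegree h3 h2
      rwa [hEd] at h4
  have hreg : ∀ (Q : Ideal (MvPolynomial (Fin s) R)) [Q.IsMaximal],
      RingHom.ker (φ : MvPolynomial (Fin s) R →+* T) ≤ Q →
      IsRegularLocalRing (Localization.AtPrime Q) ∧
      ringKrullDim (Localization.AtPrime Q) = (3 + s : ℕ) := by
    intro Q _ hQ
    have e1 : (Q.map (φ : MvPolynomial (Fin s) R →+* T)).comap
        (φ : MvPolynomial (Fin s) R →+* T) = Q := by
      rw [Ideal.comap_map_of_surjective (φ : MvPolynomial (Fin s) R →+* T) hφ]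
      exact sup_eq_left.2 hQ
    have e2 : (Q.map (φ : MvPolynomial (Fin s) R →+* T)).IsMaximal := by
      rcases Ideal.map_eq_top_or_isMaximal_of_surjective
        (φ : MvPolynomial (Fin s) R →+* T) hφ (I := Q) inferInstance with h | h
      · rw [h, Ideal.comap_top] at e1
        exact absurd e1.symm (Ideal.IsMaximal.ne_top inferInstance)
      · exact h
    have e3 : ((Q.map (φ : MvPolynomial (Fin s) R →+* T)).comap (algebraMap R T)).IsMaximal :=
      Ideal.isMaximal_comap_of_isIntegral_of_isMaximal _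
    have e4 : Q.comap (MvPolynomial.C : R →+* MvPolynomial (Fin s) R) =
        (Q.map (φ : MvPolynomial (Fin s) R →+* T)).comap (algebraMap R T) := by
      conv_lhs => rw [← e1]
      ext x
      rw [Ideal.mem_comap, Ideal.mem_comap, Ideal.mem_comap]
      have : (φ : MvPolynomial (Fin s) R →+* T) (MvPolynomial.C x) = algebraMap R T x :=
        φ.commutes x
      rw [this]
    have e5 : RingHom.ker (algebraMap R T) ≤
        (Q.map (φ : MvPolynomial (Fin s) R →+* T)).comap (algebraMap R T) := by
      intro x hx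
      rw [RingHom.mem_ker] at hx
      rw [Ideal.mem_comap, hx]
      exact zero_mem _
    have e6 := hT _ e3 e5
    have e7 : IsRegularLocalRing (Localization.AtPrime
        ((Q.map (φ : MvPolynomial (Fin s) R →+* T)).comap (algebraMap R T))) :=
      SemiReg.regular _
    obtain ⟨h1, h2⟩ := mvpoly_regular _ s Q e4
    refine ⟨h1, ?_⟩
    rw [h2, IsLocalization.AtPrime.ringKrullDim_eq_height
      ((Q.map (φ : MvPolynomial (Fin s) R →+* T)).comap (algebraMap R T)), e6]
    push_cast
    rfl
  obtain ⟨g, N, A, _, π, f, hπ, hfπ, hker, hdeg, hA⟩ := SLone.surf_tower s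
    (φ : MvPolynomial (Fin s) R →+* T) hφ
    (fun i => Polynomial.aeval (MvPolynomial.X i : MvPolynomial (Fin s) R) (q i))
    (fun i => by
      change φ _ = 0
      rw [← Polynomial.aeval_algHom_apply]
      exact hq0 i)
    (fun i => (q i).natDegree) hD hreg s le_rfl
  have hfx : ∀ x, f (π x) = φ x := fun x => by
    change (f.comp π) x = _
    rw [hfπ]
    rfl
  have hf : Function.Surjective f := by
    intro t
    obtain ⟨x, hx⟩ := hφ t
    exact ⟨π x, by rw [hfx, hx]⟩
  have hA3 : ∀ (Q : Ideal A) [Q.IsMaximal], RingHom.ker f ≤ Q →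
      IsRegularLocalRing (Localization.AtPrime Q) ∧
      ringKrullDim (Localization.AtPrime Q) = (2 + 1 : ℕ) := by
    intro Q _ hQ
    have h1 := hA Q hQ
    have h2 : 3 + s - s = 2 + 1 := by omega
    rwa [h2] at h1
  let algA : Algebra R A := (π.comp (MvPolynomial.C : R →+* MvPolynomial (Fin s) R)).toAlgebra
  have halg : ∀ r, algebraMap R A r = π (MvPolynomial.C r) := fun r => rfl
  have hfinA : Module.Finite R A := by
    have h1 : Module.Finite R (MvPolynomial (Fin s) R ⧸ Ideal.span (Set.range g)) :=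
      SLone.finite_of_monic s g N fun i => hdeg i i.isLt
    let πa : MvPolynomial (Fin s) R →ₐ[R] A := { π with commutes' := fun r => rfl }
    have h2 : ∀ a ∈ Ideal.span (Set.range g), πa a = 0 := by
      intro a ha
      have h3 : g '' {j : Fin s | j.val < s} = Set.range g := by
        ext x
        constructor
        · rintro ⟨j, _, rfl⟩
          exact ⟨j, rfl⟩
        · rintro ⟨j, rfl⟩
          exact ⟨j, j.isLt, rfl⟩
      rw [← h3, ← hker] at ha
      exact ha
    let ψ := Ideal.Quotient.liftₐ (Ideal.span (Set.range g)) πa h2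
    refine Module.Finite.of_surjective ψ.toLinearMap ?_
    intro a
    obtain ⟨x, hx⟩ := hπ a
    exact ⟨Ideal.Quotient.mk _ x, hx⟩
  have hmaxA : Finite (MaximalSpectrum A) := finite_max (R := R)
  classical
  -- the last element
  obtain ⟨p, hp, hpI⟩ := SLone.avoid
    (fun Q : MaximalSpectrum A => if RingHom.ker f ≤ Q.asIdeal then Q.asIdeal ^ 2 else Q.asIdeal)
    (by
      intro Q Q' hQQ'
      have h1 : IsCoprime Q.asIdeal Q'.asIdeal := by
        rw [Ideal.isCoprime_iff_sup_eq]
        exact Q.isMaximal.coprime_of_ne Q'.isMaximal fun h => hQQ' (MaximalSpectrum.ext h)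
      split_ifs
      · exact h1.pow
      · exact h1.pow_left
      · exact h1.pow_right
      · exact h1) (RingHom.ker f) (by
      intro Q
      have := Q.isMaximal
      split_ifs with h
      · obtain ⟨h1, h2⟩ := hA3 Q.asIdeal h
        refine SLone.ker_not_le_sq f hf Q.asIdeal h ?_
        rw [h2]
        exact_mod_cast (by omega : 2 ≤ 2 + 1)
      · exact h)
  have hp' : f p = 0 := hp
  have hkerle : ∀ (Q : Ideal A) [Q.IsMaximal], p ∈ Q → RingHom.ker f ≤ Q := by
    intro Q hQ hpQ
    by_contra hcon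
    have h1 := hpI ⟨Q, hQ⟩
    simp only [if_neg hcon] at h1
    exact h1 hpQ
  have hpsq : ∀ (Q : Ideal A) [Q.IsMaximal], RingHom.ker f ≤ Q → p ∉ Q ^ 2 := by
    intro Q hQ hle
    have h1 := hpI ⟨Q, hQ⟩
    simp only [if_pos hle] at h1
    exact h1
  let f' : (A ⧸ Ideal.span {p}) →+* T := Ideal.Quotient.lift _ f (by
    intro a ha
    rw [Ideal.mem_span_singleton] at ha
    obtain ⟨c, rfl⟩ := ha
    rw [map_mul, hp', zero_mul])
  have hf' : f'.comp (Ideal.Quotient.mk _) = f := Ideal.Quotient.lift_comp_mk _ _ _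
  have hf'x : ∀ x, f' (Ideal.Quotient.mk _ x) = f x := fun x => rfl
  have hfs : Function.Surjective f' := by
    intro t
    obtain ⟨x, hx⟩ := hf t
    exact ⟨Ideal.Quotient.mk _ x, hx⟩
  let fa : (A ⧸ Ideal.span {p}) →ₐ[R] T := { f' with
    commutes' := fun r => by
      change f (algebraMap R A r) = _
      rw [halg, hfx]
      exact φ.commutes r }
  have hfinC : Module.Finite R (A ⧸ Ideal.span {p}) :=
    Module.Finite.of_surjective (Ideal.Quotient.mkₐ R (Ideal.span {p})).toLinearMap
      Ideal.Quotient.mk_surjective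
  have hkerC : ∀ P : Ideal (A ⧸ Ideal.span {p}), P.IsMaximal → RingHom.ker f' ≤ P := by
    intro P hP x hx
    have h1 : (P.comap (Ideal.Quotient.mk (Ideal.span {p}))).IsMaximal :=
      Ideal.comap_isMaximal_of_surjective _ Ideal.Quotient.mk_surjective
    have h2 : p ∈ P.comap (Ideal.Quotient.mk (Ideal.span {p})) := by
      rw [Ideal.mem_comap, Ideal.Quotient.eq_zero_iff_mem.2 (Ideal.mem_span_singleton_self p)]
      exact zero_mem _
    have h3 := hkerle _ h2
    obtain ⟨a, rfl⟩ := Ideal.Quotient.mk_surjective x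
    exact h3 (show a ∈ RingHom.ker f from hx)
  have hregC : ∀ (P : Ideal (A ⧸ Ideal.span {p})) [P.IsMaximal],
      IsRegularLocalRing (Localization.AtPrime P) ∧
      ringKrullDim (Localization.AtPrime P) = (2 : ℕ) := by
    intro P hP
    refine SLone.surf_cut f p 2 ?_ f' hf' P (hkerC P hP)
    intro Q _ hQ
    exact ⟨hpsq Q hQ, hA3 Q hQ⟩
  have hdomC : IsDomain (A ⧸ Ideal.span {p}) := by
    refine SLone.isDomain_of_points f' hkerC fun P hP => ?_
    have := (hregC P).1
    exact Pool.Agent.PurNrd.isDomain_of_regular _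
  refine ⟨A ⧸ Ideal.span {p}, inferInstance, inferInstance, fa, hdomC, hfinC,
    finite_max (R := R), fun P hP => (hregC P).1, hfs, ?_, ?_⟩
  · intro hinj
    let e : (A ⧸ Ideal.span {p}) ≃+* T := RingEquiv.ofBijective f' ⟨hinj, hfs⟩
    obtain ⟨P, hP⟩ := Ideal.exists_maximal (A ⧸ Ideal.span {p})
    have h1 := (hregC P).2
    rw [IsLocalization.AtPrime.ringKrullDim_eq_height P] at h1
    have h2 := Ideal.height_le_ringKrullDim_of_ne_top hP.ne_top
    rw [h1, ringKrullDim_eq_of_ringEquiv e] at h2
    have h3 : Ring.KrullDimLE 1 T := by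
      rw [Ring.krullDimLE_one_iff_of_noZeroDivisors]
      intro I hI hI'
      exact hI'.isMaximal hI
    have h4 : ringKrullDim T ≤ (1 : ℕ) := (Ring.krullDimLE_iff).1 h3
    have h5 := h2.trans h4
    exact absurd (by exact_mod_cast h5 : (2 : ℕ) ≤ 1) (by norm_num)
  · exact exists_killed hd fun P _ => by
      rw [(hregC P).2]
      rfl

end Pool.Agent.SLtwo
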