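import Pool.Agent.SLone.Dev
import Pool.Agent.SLone.SurfA2
import Pool.Agent.SLone.SurfA3
import Pool.Agent.SLtwo.LemK
import Pool.Agent.SLtwo.Surface

/-! A9: modules with support of codimension at least two. -/

namespace Pool.Agent.SLtwo

open IsLocalRing TensorProduct Pool.Agent.SLone

universe u

section gen

private theorem max_of_lt {R : Type u} [CommRing R] [IsNoetherianRing R]
    (hd : ringKrullDim R ≤ 3) (q : Ideal R) [q.IsPrime] (hq : q.height = 2) (q' : Ideal R)
    [hq' : q'.IsPrime] (h : q < q') : q'.IsMaximal ∧ q'.height = 3 := by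
  have hb : ∀ p : Ideal R, p ≠ ⊤ → p.height ≤ 3 := by
    intro p hp
    have h1 := (Ideal.height_le_ringKrullDim_of_ne_top hp).trans hd
    exact WithBot.coe_le_coe.1 h1
  have h1 := Ideal.height_strict_mono_of_isPrime_of_isPrime h
  rw [hq] at h1
  have h4 : (2 : ℕ∞) + 1 ≤ q'.height := Order.add_one_le_of_lt h1
  have h5 : (2 : ℕ∞) + 1 = 3 := by norm_num
  rw [h5] at h4
  have h6 : q'.height = 3 := le_antisymm (hb q' hq'.ne_top) h4
  refine ⟨?_, h6⟩
  obtain ⟨m, hm, hle⟩ := Ideal.exists_le_maximal q' hq'.ne_top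
  by_contra hn
  have hlt : q' < m := lt_of_le_of_ne hle fun e => hn (e ▸ hm)
  have hmp : m.IsPrime := hm.isPrime
  have h2 := Ideal.height_strict_mono_of_isPrime_of_isPrime hlt
  rw [h6] at h2
  exact absurd h2 (not_lt.2 (hb m hm.ne_top))

variable {R : Type u} [CommRing R] {B : Type u} [Ring B] [Algebra R B] {G : Type u} [CommGroup G]

private theorem delta_sub (Δ : DeltaFn R B G) [Nontrivial R] (N : Type u) [AddCommGroup N]
    [Module B N] [Subsingleton N] : Δ.δ N = 1 := by
  have h : Δ.δ N = Δ.δ N * Δ.δ N :=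
    Δ.add ⟨1, one_ne_zero, fun x => Subsingleton.elim _ _⟩ (LinearMap.id : N →ₗ[B] N)
      (LinearMap.id : N →ₗ[B] N) (fun _ _ h => h) (fun x => ⟨x, rfl⟩)
      (fun x => ⟨fun _ => ⟨0, Subsingleton.elim _ _⟩, fun _ => Subsingleton.elim _ _⟩)
  exact (mul_eq_left.1 h.symm)

private theorem delta_map (Δ : DeltaFn R B G) [Nontrivial R] (N M : Type u) [AddCommGroup N]
    [Module B N] [AddCommGroup M] [Module B M] [Module.Finite B N] [Module.Finite B M]
    (hN : Tors R B N) (hM : Tors R B M) (φ : N →ₗ[B] M)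
    (hk : Δ.δ (LinearMap.ker φ) = 1) (hc : Δ.δ (M ⧸ LinearMap.range φ) = 1) : Δ.δ N = Δ.δ M := by
  have h1 : Δ.δ N = Δ.δ (LinearMap.ker φ) * Δ.δ (LinearMap.range φ) :=
    Δ.add hN (LinearMap.ker φ).subtype φ.rangeRestrict (Submodule.subtype_injective _)
      (LinearMap.surjective_rangeRestrict φ) (by
        rw [LinearMap.exact_iff, LinearMap.ker_rangeRestrict, Submodule.range_subtype])
  have h2 : Δ.δ M = Δ.δ (LinearMap.range φ) * Δ.δ (M ⧸ LinearMap.range φ) :=
    Δ.add hM (LinearMap.range φ).subtype (LinearMap.range φ).mkQ (Submodule.subtype_injective _)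
      (Submodule.mkQ_surjective _) (by
        rw [LinearMap.exact_iff, Submodule.ker_mkQ, Submodule.range_subtype])
  rw [h1, h2, hk, hc, one_mul, mul_one]

/-- base change of a module along `R → T` with the two actions, and the canonical map -/
private theorem exists_tensor (T : Type u) [CommRing T] [Algebra R T] [Module.Finite R T]
    (N : Type u) [AddCommGroup N] [Module B N] [Module R N] [IsScalarTower R B N]
    [Module.Finite R N] (q : Ideal R)
    (hq : ∀ r : R, algebraMap R T r = 0 ↔ r ∈ q) (hN : ∀ r ∈ q, ∀ x : N, r • x = 0)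
    (s : R) (hs : ∀ t : T, ∃ r : R, algebraMap R T s * t = algebraMap R T r) :
    ∃ (M : Type u) (_ : AddCommGroup M) (_ : Module B M) (_ : Module R M)
      (_ : IsScalarTower R B M) (_ : Module T M) (_ : IsScalarTower R T M)
      (_ : SMulCommClass T B M) (φ : N →ₗ[B] M), Module.Finite R M ∧
      (∀ x, φ x = 0 → s • x = 0) ∧ (∀ y, ∃ x, φ x = s • y) := by
  let ρ : B →ₐ[R] Module.End R (T ⊗[R] N) :=
    (Module.End.lTensorAlgHom R N T).comp (Algebra.lsmul R R N)
  let iB : Module B (T ⊗[R] N) := Module.compHom (T ⊗[R] N) (ρ : B →+* Module.End R (T ⊗[R] N))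
  have hB : ∀ (b : B) (t : T) (x : N), b • (t ⊗ₜ[R] x) = t ⊗ₜ[R] (b • x) := fun b t x => rfl
  have hρ : ∀ (b : B) (y : T ⊗[R] N), b • y = ρ b y := fun b y => rfl
  have i1 : IsScalarTower R B (T ⊗[R] N) := by
    refine ⟨fun r b y => ?_⟩
    rw [hρ, hρ, map_smul]
    rfl
  have i2 : SMulCommClass T B (T ⊗[R] N) := by
    refine ⟨fun t b y => ?_⟩
    induction y using TensorProduct.induction_on with
    | zero => simp
    | tmul t' x => rw [TensorProduct.smul_tmul', hB, hB, TensorProduct.smul_tmul']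
    | add y z hy hz => rw [smul_add, smul_add, smul_add, smul_add, hy, hz]
  let φ : N →ₗ[B] T ⊗[R] N :=
    { toFun := fun x => (1 : T) ⊗ₜ[R] x
      map_add' := fun x y => TensorProduct.tmul_add _ _ _
      map_smul' := fun b x => (hB b 1 x).symm }
  -- multiplication by `s` as a map `T → R ⧸ q`
  let ψ : (R ⧸ q) →ₗ[R] T := Submodule.liftQ q (Algebra.linearMap R T)
    (fun r hr => (hq r).2 hr)
  have hψ : Function.Injective ψ := by
    rw [← LinearMap.ker_eq_bot]
    refine Submodule.ker_liftQ_eq_bot _ _ _ fun r hr => (hq r).1 hr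
  let ms : T →ₗ[R] T := LinearMap.lsmul R T s
  have hms : ∀ t, ms t ∈ LinearMap.range ψ := by
    intro t
    obtain ⟨r, hr⟩ := hs t
    refine ⟨Submodule.Quotient.mk r, ?_⟩
    rw [Submodule.liftQ_apply]
    change algebraMap R T r = s • t
    rw [← hr, Algebra.smul_def]
  let μ : T →ₗ[R] (R ⧸ q) := (LinearEquiv.ofInjective ψ hψ).symm.toLinearMap ∘ₗ
    (ms.codRestrict (LinearMap.range ψ) hms)
  have hμ1 : μ 1 = Submodule.Quotient.mk s := by
    apply hψ
    have : ψ (μ 1) = ms 1 := by
      have h := (LinearEquiv.ofInjective ψ hψ).apply_symm_apply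
        ((ms.codRestrict (LinearMap.range ψ) hms) 1)
      exact congrArg Subtype.val h
    rw [this, Submodule.liftQ_apply]
    change s • (1 : T) = algebraMap R T s
    rw [Algebra.smul_def, mul_one]
  let ν : (R ⧸ q) →ₗ[R] (N →ₗ[R] N) := Submodule.liftQ q (LinearMap.lsmul R N)
    (fun r hr => by
      rw [LinearMap.mem_ker]
      ext x
      exact hN r hr x)
  let θ : T ⊗[R] N →ₗ[R] N := TensorProduct.lift (ν ∘ₗ μ)
  have hθ : ∀ x : N, θ ((1 : T) ⊗ₜ[R] x) = s • x := by
    intro x
    change (ν (μ 1)) x = s • x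
    rw [hμ1]
    rfl
  refine ⟨T ⊗[R] N, inferInstance, iB, inferInstance, i1, inferInstance, inferInstance, i2, φ,
    inferInstance, ?_, ?_⟩
  · intro x hx
    rw [← hθ x]
    change θ (φ x) = 0
    rw [hx, map_zero]
  · intro y
    induction y using TensorProduct.induction_on with
    | zero => exact ⟨0, by rw [map_zero, smul_zero]⟩
    | tmul t x =>
      obtain ⟨r, hr⟩ := hs t
      refine ⟨r • x, ?_⟩
      change (1 : T) ⊗ₜ[R] (r • x) = s • (t ⊗ₜ[R] x)
      rw [TensorProduct.tmul_smul, TensorProduct.smul_tmul', TensorProduct.smul_tmul',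
        Algebra.smul_def, Algebra.smul_def, mul_one, hr]
    | add y z hy hz =>
      obtain ⟨x, hx⟩ := hy
      obtain ⟨x', hx'⟩ := hz
      exact ⟨x + x', by rw [map_add, hx, hx', smul_add]⟩

/-- properties of the normalization of a one dimensional local domain -/
private theorem normalization {R : Type u} [CommRing R] [IsNoetherianRing R]
    (hd : ringKrullDim R ≤ 3) (q : Ideal R) [q.IsPrime] (hq : q.height = 2)
    (hfin : Module.Finite (R ⧸ q) (integralClosure (R ⧸ q) (FractionRing (R ⧸ q)))) :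
    ∃ (T : Type u) (_ : CommRing T) (_ : Algebra R T), IsDedekindDomain T ∧ Module.Finite R T ∧
      (∀ r : R, algebraMap R T r = 0 ↔ r ∈ q) ∧
      ∃ s : R, s ∉ q ∧ ∀ t : T, ∃ r : R, algebraMap R T s * t = algebraMap R T r := by
  have hqm : IsDomain (R ⧸ q) := inferInstance
  have hdim : Ring.DimensionLEOne (R ⧸ q) := by
    refine ⟨fun {p} hp hpp => ?_⟩
    have h1 : q < p.comap (Ideal.Quotient.mk q) := by
      refine lt_of_le_of_ne ?_ ?_
      · intro x hx
        rw [Ideal.mem_comap, Ideal.Quotient.eq_zero_iff_mem.2 hx]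
        exact p.zero_mem
      · intro h
        apply hp
        rw [eq_bot_iff]
        intro y hy
        obtain ⟨x, rfl⟩ := Ideal.Quotient.mk_surjective y
        have : x ∈ q := by rw [h]; exact hy
        rw [Ideal.Quotient.eq_zero_iff_mem.2 this]
        exact Ideal.zero_mem _
    have h3 : (p.comap (Ideal.Quotient.mk q)).IsMaximal := (max_of_lt hd q hq _ h1).1
    have h4 := Ideal.IsMaximal.map_of_surjective_of_ker_le
      (f := Ideal.Quotient.mk q) Ideal.Quotient.mk_surjective (m := p.comap (Ideal.Quotient.mk q))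
      (by rw [Ideal.mk_ker]; exact h1.le)
    rwa [Ideal.map_comap_of_surjective _ Ideal.Quotient.mk_surjective] at h4
  have hinj : Function.Injective (algebraMap (R ⧸ q) (integralClosure (R ⧸ q)
      (FractionRing (R ⧸ q)))) := by
    intro x y hxy
    exact IsFractionRing.injective (R ⧸ q) (FractionRing (R ⧸ q)) (congrArg Subtype.val hxy)
  have hmap : ∀ r : R, algebraMap R (integralClosure (R ⧸ q) (FractionRing (R ⧸ q))) r =
      algebraMap (R ⧸ q) _ (Ideal.Quotient.mk q r) := fun r => rfl
  refine ⟨integralClosure (R ⧸ q) (FractionRing (R ⧸ q)), inferInstance, inferInstance, ?_, ?_,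
    ?_, ?_⟩
  · have : IsNoetherianRing (integralClosure (R ⧸ q) (FractionRing (R ⧸ q))) :=
      IsNoetherianRing.of_finite (R ⧸ q) _
    have : Ring.DimensionLEOne (integralClosure (R ⧸ q) (FractionRing (R ⧸ q))) :=
      inferInstance
    have : IsIntegrallyClosed (integralClosure (R ⧸ q) (FractionRing (R ⧸ q))) :=
      integralClosure.isIntegrallyClosedOfFiniteExtension (FractionRing (R ⧸ q))
    exact (isDedekindDomain_iff _ (FractionRing (integralClosure (R ⧸ q)
      (FractionRing (R ⧸ q))))).2 ⟨inferInstance, inferInstance, inferInstance,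
        fun {_} => (isIntegrallyClosed_iff _).mp inferInstance⟩
  · exact Module.Finite.trans (R ⧸ q) _
  · intro r
    rw [hmap, map_eq_zero_iff _ hinj, Ideal.Quotient.eq_zero_iff_mem]
  · obtain ⟨n, g, hg⟩ := Module.Finite.exists_fin (R := R ⧸ q)
      (M := integralClosure (R ⧸ q) (FractionRing (R ⧸ q)))
    obtain ⟨⟨b, hb0⟩, hb⟩ := IsLocalization.exist_integer_multiples_of_finite
      (nonZeroDivisors (R ⧸ q)) (S := FractionRing (R ⧸ q)) (fun i => (g i : FractionRing (R ⧸ q)))
    obtain ⟨s, rfl⟩ := Ideal.Quotient.mk_surjective b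
    refine ⟨s, ?_, ?_⟩
    · intro hs
      rw [Ideal.Quotient.eq_zero_iff_mem.2 hs] at hb0
      exact (nonZeroDivisors.ne_zero hb0) rfl
    · intro t
      have ht : t ∈ Submodule.span (R ⧸ q) (Set.range g) := by rw [hg]; trivial
      have key : ∃ a : R ⧸ q, algebraMap (R ⧸ q) (integralClosure (R ⧸ q)
          (FractionRing (R ⧸ q))) (Ideal.Quotient.mk q s) * t = algebraMap (R ⧸ q) _ a := by
        induction ht using Submodule.span_induction with
        | mem x hx =>
          obtain ⟨i, rfl⟩ := hx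
          obtain ⟨a, ha⟩ := hb i
          refine ⟨a, Subtype.ext ?_⟩
          rw [Algebra.smul_def] at ha
          exact ha.symm
        | zero => exact ⟨0, by rw [mul_zero, map_zero]⟩
        | add x y _ _ hx hy =>
          obtain ⟨a, ha⟩ := hx
          obtain ⟨b, hb⟩ := hy
          exact ⟨a + b, by rw [mul_add, ha, hb, map_add]⟩
        | smul c x _ hx =>
          obtain ⟨a, ha⟩ := hx
          exact ⟨c * a, by rw [mul_smul_comm, ha, map_mul, Algebra.smul_def]⟩
      obtain ⟨a, ha⟩ := key
      obtain ⟨r, rfl⟩ := Ideal.Quotient.mk_surjective a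
      exact ⟨r, by rw [hmap, hmap, ha]⟩

end gen

section
variable {R : Type u} [CommRing R] [SemiReg R]
  {B : Type u} [Ring B] [Algebra R B] [IsAzumaya R B] {G : Type u} [CommGroup G]

/-- `delta_surface` for a module with commuting actions of `C` and `B` -/
private theorem delta_comm (Δ : DeltaFn R B G) (C : Type u) [CommRing C] [IsDomain C]
    [Algebra R C] [Module.Finite R C] [Finite (MaximalSpectrum C)]
    (hreg : ∀ (P : Ideal C) [P.IsMaximal], IsRegularLocalRing (Localization.AtPrime P))
    (hC : ∃ r : R, r ≠ 0 ∧ algebraMap R C r = 0)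
    (N : Type u) [AddCommGroup N] [Module B N] [Module C N] [Module R N] [IsScalarTower R B N]
    [IsScalarTower R C N] [SMulCommClass C B N] [Module.Finite C N]
    (hN : ∃ c : C, c ≠ 0 ∧ ∀ x : N, c • x = 0) : Δ.δ N = 1 := by
  let iCB : Module (C ⊗[R] B) N := TensorProduct.Algebra.module
  have hCB : ∀ (c : C) (b : B) (y : N), (c ⊗ₜ[R] b) • y = c • b • y := fun _ _ _ => rfl
  have j3 : IsScalarTower C (C ⊗[R] B) N := by
    refine ⟨fun c z y => ?_⟩
    induction z using TensorProduct.induction_on with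
    | zero => rw [smul_zero, zero_smul, smul_zero]
    | tmul c' b =>
      rw [TensorProduct.smul_tmul', hCB, hCB, smul_eq_mul, mul_smul]
    | add z w hz hw => rw [smul_add, add_smul, add_smul, smul_add, hz, hw]
  have : Module.Free R B := free_of_azumaya R B
  exact delta_surface Δ C (fun P _ => hreg P) hC N (fun b y => by rw [hCB, one_smul]) hN

private theorem exists_cut (m : Ideal R) [hmm : m.IsMaximal] (hm : 2 ≤ m.height) :
    ∃ x ∈ m, x ∉ m ^ 2 ∧ ∀ m' : Ideal R, m'.IsMaximal → x ∈ m' → m' = m := by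
  classical
  have hm0 : m ≠ ⊥ := by
    rintro rfl
    rw [Ideal.height_bot] at hm
    exact absurd hm (by decide)
  let I : MaximalSpectrum R → Ideal R := fun i => if i.asIdeal = m then m ^ 2 else i.asIdeal
  have hI : Pairwise fun i j => IsCoprime (I i) (I j) := by
    intro i j hij
    have h1 : i.asIdeal ≠ j.asIdeal := fun h => hij (MaximalSpectrum.ext h)
    have h2 : IsCoprime i.asIdeal j.asIdeal := by
      rw [Ideal.isCoprime_iff_sup_eq]
      exact i.isMaximal.coprime_of_ne j.isMaximal h1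
    change IsCoprime (if i.asIdeal = m then m ^ 2 else i.asIdeal)
      (if j.asIdeal = m then m ^ 2 else j.asIdeal)
    split_ifs with h3 h4 h4
    · exact absurd (h3.trans h4.symm) h1
    · rw [← h3]
      exact h2.pow_left
    · rw [← h4]
      exact h2.pow_right
    · exact h2
  obtain ⟨x, hx, hxI⟩ := avoid I hI m (by
    intro i hle
    change m ≤ (if i.asIdeal = m then m ^ 2 else i.asIdeal) at hle
    split_ifs at hle with h
    · have h1 : IsIdempotentElem m := by
        rw [IsIdempotentElem, ← sq]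
        exact le_antisymm (Ideal.pow_le_self two_ne_zero) hle
      rcases (Ideal.isIdempotentElem_iff_eq_bot_or_top m m.fg_of_isNoetherianRing).1 h1 with
        h2 | h2
      · exact hm0 h2
      · exact hmm.ne_top h2
    · exact h (hmm.eq_of_le i.isMaximal.ne_top hle).symm)
  refine ⟨x, hx, ?_, fun m' hm' hx' => ?_⟩
  · have h := hxI ⟨m, hmm⟩
    change x ∉ (if m = m then m ^ 2 else m) at h
    rwa [if_pos rfl] at h
  · by_contra hne
    have h := hxI ⟨m', hm'⟩
    change x ∉ (if m' = m then m ^ 2 else m') at h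
    rw [if_neg hne] at h
    exact h hx'

theorem delta_max (Δ : DeltaFn R B G) (m : Ideal R) [m.IsMaximal] (hm : 2 ≤ m.height)
    (N : Type u) [AddCommGroup N] [Module B N] [Module.Finite B N]
    (hN : Killed R B m N) : Δ.δ N = 1 := by
  obtain ⟨x, hx, hx2, hxm⟩ := exists_cut m hm
  have hregm : IsRegularLocalRing (Localization.AtPrime m) := SemiReg.regular m
  have hdim : ringKrullDim (Localization.AtPrime m) = (m.height : WithBot ℕ∞) :=
    IsLocalization.AtPrime.ringKrullDim_eq_height m _
  have hreg := IsRegularLocalRing.spanFinrank_maximalIdeal (R := Localization.AtPrime m)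
  obtain ⟨d, hd1⟩ : ∃ d, ringKrullDim (Localization.AtPrime m) = (d + 1 + 1 : ℕ) := by
    have h : (2 : ℕ∞) ≤ ((maximalIdeal (Localization.AtPrime m)).spanFinrank : ℕ∞) := by
      rw [← hreg] at hdim
      have h3 : ((maximalIdeal (Localization.AtPrime m)).spanFinrank : ℕ∞) = m.height :=
        WithBot.coe_injective hdim
      rw [h3]
      exact hm
    have h2 : 2 ≤ (maximalIdeal (Localization.AtPrime m)).spanFinrank := by exact_mod_cast h
    refine ⟨(maximalIdeal (Localization.AtPrime m)).spanFinrank - 2, ?_⟩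
    rw [← hreg]
    congr 1
    omega
  have hx0 : x ≠ 0 := by
    rintro rfl
    exact hx2 (zero_mem _)
  have hmk : Function.Surjective (Ideal.Quotient.mk (Ideal.span {x})) :=
    Ideal.Quotient.mk_surjective
  have hcomap : ∀ (P : Ideal (R ⧸ Ideal.span {x})) [P.IsMaximal],
      P.comap (Ideal.Quotient.mk (Ideal.span {x})) = m := by
    intro P hP
    refine hxm _ (Ideal.comap_isMaximal_of_surjective _ hmk) ?_
    rw [Ideal.mem_comap, Ideal.Quotient.eq_zero_iff_mem.2 (Ideal.mem_span_singleton_self x)]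
    exact P.zero_mem
  have hne : Ideal.span {x} ≠ ⊤ := by
    intro h
    exact (Ideal.IsMaximal.ne_top ‹m.IsMaximal›) (top_le_iff.1 (h ▸
      (Ideal.span_singleton_le_iff_mem _).2 hx))
  have hnt : Nontrivial (R ⧸ Ideal.span {x}) := Ideal.Quotient.nontrivial_iff.2 hne
  have hloc : IsLocalRing (R ⧸ Ideal.span {x}) := by
    obtain ⟨P, hP⟩ := Ideal.exists_maximal (R ⧸ Ideal.span {x})
    refine IsLocalRing.of_unique_max_ideal ⟨P, hP, fun Q hQ => ?_⟩
    have h1 := hcomap P
    have h2 := hcomap Q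
    exact Ideal.comap_injective_of_surjective _ hmk (h2.trans h1.symm)
  have hcut : ∀ (P : Ideal (R ⧸ Ideal.span {x})) [P.IsMaximal],
      IsRegularLocalRing (Localization.AtPrime P) ∧
        ringKrullDim (Localization.AtPrime P) = (d + 1 : ℕ) := by
    intro P hP
    have hPm := hcomap P
    subst hPm
    have := hregm
    exact cut_regular x P hx2 (d + 1) hd1
  have hreg1 := hcut (maximalIdeal (R ⧸ Ideal.span {x}))
  let e : (R ⧸ Ideal.span {x}) ≃ₐ[R ⧸ Ideal.span {x}]
      (Localization.AtPrime (maximalIdeal (R ⧸ Ideal.span {x}))) :=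
    IsLocalization.atUnits (R ⧸ Ideal.span {x})
      (maximalIdeal (R ⧸ Ideal.span {x})).primeCompl (fun x ↦ by simpa using! fun a ↦ a)
  have i2 : IsDomain (R ⧸ Ideal.span {x}) := by
    have := hreg1.1
    have : IsDomain (Localization.AtPrime (maximalIdeal (R ⧸ Ideal.span {x}))) :=
      PurNrd.isDomain_of_regular _
    exact e.toRingEquiv.toMulEquiv.isDomain _
  let iR : Module R N := Module.compHom N (algebraMap R B)
  have hsm : ∀ (r : R) (y : N), r • y = algebraMap R B r • y := fun _ _ => rfl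
  have j1 : IsScalarTower R B N := by
    refine ⟨fun r b y => ?_⟩
    rw [hsm, Algebra.smul_def, mul_smul]
  have j2 : Module.Finite R N := Module.Finite.trans B N
  have htor : Module.IsTorsionBySet R N (Ideal.span {x} : Ideal R) := by
    intro y r
    refine hN r ?_ y
    exact (Ideal.span_singleton_le_iff_mem _).2 hx r.2
  let iC : Module (R ⧸ Ideal.span {x}) N := htor.module
  have hC : ∀ (r : R) (y : N), Ideal.Quotient.mk (Ideal.span {x}) r • y = r • y :=
    fun _ _ => rfl
  have j3 : IsScalarTower R (R ⧸ Ideal.span {x}) N := htor.isScalarTower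
  have j4 : SMulCommClass (R ⧸ Ideal.span {x}) B N := by
    refine ⟨fun c b y => ?_⟩
    obtain ⟨r, rfl⟩ := Ideal.Quotient.mk_surjective c
    rw [hC, hC, hsm, hsm, ← mul_smul, ← mul_smul, Algebra.commutes]
  have j6 : Module.Finite (R ⧸ Ideal.span {x}) N :=
    Module.Finite.of_restrictScalars_finite R _ N
  have j7 : Finite (MaximalSpectrum (R ⧸ Ideal.span {x})) := by
    refine @Finite.of_subsingleton _ ⟨fun P Q => ?_⟩
    ext1
    rw [IsLocalRing.eq_maximalIdeal P.isMaximal, IsLocalRing.eq_maximalIdeal Q.isMaximal]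
  refine delta_comm Δ (R ⧸ Ideal.span {x}) (fun P hP => (hcut P).1)
    ⟨x, hx0, Ideal.Quotient.eq_zero_iff_mem.2 (Ideal.mem_span_singleton_self x)⟩ N ?_
  obtain ⟨c, hc, hc0⟩ : ∃ c ∈ maximalIdeal (R ⧸ Ideal.span {x}), c ≠ 0 := by
    by_contra! h
    have h1 : maximalIdeal (R ⧸ Ideal.span {x}) = ⊥ := by
      rw [eq_bot_iff]
      exact fun y hy => h y hy
    have h2 := ringKrullDim_eq_zero_of_isField (IsLocalRing.isField_iff_maximalIdeal_eq.2 h1)
    have h3 := ringKrullDim_eq_of_ringEquiv e.toRingEquiv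
    rw [h2, hreg1.2] at h3
    have h4 : (0 : ℕ) = d + 1 := by exact_mod_cast h3
    omega
  refine ⟨c, hc0, fun y => ?_⟩
  obtain ⟨r, rfl⟩ := Ideal.Quotient.mk_surjective c
  rw [hC]
  refine hN r ?_ y
  rw [← hcomap (maximalIdeal (R ⧸ Ideal.span {x}))]
  exact hc

private theorem delta_small (Δ : DeltaFn R B G) (hd : ringKrullDim R ≤ 3) (q : Ideal R)
    [q.IsPrime] (hq : q.height = 2) (s : R) (hs : s ∉ q)
    (N : Type u) [AddCommGroup N] [Module B N] [Module.Finite B N]
    (hN : Killed R B q N) (hs' : ∀ x : N, algebraMap R B s • x = 0) : Δ.δ N = 1 := by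
  refine devissage Δ (q ⊔ Ideal.span {s}) ?_ ?_ N ?_
  · intro h
    apply hs
    have : s ∈ q ⊔ Ideal.span {s} := Ideal.mem_sup_right (Ideal.mem_span_singleton_self s)
    rw [h] at this
    rw [(Ideal.mem_bot).1 this]
    exact q.zero_mem
  · intro q' hq' hle P _ _ _ hP
    have h1 : q < q' := by
      refine lt_of_le_of_ne (le_sup_left.trans hle) ?_
      rintro rfl
      exact hs (hle (Ideal.mem_sup_right (Ideal.mem_span_singleton_self s)))
    obtain ⟨h2, h3⟩ := max_of_lt hd q hq q' h1
    refine delta_max Δ q' ?_ P hP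
    rw [h3]
    decide
  · intro r hr x
    obtain ⟨y, hy, z, hz, rfl⟩ := Submodule.mem_sup.1 hr
    obtain ⟨c, rfl⟩ := Ideal.mem_span_singleton'.1 hz
    rw [map_add, add_smul, hN y hy, map_mul, mul_smul, hs', smul_zero, add_zero]

/-- modules killed by a prime of height two, in dimension three -/
theorem delta_two (Δ : DeltaFn R B G) (hd : ringKrullDim R = 3) (q : Ideal R) [q.IsPrime]
    (hqm : ¬ q.IsMaximal) (hq : q.height = 2)
    (hfin : Module.Finite (R ⧸ q) (integralClosure (R ⧸ q) (FractionRing (R ⧸ q))))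
    (N : Type u) [AddCommGroup N] [Module B N] [Module.Finite B N]
    (hN : Killed R B q N) : Δ.δ N = 1 := by
  obtain ⟨T, _, _, hTD, hTf, hTq, s, hsq, hs⟩ := normalization hd.le q hq hfin
  obtain ⟨C, _, _, f, hC1, hC2, hC3, hC4, hC5, hC6, hC7⟩ := exists_surface hd (T := T) (by
    intro m hm hle
    have hmp : m.IsPrime := hm.isPrime
    refine (max_of_lt hd.le q hq m (lt_of_le_of_ne (fun r hr => hle ((hTq r).2 hr)) ?_)).2
    rintro rfl
    exact hqm hm)
  let iR : Module R N := Module.compHom N (algebraMap R B)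
  have hsm : ∀ (r : R) (x : N), r • x = algebraMap R B r • x := fun _ _ => rfl
  have i1 : IsScalarTower R B N := by
    refine ⟨fun r b x => ?_⟩
    rw [hsm, Algebra.smul_def, mul_smul]
  have i2 : Module.Finite R N := Module.Finite.trans B N
  obtain ⟨M, _, _, _, i3, _, i4, i5, φ, i6, hk, hc⟩ := exists_tensor (B := B) T N q hTq
    (fun r hr x => hN r hr x) s hs
  have i7 : Module.Finite B M := Module.Finite.of_restrictScalars_finite R B M
  have hMB : ∀ (r : R) (y : M), algebraMap R B r • y = r • y := fun r y => algebraMap_smul B r y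
  have hMq : ∀ r ∈ q, ∀ y : M, r • y = 0 := by
    intro r hr y
    rw [← algebraMap_smul T r y, (hTq r).2 hr, zero_smul]
  obtain ⟨r0, hr0, hr0'⟩ : ∃ r0 ∈ q, r0 ≠ 0 := by
    by_contra! h
    have h1 : q = ⊥ := by
      rw [eq_bot_iff]
      exact fun x hx => h x hx
    rw [h1, Ideal.height_bot] at hq
    exact absurd hq (by decide)
  rw [delta_map Δ N M ⟨r0, hr0', fun x => hN r0 hr0 x⟩
    ⟨r0, hr0', fun y => by rw [hMB, hMq r0 hr0]⟩ φ ?_ ?_]
  · let iC : Module C M := Module.compHom M (f : C →+* T)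
    have hC : ∀ (c : C) (y : M), c • y = f c • y := fun _ _ => rfl
    have j1 : IsScalarTower R C M := ⟨fun r c y => by rw [hC, hC, map_smul, smul_assoc]⟩
    have j2 : SMulCommClass C B M := ⟨fun c b y => smul_comm (f c) b y⟩
    have j4 : Module.Finite C M := Module.Finite.of_restrictScalars_finite R C M
    refine delta_comm Δ C (fun P _ => hC4 P) hC7 M ?_
    rw [injective_iff_map_eq_zero] at hC6
    push Not at hC6
    obtain ⟨c, hc1, hc2⟩ := hC6
    exact ⟨c, hc2, fun y => by rw [hC, hc1, zero_smul]⟩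
  · have j1 : IsNoetherianRing B := IsNoetherianRing.of_finite R B
    refine delta_small Δ hd.le q hq s hsq (LinearMap.ker φ) ?_ ?_
    · intro r hr x
      exact Subtype.ext (hN r hr x)
    · intro x
      exact Subtype.ext (hk x x.2)
  · refine delta_small Δ hd.le q hq s hsq (M ⧸ LinearMap.range φ) ?_ ?_
    · intro r hr x
      obtain ⟨y, rfl⟩ := Submodule.mkQ_surjective _ x
      rw [← map_smul, hMB, hMq r hr, map_zero]
    · intro x
      obtain ⟨y, rfl⟩ := Submodule.mkQ_surjective _ x
      obtain ⟨z, hz⟩ := hc y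
      rw [← map_smul, hMB, ← hz]
      exact (Submodule.Quotient.mk_eq_zero _).2 ⟨z, rfl⟩

theorem delta_codim_two (Δ : DeltaFn R B G) (hd : ringKrullDim R ≤ 3)
    (hfin : ∀ q : Ideal R, q.IsPrime → q.height = 2 →
      Module.Finite (R ⧸ q) (integralClosure (R ⧸ q) (FractionRing (R ⧸ q))))
    (a : Ideal R) (ha : ∀ q : Ideal R, q.IsPrime → a ≤ q → 2 ≤ q.height)
    (N : Type u) [AddCommGroup N] [Module B N] [Module.Finite B N]
    (hN : Killed R B a N) : Δ.δ N = 1 := by
  refine devissage Δ a ?_ ?_ N hN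
  · rintro rfl
    have h := ha ⊥ Ideal.isPrime_bot le_rfl
    rw [Ideal.height_bot] at h
    exact absurd h (by decide)
  · intro q hq hle P _ _ _ hP
    have h2 := ha q hq hle
    by_cases hqm : q.IsMaximal
    · exact delta_max Δ q h2 P hP
    · obtain ⟨m, hm, hle'⟩ := Ideal.exists_le_maximal q hq.ne_top
      have hmp : m.IsPrime := hm.isPrime
      have hlt : q < m := lt_of_le_of_ne hle' fun e => hqm (e ▸ hm)
      have h3 := Ideal.height_strict_mono_of_isPrime_of_isPrime hlt
      have hmd : (m.height : WithBot ℕ∞) ≤ ringKrullDim R :=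
        Ideal.height_le_ringKrullDim_of_ne_top hm.ne_top
      have h4 : m.height ≤ 3 := WithBot.coe_le_coe.1 (hmd.trans hd)
      have h5 : q.height + 1 ≤ m.height := Order.add_one_le_of_lt h3
      have h6 : (2 : ℕ∞) + 1 = 3 := by norm_num
      have h7 : q.height = 2 := by
        refine le_antisymm ?_ h2
        have h8 : q.height + 1 ≤ (2 : ℕ∞) + 1 := by rw [h6]; exact h5.trans h4
        exact (ENat.add_le_add_iff_right (by decide)).1 h8
      have h9 : m.height = 3 := by
        refine le_antisymm h4 ?_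
        rw [← h6, ← h7]
        exact h5
      have h10 : ringKrullDim R = 3 := by
        refine le_antisymm hd ?_
        rw [h9] at hmd
        exact hmd
      exact delta_two Δ h10 q hqm h7 (hfin q hq h7) P hP

end

end Pool.Agent.SLtwo
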