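import Pool.Agent.SLtwo.FreeC
import Pool.Agent.SLone.Det

/-! A4: stable range one over a semilocal ring. -/

namespace Pool.Agent.SLtwo

open Matrix Pool.Agent.SLone

universe u

section

private theorem exists_compl_le {S : Type u} [Ring S] [IsSimpleRing S] [IsArtinianRing S]
    (A J : Submodule S S) (h : A ⊔ J = ⊤) :
    ∃ X : Submodule S S, X ≤ J ∧ IsCompl A X := by
  have : IsSemisimpleRing S := inferInstance
  obtain ⟨C, hC⟩ := exists_isCompl (A ⊓ J)
  refine ⟨C ⊓ J, inf_le_right, ?_, ?_⟩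
  · rw [disjoint_iff]
    have h1 := hC.inf_eq_bot
    calc A ⊓ (C ⊓ J) = (A ⊓ J) ⊓ C := by
          rw [inf_comm C J, inf_assoc]
      _ = ⊥ := h1
  · rw [codisjoint_iff, eq_top_iff, ← h]
    refine sup_le le_sup_left ?_
    have h2 : J ≤ (A ⊓ J) ⊔ (C ⊓ J) := by
      have := sup_inf_assoc_of_le C (inf_le_right : A ⊓ J ≤ J)
      rw [← this, hC.sup_eq_top, top_inf_eq]
    exact h2.trans (sup_le (inf_le_left.trans le_sup_left) le_sup_right)

private theorem stable_simple (F : Type u) {S : Type u} [Field F] [Ring S] [Algebra F S]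
    [IsSimpleRing S] [FiniteDimensional F S] (b : S) (J : Submodule S S) (h : ∃ s : S, ∃ j ∈ J, s * b + j = 1) :
    ∃ x ∈ J, IsUnit (b + x) := by
  classical
  have : IsArtinianRing S := IsArtinianRing.of_finite F S
  have : IsSemisimpleRing S := inferInstance
  set ρ : S →ₗ[S] S := LinearMap.toSpanSingleton S S b with hρ
  have hρa : ∀ y, ρ y = y * b := fun y => by simp [hρ]
  obtain ⟨s, j, hj, hs⟩ := h
  have htop : LinearMap.range ρ ⊔ J = ⊤ := by
    rw [eq_top_iff]
    intro y _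
    have e : y = y * (s * b) + y * j := by rw [← mul_add, hs, mul_one]
    rw [e]
    refine Submodule.add_mem_sup ⟨y * s, by rw [hρa, mul_assoc]⟩ (J.smul_mem y hj)
  obtain ⟨X, hXJ, hX⟩ := exists_compl_le (LinearMap.range ρ) J htop
  obtain ⟨Y, hY⟩ := exists_isCompl (LinearMap.ker ρ)
  have hdim : Module.finrank F (LinearMap.ker ρ) = Module.finrank F X := by
    have h1 := LinearMap.finrank_range_add_finrank_ker (ρ.restrictScalars F)
    have h2 := Submodule.finrank_add_eq_of_isCompl (K := F)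
      (U := (LinearMap.range ρ).restrictScalars F) (W := X.restrictScalars F) (by
        refine ⟨?_, ?_⟩
        · rw [disjoint_iff, ← Submodule.restrictScalars_inf, hX.inf_eq_bot]
          exact Submodule.restrictScalars_bot F S S
        · rw [codisjoint_iff, ← Submodule.restrictScalars_sup, hX.sup_eq_top]
          exact Submodule.restrictScalars_top F S S)
    have e1 : Module.finrank F (LinearMap.range (ρ.restrictScalars F)) =
        Module.finrank F ((LinearMap.range ρ).restrictScalars F) := rfl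
    have e2 : Module.finrank F (LinearMap.ker (ρ.restrictScalars F)) =
        Module.finrank F (LinearMap.ker ρ) := rfl
    have e3 : Module.finrank F (X.restrictScalars F) = Module.finrank F X := rfl
    omega
  obtain ⟨e⟩ := PurNrd.equiv_of_finrank (F := F) (S := S) hdim
  set g : S →ₗ[S] S := X.subtype ∘ₗ (e : LinearMap.ker ρ →ₗ[S] X) ∘ₗ
    Submodule.projectionOnto (LinearMap.ker ρ) Y hY with hg
  have hgX : ∀ y, g y ∈ X := fun y => (e _).2
  have hg1 : ∀ y, g y = y * g 1 := fun y => by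
    rw [← smul_eq_mul, ← map_smul, smul_eq_mul, mul_one]
  have hgi : ∀ y ∈ LinearMap.ker ρ, g y = 0 → y = 0 := by
    intro y hy h0
    have h1 : Submodule.projectionOnto (LinearMap.ker ρ) Y hY y = ⟨y, hy⟩ :=
      Submodule.projectionOnto_apply_left hY ⟨y, hy⟩
    have h2 : (e ⟨y, hy⟩ : S) = 0 := by
      rw [← h1]; exact h0
    have h3 : e ⟨y, hy⟩ = 0 := Subtype.ext h2
    have h4 : (⟨y, hy⟩ : LinearMap.ker ρ) = 0 := by simpa using h3
    exact congrArg Subtype.val h4
  refine ⟨g 1, hXJ (hgX 1), ?_⟩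
  set v := b + g 1 with hv
  have hinj : ∀ y, y * v = 0 → y = 0 := by
    intro y hy
    rw [hv, mul_add, ← hg1, ← hρa] at hy
    have h1 : ρ y ∈ LinearMap.range ρ ⊓ X := by
      refine ⟨⟨y, rfl⟩, ?_⟩
      rw [eq_neg_of_add_eq_zero_left hy]
      exact X.neg_mem (hgX y)
    rw [hX.inf_eq_bot, Submodule.mem_bot] at h1
    rw [h1, zero_add] at hy
    exact hgi y h1 hy
  set f : S →ₗ[F] S := LinearMap.mulRight F v with hf
  have hfi : Function.Injective f := by
    rw [injective_iff_map_eq_zero]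
    intro y hy
    exact hinj y (by simpa [hf] using hy)
  obtain ⟨y, hy⟩ := (LinearMap.injective_iff_surjective.1 hfi) 1
  have hy1 : y * v = 1 := by simpa [hf] using hy
  have hy2 : v * y = 1 := by
    have : (v * y - 1) * v = 0 := by rw [sub_mul, mul_assoc, hy1, mul_one, one_mul, sub_self]
    exact sub_eq_zero.1 (hinj _ this)
  exact ⟨⟨v, y, hy2, hy1⟩, rfl⟩

end

section
variable {R : Type u} [CommRing R]
  {B : Type u} [Ring B] [Algebra R B] [IsAzumaya R B]

open TensorProduct in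
private theorem isUnit_of_forall (b : B)
    (h : ∀ (P : Ideal R) [P.IsMaximal], IsUnit ((1 : R ⧸ P) ⊗ₜ[R] b)) : IsUnit b := by
  set f : B →ₗ[R] B := LinearMap.mulRight R b with hf
  set N : Submodule R B := LinearMap.range f with hN
  have hr : N = ⊤ := by
    by_contra hne
    have hne' : Module.annihilator R (B ⧸ N) ≠ ⊤ := by
      intro h1
      apply hne
      rw [eq_top_iff]
      intro y _
      have h2 : (1 : R) ∈ Module.annihilator R (B ⧸ N) := by rw [h1]; trivial
      have h3 := (Module.mem_annihilator.1 h2) (N.mkQ y)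
      rw [one_smul] at h3
      simpa using h3
    obtain ⟨P, hP, hle⟩ := Ideal.exists_le_maximal _ hne'
    have hPtop : (⊤ : Submodule R (B ⧸ N)) ≤ P • (⊤ : Submodule R (B ⧸ N)) := by
      intro y' _
      obtain ⟨y, rfl⟩ := N.mkQ_surjective y'
      obtain ⟨w, hw⟩ := h P
      have hs : Function.Surjective (TensorProduct.mk R (R ⧸ P) B 1) :=
        TensorProduct.mk_surjective R B (R ⧸ P) Ideal.Quotient.mk_surjective
      obtain ⟨c, hc⟩ := hs (((1 : R ⧸ P) ⊗ₜ[R] y) * ((w⁻¹ : ((R ⧸ P) ⊗[R] B)ˣ) : (R ⧸ P) ⊗[R] B))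
      have h1 : (1 : R ⧸ P) ⊗ₜ[R] (y - c * b) = 0 := by
        have h2 : (1 : R ⧸ P) ⊗ₜ[R] (c * b) = (TensorProduct.mk R (R ⧸ P) B 1 c) *
            ((1 : R ⧸ P) ⊗ₜ[R] b) := by
          simp
        rw [TensorProduct.tmul_sub, h2, hc, ← hw, mul_assoc, Units.inv_mul, mul_one, sub_self]
      have h3 : y - c * b ∈ P • (⊤ : Submodule R B) := by
        have h4 := congrArg (TensorProduct.quotTensorEquivQuotSMul B P) h1
        rw [map_zero, ← map_one (Ideal.Quotient.mk P),
          TensorProduct.quotTensorEquivQuotSMul_mk_tmul, one_smul] at h4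
        exact (Submodule.Quotient.mk_eq_zero _).1 h4
      have h5 : N.mkQ y = N.mkQ (y - c * b) := by
        rw [map_sub, eq_comm, sub_eq_self, Submodule.mkQ_apply, Submodule.Quotient.mk_eq_zero]
        exact ⟨c, by simp [hf]⟩
      rw [h5]
      have h6 := Submodule.mem_map_of_mem (f := N.mkQ) h3
      rw [Submodule.map_smul''] at h6
      exact Submodule.smul_mono le_rfl le_top h6
    obtain ⟨r, hr1, hr2⟩ := Submodule.exists_sub_one_mem_and_smul_eq_zero_of_fg_of_le_smul P
      (⊤ : Submodule R (B ⧸ N)) Module.Finite.fg_top hPtop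
    have h1 : r ∈ Module.annihilator R (B ⧸ N) :=
      Module.mem_annihilator.2 fun y => hr2 y Submodule.mem_top
    have h3 : (1 : R) ∈ P := by
      have h2 := P.sub_mem (hle h1) hr1
      rwa [sub_sub_cancel] at h2
    exact hP.ne_top ((Ideal.eq_top_iff_one P).2 h3)
  have hsurj : Function.Surjective f := LinearMap.range_eq_top.1 hr
  have hinj : Function.Injective f := OrzechProperty.injective_of_surjective_endomorphism f hsurj
  obtain ⟨y, hy⟩ := hsurj 1
  have hy1 : y * b = 1 := by simpa [hf] using hy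
  have hy2 : b * y = 1 := by
    have h1 : f (b * y) = f 1 := by
      simp [hf, mul_assoc, hy1]
    exact hinj h1
  exact ⟨⟨b, y, hy2, hy1⟩, rfl⟩

open TensorProduct in
private theorem stable_at [Module.Free R B] (F : Type u) [Field F] [Algebra R F]
    (hF : Function.Surjective (algebraMap R F)) {m : ℕ} (b : B) (β : Fin m → B)
    (h : ∃ (s : B) (t : Fin m → B), s * b + ∑ i, t i * β i = 1) :
    ∃ t : Fin m → B, IsUnit ((1 : F) ⊗ₜ[R] (b + ∑ i, t i * β i)) := by
  classical
  have hsimple : IsSimpleRing (TensorProduct R F B) := isSimpleRing_baseChange F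
  let φ : B →ₐ[R] TensorProduct R F B := Algebra.TensorProduct.includeRight
  have hs : Function.Surjective φ := TensorProduct.mk_surjective R B F hF
  obtain ⟨s, t, hst⟩ := h
  obtain ⟨x, hx, hu⟩ := stable_simple F (φ b) (Submodule.span _ (Set.range fun i => φ (β i)))
    ⟨φ s, ∑ i, φ (t i) * φ (β i), Submodule.sum_mem _ fun i _ =>
      Submodule.smul_mem _ _ (Submodule.subset_span ⟨i, rfl⟩), by
        rw [← map_one φ, ← hst, map_add, map_mul, map_sum]
        simp only [map_mul]⟩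
  rw [Submodule.mem_span_range_iff_exists_fun] at hx
  obtain ⟨c, hc⟩ := hx
  choose t' ht' using fun i => hs (c i)
  refine ⟨t', ?_⟩
  have e : (1 : F) ⊗ₜ[R] (b + ∑ i, t' i * β i) = φ b + x := by
    change φ (b + ∑ i, t' i * β i) = φ b + x
    rw [map_add, map_sum, ← hc]
    simp only [map_mul, ht', smul_eq_mul]
  rw [e]
  exact hu

end

section
variable {R : Type u} [CommRing R] [SemiReg R]
  {B : Type u} [Ring B] [Algebra R B] [IsAzumaya R B]
include R

open TensorProduct in
/-- stable range one -/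
theorem stable_range {m : ℕ} (b : B) (β : Fin m → B)
    (h : ∃ (s : B) (t : Fin m → B), s * b + ∑ i, t i * β i = 1) :
    ∃ t : Fin m → B, IsUnit (b + ∑ i, t i * β i) := by
  classical
  have hfree : Module.Free R B := free_of_azumaya R B
  have := Fintype.ofFinite (MaximalSpectrum R)
  have hloc : ∀ P : MaximalSpectrum R, ∃ t : Fin m → B,
      IsUnit ((1 : R ⧸ P.asIdeal) ⊗ₜ[R] (b + ∑ i, t i * β i)) := by
    intro P
    have := P.isMaximal
    let _ : Field (R ⧸ P.asIdeal) := Ideal.Quotient.field P.asIdeal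
    exact stable_at (R ⧸ P.asIdeal) Ideal.Quotient.mk_surjective b β h
  choose t ht using hloc
  have hcop : Pairwise fun P Q : MaximalSpectrum R => IsCoprime P.asIdeal Q.asIdeal := by
    intro P Q hPQ
    have := P.isMaximal
    have := Q.isMaximal
    exact Ideal.isCoprime_of_isMaximal fun h => hPQ (MaximalSpectrum.ext h)
  choose e he using fun P : MaximalSpectrum R =>
    Ideal.exists_forall_sub_mem_ideal hcop (fun Q => if Q = P then (1 : R) else 0)
  refine ⟨fun i => ∑ P, e P • t P i, isUnit_of_forall (R := R) _ fun P hP => ?_⟩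
  have hone : ∀ (Q : MaximalSpectrum R) (z : B), (1 : R ⧸ P) ⊗ₜ[R] (e Q • z) =
      if Q = ⟨P, hP⟩ then (1 : R ⧸ P) ⊗ₜ[R] z else 0 := by
    intro Q z
    have h1 := he Q ⟨P, hP⟩
    have h2 : Ideal.Quotient.mk P (e Q) = if (⟨P, hP⟩ : MaximalSpectrum R) = Q then 1 else 0 := by
      have h3 := Ideal.Quotient.eq.2 h1
      rw [h3]
      split_ifs <;> simp
    have h4 : (e Q) • (1 : R ⧸ P) = Ideal.Quotient.mk P (e Q) := by
      rw [Algebra.smul_def, mul_one]; rfl
    rw [TensorProduct.tmul_smul, TensorProduct.smul_tmul', h4, h2]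
    by_cases h5 : Q = ⟨P, hP⟩
    · rw [if_pos h5.symm, if_pos h5]
    · rw [if_neg (Ne.symm h5), if_neg h5, TensorProduct.zero_tmul]
  have hsum : ∀ i, (1 : R ⧸ P) ⊗ₜ[R] (∑ Q, e Q • t Q i) = (1 : R ⧸ P) ⊗ₜ[R] t ⟨P, hP⟩ i := by
    intro i
    rw [TensorProduct.tmul_sum]
    simp only [hone]
    rw [Finset.sum_ite_eq' Finset.univ, if_pos (Finset.mem_univ _)]
  have heq : (1 : R ⧸ P) ⊗ₜ[R] (b + ∑ i, (∑ Q, e Q • t Q i) * β i) =
      (1 : R ⧸ P) ⊗ₜ[R] (b + ∑ i, t ⟨P, hP⟩ i * β i) := by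
    rw [TensorProduct.tmul_add, TensorProduct.tmul_add, TensorProduct.tmul_sum,
      TensorProduct.tmul_sum]
    congr 1
    apply Finset.sum_congr rfl
    intro i _
    have h6 : ∀ u v : B, (1 : R ⧸ P) ⊗ₜ[R] (u * v) =
        ((1 : R ⧸ P) ⊗ₜ[R] u) * ((1 : R ⧸ P) ⊗ₜ[R] v) := by
      intro u v
      rw [Algebra.TensorProduct.tmul_mul_tmul, one_mul]
    rw [h6, h6, hsum]
  rw [heq]
  exact ht ⟨P, hP⟩

private theorem unit_dt_aux {L : Type u} [Field L] {n : ℕ} (σ : B →+* Matrix (Fin n) (Fin n) L)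
    (m : ℕ) : ∀ (ι : Type) [Fintype ι] [DecidableEq ι] (G : Matrix ι ι B),
      Fintype.card ι = m → IsUnit G → ∃ b : Bˣ, dt σ G = (σ (b : B)).det := by
  induction m with
  | zero =>
    intro ι _ _ G hc _
    have : IsEmpty ι := Fintype.card_eq_zero_iff.1 hc
    refine ⟨1, ?_⟩
    have hG1 : G = 1 := Subsingleton.elim _ _
    rw [hG1, dt_one, Units.val_one, map_one, Matrix.det_one]
  | succ m ih =>
    intro ι _ _ G hc hG
    let e : ι ≃ Unit ⊕ Fin m := Fintype.equivOfCardEq (by
      rw [hc, Fintype.card_sum, Fintype.card_unit, Fintype.card_fin, add_comm])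
    set G1 : Matrix (Unit ⊕ Fin m) (Unit ⊕ Fin m) B := Matrix.reindex e e G with hG1
    have hu1 : IsUnit G1 := by
      have := hG.map (Matrix.reindexAlgEquiv ℤ B e)
      exact this
    have hdt1 : dt σ G1 = dt σ G := dt_reindex σ e G
    obtain ⟨w, hw⟩ := hu1
    set H : Matrix (Unit ⊕ Fin m) (Unit ⊕ Fin m) B := w⁻¹.val with hH
    have hHG : H * G1 = 1 := by rw [← hw, hH, Units.inv_mul]
    have h00 := congrFun (congrFun hHG (Sum.inl ())) (Sum.inl ())
    rw [Matrix.mul_apply, Fintype.sum_sum_type, Matrix.one_apply_eq] at h00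
    simp only [Finset.univ_unique, Finset.sum_singleton] at h00
    obtain ⟨t, u, hu⟩ := stable_range (R := R) (G1 (Sum.inl ()) (Sum.inl ()))
      (fun i => G1 (Sum.inr i) (Sum.inl ()))
      ⟨H (Sum.inl ()) (Sum.inl ()), fun i => H (Sum.inl ()) (Sum.inr i), h00⟩
    -- the first row operation
    set T : Matrix Unit (Fin m) B := Matrix.of fun _ i => t i with hT
    set E1 : Matrix (Unit ⊕ Fin m) (Unit ⊕ Fin m) B := Matrix.fromBlocks 1 T 0 1 with hE1
    have hE1u : IsUnit E1 := by
      refine ⟨⟨E1, Matrix.fromBlocks 1 (-T) 0 1, ?_, ?_⟩, rfl⟩ <;>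
      · rw [hE1, Matrix.fromBlocks_multiply, ← Matrix.fromBlocks_one]
        congr 1 <;> simp
    have hdE1 : dt σ E1 = 1 := by rw [hE1, dt_blocks, dt_one, dt_one, one_mul]
    set G2 := E1 * G1 with hG2
    have hu2 : IsUnit G2 := hE1u.mul ⟨w, hw⟩
    set A := G2.toBlocks₁₁ with hA
    set X := G2.toBlocks₁₂ with hX
    set Y := G2.toBlocks₂₁ with hY
    set D := G2.toBlocks₂₂ with hD
    have hblk : G2 = Matrix.fromBlocks A X Y D := (Matrix.fromBlocks_toBlocks G2).symm
    have hAu : A = Matrix.of fun _ _ => (u : B) := by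
      ext i j
      rw [hA, Matrix.toBlocks₁₁, Matrix.of_apply, Matrix.of_apply, hG2, Matrix.mul_apply,
        Fintype.sum_sum_type, hu]
      simp [hE1, hT]
    set A' : Matrix Unit Unit B := Matrix.of fun _ _ => ((u⁻¹ : Bˣ) : B) with hA'
    have hAA' : A * A' = 1 := by
      ext i j
      rw [hAu, hA', Matrix.mul_apply]
      simp
    have hA'A : A' * A = 1 := by
      ext i j
      rw [hAu, hA', Matrix.mul_apply]
      simp
    set E2 : Matrix (Unit ⊕ Fin m) (Unit ⊕ Fin m) B := Matrix.fromBlocks 1 0 (-(Y * A')) 1 with hE2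
    have hE2u : IsUnit E2 := by
      refine ⟨⟨E2, Matrix.fromBlocks 1 0 (Y * A') 1, ?_, ?_⟩, rfl⟩ <;>
      · rw [hE2, Matrix.fromBlocks_multiply, ← Matrix.fromBlocks_one]
        congr 1 <;> simp
    have hdE2 : dt σ E2 = 1 := by rw [hE2, dt_blocks', dt_one, dt_one, one_mul]
    set D' := -(Y * A') * X + D with hD'
    have hG3 : E2 * G2 = Matrix.fromBlocks A X 0 D' := by
      rw [hblk, hE2, Matrix.fromBlocks_multiply]
      congr 1
      · simp
      · simp
      · rw [Matrix.neg_mul, Matrix.mul_assoc, hA'A, Matrix.mul_one, Matrix.one_mul, neg_add_cancel]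
      · rw [Matrix.one_mul]
    have hu3 : IsUnit (Matrix.fromBlocks A X 0 D') := by
      rw [← hG3]; exact hE2u.mul hu2
    have hD'u : IsUnit D' := by
      obtain ⟨v, hv⟩ := hu3
      set K : Matrix (Unit ⊕ Fin m) (Unit ⊕ Fin m) B := v⁻¹.val with hK
      have hK1 : K * Matrix.fromBlocks A X 0 D' = 1 := by rw [← hv, hK, Units.inv_mul]
      have hK2 : Matrix.fromBlocks A X 0 D' * K = 1 := by rw [← hv, hK, Units.mul_inv]
      rw [← Matrix.fromBlocks_toBlocks K, Matrix.fromBlocks_multiply, ← Matrix.fromBlocks_one,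
        Matrix.fromBlocks_inj] at hK1 hK2
      obtain ⟨-, -, h3, h4⟩ := hK1
      obtain ⟨-, -, -, h5⟩ := hK2
      rw [Matrix.mul_zero, add_zero] at h3
      have h6 : K.toBlocks₂₁ = 0 := by
        rw [← Matrix.mul_one K.toBlocks₂₁, ← hAA', ← Matrix.mul_assoc, h3, Matrix.zero_mul]
      rw [h6, Matrix.zero_mul, zero_add] at h4
      rw [Matrix.zero_mul, zero_add] at h5
      exact ⟨⟨D', K.toBlocks₂₂, h5, h4⟩, rfl⟩
    obtain ⟨b, hb⟩ := ih (Fin m) D' (Fintype.card_fin m) hD'u
    refine ⟨u * b, ?_⟩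
    have h1 : dt σ (E2 * G2) = dt σ G := by
      rw [dt_mul, hdE2, one_mul, hG2, dt_mul, hdE1, one_mul, hdt1]
    rw [← h1, hG3, dt_blocks, hb, hAu, dt_unit', Units.val_mul, map_mul, Matrix.det_mul]

theorem exists_unit_dt {L : Type u} [Field L] {n : ℕ} (σ : B →+* Matrix (Fin n) (Fin n) L)
    {ι : Type} [Fintype ι] [DecidableEq ι] (G : Matrix ι ι B) (hG : IsUnit G) :
    ∃ b : Bˣ, dt σ G = (σ (b : B)).det :=
  unit_dt_aux (R := R) σ _ ι G rfl hG

end

end Pool.Agent.SLtwo
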