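import Pool.Agent.SLone.FinalA
import Pool.Agent.SLone.Nonzero
import Pool.Agent.SLtwo.Reg
import Pool.Agent.SLtwo.Exist
import Pool.Agent.SLtwo.High
import Pool.Agent.SLtwo.CodimOne
import Pool.Agent.SLtwo.Stable

/-! Units of a semilocal regular domain which are reduced norms over the fraction field are reduced
norms of units. -/

namespace Pool.Agent.SLtwo

open Module TensorProduct Matrix Pool.Agent.PurNrd Pool.Agent.SLone

universe u

section
variable {R : Type u} [CommRing R] {B : Type u} [Ring B] [Algebra R B]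

/-- Units of `R` which are reduced norms over the fraction field are reduced norms of units of
`B`. -/
theorem unit_nrd [SemiReg R] (hd : ringKrullDim R ≤ 3)
    (hfin : ∀ q : Ideal R, q.IsPrime → q.height = 2 →
      Module.Finite (R ⧸ q) (integralClosure (R ⧸ q) (FractionRing (R ⧸ q))))
    (K : Type u) [Field K] [Algebra R K] [IsFractionRing R K] [IsAzumaya R B] (c : Rˣ)
    (b : K ⊗[R] B) (hb : IsReducedNorm K b (algebraMap R K c)) :
    ∃ b' : Bˣ, IsReducedNorm K ((1 : K) ⊗ₜ[R] (b' : B)) (algebraMap R K c) := by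
  classical
  have hdom : IsDomain R := inferInstance
  have hufd : UniqueFactorizationMonoid R := ufd R
  have hfree : Module.Free R B := free_of_azumaya R B
  obtain ⟨L, _, _, n, φ, hφ⟩ := hb
  have hRK : Function.Injective (algebraMap R K) := IsFractionRing.injective R K
  have hKL : Function.Injective (algebraMap K L) := (algebraMap K L).injective
  let σ : B →+* Matrix (Fin n) (Fin n) L :=
    (φ : (L ⊗[K] (K ⊗[R] B)) →+* Matrix (Fin n) (Fin n) L).comp
      ((Algebra.TensorProduct.includeRight : (K ⊗[R] B) →ₐ[K] L ⊗[K] (K ⊗[R] B)).toRingHom.comp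
        (Algebra.TensorProduct.includeRight : B →ₐ[R] K ⊗[R] B).toRingHom)
  have hσe : ∀ x, σ x = φ (1 ⊗ₜ (1 ⊗ₜ x)) := fun x => rfl
  have hnB : Nontrivial B := (FaithfulSMul.algebraMap_injective R B).nontrivial
  have hσ : Function.Injective σ := by
    intro x y hxy
    rw [hσe, hσe] at hxy
    have h1 := φ.injective hxy
    have h2 : ((1 : K) ⊗ₜ[R] x) = (1 : K) ⊗ₜ[R] y :=
      Algebra.TensorProduct.includeRight_injective (R := K) (A := L) (B := K ⊗[R] B) hKL h1
    exact Algebra.TensorProduct.includeRight_injective (R := R) (A := K) (B := B) hRK h2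
  have hn : n ≠ 0 := by
    rintro rfl
    obtain ⟨x, y, hxy⟩ := hnB
    exact hxy (hσ (Subsingleton.elim _ _))
  have hRs : ∀ r : R, σ (algebraMap R B r) =
      (algebraMap K L (algebraMap R K r)) • (1 : Matrix (Fin n) (Fin n) L) := by
    intro r
    · have h1 : (1 : L) ⊗ₜ[K] ((1 : K) ⊗ₜ[R] (algebraMap R B r)) =
          (algebraMap K L (algebraMap R K r)) • (1 : L ⊗[K] (K ⊗[R] B)) := by
        rw [Algebra.TensorProduct.one_def, Algebra.TensorProduct.one_def,
          TensorProduct.smul_tmul', smul_eq_mul, mul_one, Algebra.algebraMap_eq_smul_one (A := B),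
          ← TensorProduct.smul_tmul, ← Algebra.algebraMap_eq_smul_one (A := K)]
        rw [show (algebraMap R K r) ⊗ₜ[R] (1 : B) = (algebraMap R K r) • ((1 : K) ⊗ₜ[R] (1 : B)) by
          rw [TensorProduct.smul_tmul', smul_eq_mul, mul_one], ← TensorProduct.smul_tmul,
          Algebra.smul_def, mul_one]
      rw [hσe, h1, map_smul, map_one]
  have hR : ∀ r : R, r ≠ 0 → ∃ c : L, c ≠ 0 ∧
      σ (algebraMap R B r) = c • (1 : Matrix (Fin n) (Fin n) L) := by
    intro r hr
    refine ⟨algebraMap K L (algebraMap R K r), ?_, hRs r⟩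
    intro h
    exact hr (hRK (hKL (by rw [h, map_zero, map_zero])))
  have hdt : ∀ (m : ℕ) (G : Matrix (Fin m) (Fin m) B), Function.Injective G.vecMulLinear →
      dt σ G ≠ 0 := fun m G hG => dt_ne_zero_of_injective φ σ hσe m G hG
  let Φ : Bˣ →* Lˣ := Units.map ((Matrix.detMonoidHom : Matrix (Fin n) (Fin n) L →* L).comp
    (σ : B →* Matrix (Fin n) (Fin n) L))
  let U : Subgroup Lˣ := Φ.range
  have hU : AutTriv σ U := by
    intro ι _ _ G hG h
    obtain ⟨b, hb⟩ := exists_unit_dt (R := R) σ G hG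
    exact ⟨b, Units.ext hb.symm⟩
  obtain ⟨Δ, hΔ⟩ := exists_deltaFn (R := R) σ U hσ hU hR hdt
  obtain ⟨r, a, hr, hra⟩ := exists_denom b
  -- the two one by one matrices
  set Ga : Matrix Unit Unit B := Matrix.of (fun (_ _ : Unit) => a) with hGa
  set Gr : Matrix Unit Unit B := Matrix.of (fun (_ _ : Unit) => algebraMap R B r) with hGr
  set ρ : L := algebraMap K L (algebraMap R K r) with hρ
  have hρ0 : ρ ≠ 0 := by
    intro h
    exact hr (hRK (hKL (by rw [← hρ, h, map_zero, map_zero])))
  set γ : L := algebraMap K L (algebraMap R K c) with hγ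
  have hγ0 : γ ≠ 0 := by
    intro h
    exact c.ne_zero (hRK (hKL (by rw [← hγ, h, map_zero, map_zero])))
  have hda : (φ (1 ⊗ₜ (1 ⊗ₜ a))).det = ρ ^ n * γ := by
    have h1 : (1 : L) ⊗ₜ[K] ((1 : K) ⊗ₜ[R] a) = ρ • ((1 : L) ⊗ₜ[K] b) := by
      rw [← hra, TensorProduct.smul_tmul', smul_eq_mul, mul_one, ← TensorProduct.smul_tmul,
        Algebra.smul_def, mul_one]
    rw [h1, map_smul, Matrix.det_smul, hφ, Fintype.card_fin]
  have hdr : (φ (1 ⊗ₜ (1 ⊗ₜ (algebraMap R B r)))).det = ρ ^ n := by
    rw [← hσe, hRs, ← hρ, Matrix.det_smul, Matrix.det_one, Fintype.card_fin, mul_one]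
  have hta : dt σ Ga = ρ ^ n * γ := by rw [hGa, dt_unit', hσe, hda]
  have htr : dt σ Gr = ρ ^ n := by rw [hGr, dt_unit', hσe, hdr]
  have hta0 : dt σ Ga ≠ 0 := by rw [hta]; exact mul_ne_zero (pow_ne_zero _ hρ0) hγ0
  have htr0 : dt σ Gr ≠ 0 := by rw [htr]; exact pow_ne_zero _ hρ0
  have hia : Function.Injective Ga.vecMulLinear := inj_of_dt σ hσ Ga hta0
  have hir : Function.Injective Gr.vecMulLinear := inj_of_dt σ hσ Gr htr0
  have hdet : LinearMap.det (Ga.vecMulLinear.restrictScalars R) =
      (c : R) ^ n * LinearMap.det (Gr.vecMulLinear.restrictScalars R) := by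
    apply hRK
    apply hKL
    rw [hGa, det_one_by_one φ a, map_mul, map_mul, hGr, det_one_by_one φ (algebraMap R B r), hda,
      hdr, map_pow, map_pow, ← hγ, mul_pow, mul_comm]
  have hlp : ∀ (p : Ideal R) [p.IsPrime], p.height = 1 →
      lp (R := R) (Localization.AtPrime p) (Coker Ga) =
        lp (R := R) (Localization.AtPrime p) (Coker Gr) := by
    intro p _ hp
    have h1 := pid_height_one R p hp
    have h2 : IsDomain (Localization.AtPrime p) := loc_domain' p
    have h3 : Module.Flat R (Localization.AtPrime p) := IsLocalization.flat _ p.primeCompl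
    rw [lp_coker_eq _ Ga hia, lp_coker_eq _ Gr hir, hdet, map_mul, map_pow]
    refine Ring.ord_eq_of_associated ?_
    have hu : IsUnit ((algebraMap R (Localization.AtPrime p) (c : R)) ^ n) :=
      (c.isUnit.map _).pow n
    exact (associated_isUnit_mul_left_iff hu).2 (Associated.refl _)
  have hGr' : ∀ v : Unit → B, Matrix.vecMul v Gr = algebraMap R B r • v := by
    intro v
    funext i
    simp only [hGr, Matrix.vecMul, dotProduct, Finset.univ_unique, Finset.sum_singleton,
      Matrix.of_apply, Pi.smul_apply, smul_eq_mul]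
    exact (Algebra.commutes r (v i)).symm
  have htors : ∀ G : Matrix Unit Unit B, dt σ G ≠ 0 → Tors R B (Coker G) := by
    intro G hG
    have hinj : Function.Injective G.vecMulLinear := inj_of_dt σ hσ G hG
    obtain ⟨d, g, hd0, hg⟩ := exists_adj' (G.vecMulLinear.restrictScalars R) hinj
    refine ⟨d, hd0, fun x => ?_⟩
    obtain ⟨v, rfl⟩ := Submodule.mkQ_surjective _ x
    rw [← map_smul, Submodule.mkQ_apply, Submodule.Quotient.mk_eq_zero]
    refine ⟨g v, ?_⟩
    rw [algebraMap_smul]
    exact hg v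
  have hfinC : ∀ G : Matrix Unit Unit B, Module.Finite B (Coker G) := fun G => inferInstance
  have hscal : ∀ G : Matrix Unit Unit B, IsScalarTower R B (Coker G) := fun G => inferInstance
  have h2 := delta_codim_two Δ hd hfin
  have hfinal := delta_eq_of_lp Δ h2 (Coker Ga) (Coker Gr) (htors Ga hta0) (htors Gr htr0) hlp
  rw [hΔ _ Ga hta0, hΔ _ Gr htr0, QuotientGroup.eq] at hfinal
  obtain ⟨b', hb'⟩ := hfinal
  have hb2 : (σ (b' : B)).det = (dt σ Ga)⁻¹ * dt σ Gr := by
    have h5 := congrArg Units.val hb'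
    rw [Units.val_mul, Units.val_inv_eq_inv_val, Units.val_mk0, Units.val_mk0] at h5
    exact h5
  have hb3 : (σ ((b'⁻¹ : Bˣ) : B)).det = γ := by
    have h3 : (σ (b' : B)).det * (σ ((b'⁻¹ : Bˣ) : B)).det = 1 := by
      rw [← Matrix.det_mul, ← map_mul, Units.mul_inv, map_one, Matrix.det_one]
    rw [hb2, hta, htr] at h3
    have h4 : ρ ^ n ≠ 0 := pow_ne_zero _ hρ0
    field_simp at h3
    exact h3
  exact ⟨b'⁻¹, L, inferInstance, inferInstance, n, φ, hb3⟩

end

end Pool.Agent.SLtwo
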