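import Pool.Agent.SLtwo.FreeC
import Pool.Agent.SLone.FinalA
import Pool.Agent.PurNrd.LocalStep

/-! P1: the determinant of an injective square matrix over `B` is, over the fraction field, the
determinant of one unit of `K ⊗ B`. -/

namespace Pool.Agent.SLtwo

open Module TensorProduct Matrix Pool.Agent.PurNrd Pool.Agent.SLone

universe u

section
variable {R : Type u} [CommRing R] [SemiReg R] {B : Type u} [Ring B] [Algebra R B] [IsAzumaya R B]
  (K : Type u) [Field K] [Algebra R K] [IsFractionRing R K] [CharZero K]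

private theorem unit_det_fin {k : ℕ} (f : (Fin k → B) →ₗ[B] (Fin k → B))
    (hf : Function.Injective f) :
    ∃ y : (K ⊗[R] B)ˣ, (DK K (K ⊗[R] B) y : K) =
      algebraMap R K (LinearMap.det (f.restrictScalars R)) := by
  have hfree : Module.Free R B := free_of_azumaya R B
  have hs : IsSimpleRing (K ⊗[R] B) := isSimpleRing_baseChange (R := R) (B := B) K
  have hd0 : LinearMap.det (f.restrictScalars R) ≠ 0 := fun h =>
    LinearMap.det_eq_zero_iff_ker_ne_bot.1 h (LinearMap.ker_eq_bot.2 hf)
  have hdK : LinearMap.det ((bc (R := R) K f).restrictScalars K) ≠ 0 := by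
    rw [det_bc, Ne, FaithfulSMul.algebraMap_eq_zero_iff]
    exact hd0
  have hbij : Function.Bijective (bc (R := R) K f) :=
    (LinearMap.equivOfDetNeZero ((bc (R := R) K f).restrictScalars K) hdK).bijective
  obtain ⟨y, hy⟩ := elim (K := K) k (LinearEquiv.ofBijective (bc (R := R) K f) hbij)
  refine ⟨y, ?_⟩
  rw [DK_val, ← hy, ← det_bc]
  rfl

theorem exists_unit_det {ι : Type} [Fintype ι] [DecidableEq ι] (G : Matrix ι ι B)
    (hG : Function.Injective G.vecMulLinear) :
    ∃ y : (K ⊗[R] B)ˣ, (DK K (K ⊗[R] B) y : K) =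
      algebraMap R K (LinearMap.det (G.vecMulLinear.restrictScalars R)) := by
  classical
  let e : (ι → B) ≃ₗ[B] (Fin (Fintype.card ι) → B) :=
    LinearEquiv.funCongrLeft B B (Fintype.equivFin ι).symm
  let f : (Fin (Fintype.card ι) → B) →ₗ[B] (Fin (Fintype.card ι) → B) :=
    e.toLinearMap ∘ₗ G.vecMulLinear ∘ₗ e.symm.toLinearMap
  have hf : Function.Injective f := e.injective.comp (hG.comp e.symm.injective)
  obtain ⟨y, hy⟩ := unit_det_fin (R := R) K f hf
  refine ⟨y, hy.trans ?_⟩
  congr 1
  exact LinearMap.det_conj (G.vecMulLinear.restrictScalars R) (e.restrictScalars R)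

end

end Pool.Agent.SLtwo
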