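import Pool.Agent.SLtwo.PurA
import Pool.Agent.SLtwo.Exist
import Pool.Agent.SLone.Nonzero
import Pool.Agent.PurNrd.Purity

/-! P2: the local lengths of a finitely generated torsion module are the valuations of the
determinant of one unit of `K ⊗ B`. -/

namespace Pool.Agent.SLtwo

open Module TensorProduct Matrix Pool.Agent.PurNrd Pool.Agent.SLone

universe u

section
variable {R : Type u} [CommRing R] [SemiReg R] {B : Type u} [Ring B] [Algebra R B] [IsAzumaya R B]
  (K : Type u) [Field K] [Algebra R K] [IsFractionRing R K] [CharZero K]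

omit [IsFractionRing R K] [CharZero K] in
/-- a splitting of `K ⊗ B` over the algebraic closure -/
private theorem exists_split_two : ∃ (n : ℕ) (_ : n ≠ 0),
    Nonempty ((AlgebraicClosure K ⊗[K] (K ⊗[R] B)) ≃ₐ[AlgebraicClosure K]
      Matrix (Fin n) (Fin n) (AlgebraicClosure K)) := by
  have hfree : Module.Free R B := SLtwo.free_of_azumaya R B
  have hs : IsSimpleRing (AlgebraicClosure K ⊗[R] B) :=
    SLtwo.isSimpleRing_baseChange (AlgebraicClosure K)
  obtain ⟨n, hn, ⟨φ⟩⟩ := IsSimpleRing.exists_algEquiv_matrix_of_isAlgClosed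
    (AlgebraicClosure K) (AlgebraicClosure K ⊗[R] B)
  exact ⟨n, hn.ne, ⟨(cancelBC R B K (AlgebraicClosure K)).trans φ⟩⟩

omit [SemiReg R] in
/-- the order at a prime element is the multiplicity -/
private theorem ord_mult [IsDomain R] [IsNoetherianRing R] {π : R} (hπ : Prime π)
    [(Ideal.span {π}).IsPrime] {a : R} (ha : a ≠ 0) :
    Ring.ord (Localization.AtPrime (Ideal.span {π}))
      (algebraMap R (Localization.AtPrime (Ideal.span {π})) a) = multiplicity π a := by
  have h1 := loc_domain (π := π)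
  obtain ⟨d, hd, hnd⟩ := FiniteMultiplicity.exists_eq_pow_mul_and_not_dvd
    (FiniteMultiplicity.of_prime_left hπ ha)
  conv_lhs => rw [hd]
  rw [mul_comm, map_mul, map_pow, Ring.ord_mul_of_isUnit_left (loc_unit hnd),
    Ring.ord_pow (mem_nonZeroDivisors_of_ne_zero (loc_ne hπ)), loc_ord]
  simp

end

/-- the statement to be proved, for one module -/
private def Good (R : Type u) [CommRing R] [IsDomain R] [UniqueFactorizationMonoid R]
    (K : Type u) [Field K] [Algebra R K] [IsFractionRing R K] (B : Type u) [Ring B] [Algebra R B]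
    (N : Type u) [AddCommGroup N] [Module R N] : Prop :=
  ∃ y : (K ⊗[R] B)ˣ, ∀ π : R, Prime π → ∀ (p : Ideal R) [p.IsPrime], p = Ideal.span {π} →
      ∃ t : ℕ, lp (R := R) (Localization.AtPrime p) N = t ∧
        vl π (DK K (K ⊗[R] B) y : K) = t

section
variable {R : Type u} [CommRing R] [SemiReg R] [UniqueFactorizationMonoid R]
  {B : Type u} [Ring B] [Algebra R B] [IsAzumaya R B]
  (K : Type u) [Field K] [Algebra R K] [IsFractionRing R K] [CharZero K]

private theorem good_coker {ι : Type} [Fintype ι] [DecidableEq ι] (G : Matrix ι ι B)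
    (hG : Function.Injective G.vecMulLinear) (N : Type u) [AddCommGroup N] [Module R N]
    (e : Coker G ≃ₗ[R] N) : Good R K B N := by
  have hfree : Module.Free R B := SLtwo.free_of_azumaya R B
  obtain ⟨y, hy⟩ := exists_unit_det (R := R) K G hG
  have hdet : LinearMap.det (G.vecMulLinear.restrictScalars R) ≠ 0 := by
    intro h
    exact LinearMap.det_eq_zero_iff_ker_ne_bot.1 h (LinearMap.ker_eq_bot.2 hG)
  refine ⟨y, fun π hπ p hp hpe => ?_⟩
  subst hpe
  have h1 := loc_domain (π := π)
  have h2 := loc_pid (π := π)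
  have h3 : Module.Flat R (Localization.AtPrime (Ideal.span {π})) :=
    IsLocalization.flat _ (Ideal.span {π}).primeCompl
  refine ⟨multiplicity π (LinearMap.det (G.vecMulLinear.restrictScalars R)), ?_, ?_⟩
  · rw [← lp_congr _ e, lp_coker_eq _ G hG, ord_mult hπ hdet]
  · rw [hy, vl_algebraMap hπ hdet]

private theorem good_del {L : Type u} [Field L] {n : ℕ} (σ : B →+* Matrix (Fin n) (Fin n) L)
    (hσ : Function.Injective σ) (d : ℕ) : ∀ (N : Type u) [AddCommGroup N] [Module R N]
      [Module B N] [IsScalarTower R B N] (x : Lˣ ⧸ (⊤ : Subgroup Lˣ)), Del σ ⊤ d N x →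
      Good R K B N := by
  induction d with
  | zero =>
    intro N _ _ _ _ x h
    obtain ⟨ι, _, _, G, hG, ⟨e⟩, -⟩ := h
    exact good_coker K G (inj_of_dt σ hσ G hG) N (e.restrictScalars R)
  | succ d ih =>
    intro N _ _ _ _ x h
    obtain ⟨P, _, _, f, hf, y, z, ⟨ι, _, _, G, hG, ⟨e⟩, -⟩, hz, -⟩ := h
    let _ : Module R P := Module.compHom P (algebraMap R B)
    have hst : IsScalarTower R B P := by
      refine ⟨fun r b x => ?_⟩
      rw [Algebra.smul_def, mul_smul]
      rfl
    obtain ⟨yP, hyP⟩ := good_coker K G (inj_of_dt σ hσ G hG) P (e.restrictScalars R)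
    obtain ⟨yK, hyK⟩ := ih (LinearMap.ker f) z hz
    refine ⟨yP * yK⁻¹, fun π hπ p hp hpe => ?_⟩
    obtain ⟨tP, hP1, hP2⟩ := hyP π hπ p hpe
    obtain ⟨tK, hK1, hK2⟩ := hyK π hπ p hpe
    have h3 : Module.Flat R (Localization.AtPrime p) := IsLocalization.flat _ p.primeCompl
    have hadd : lp (R := R) (Localization.AtPrime p) P =
        lp (R := R) (Localization.AtPrime p) (LinearMap.ker f) +
          lp (R := R) (Localization.AtPrime p) N := by
      refine lp_add (Localization.AtPrime p) ((LinearMap.ker f).subtype.restrictScalars R)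
        (f.restrictScalars R) (Submodule.injective_subtype _) hf ?_
      intro x
      constructor
      · intro hx
        exact ⟨⟨x, hx⟩, rfl⟩
      · rintro ⟨w, rfl⟩
        exact w.2
    rw [hP1, hK1] at hadd
    have hNtop : lp (R := R) (Localization.AtPrime p) N ≠ ⊤ := by
      intro h
      rw [h, add_top] at hadd
      exact ENat.natCast_ne_top _ hadd
    obtain ⟨t, ht⟩ := ENat.ne_top_iff_exists.1 hNtop
    rw [← ht] at hadd
    have hadd' : tP = tK + t := by exact_mod_cast hadd
    refine ⟨t, ht.symm, ?_⟩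
    rw [map_mul, map_inv, Units.val_mul, vl_mul hπ (Units.ne_zero _) (Units.ne_zero _), vl_inv hπ,
      hP2, hK2, hadd']
    push_cast
    ring

theorem exists_unit_module
    (N : Type u) [AddCommGroup N] [Module R N] [Module B N] [IsScalarTower R B N]
    [Module.Finite B N] (hN : Tors R B N) :
    ∃ y : (K ⊗[R] B)ˣ, ∀ π : R, Prime π → ∀ (p : Ideal R) [p.IsPrime], p = Ideal.span {π} →
      ∃ t : ℕ, lp (R := R) (Localization.AtPrime p) N = t ∧
        vl π (DK K (K ⊗[R] B) y : K) = t := by
  classical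
  have hfree : Module.Free R B := SLtwo.free_of_azumaya R B
  obtain ⟨n, hn, ⟨φ⟩⟩ := exists_split_two (R := R) (B := B) K
  have hRK : Function.Injective (algebraMap R K) := IsFractionRing.injective R K
  have hKL : Function.Injective (algebraMap K (AlgebraicClosure K)) :=
    (algebraMap K (AlgebraicClosure K)).injective
  let σ : B →+* Matrix (Fin n) (Fin n) (AlgebraicClosure K) :=
    (φ : (AlgebraicClosure K ⊗[K] (K ⊗[R] B)) →+* Matrix (Fin n) (Fin n) (AlgebraicClosure K)).comp
      ((Algebra.TensorProduct.includeRight :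
        (K ⊗[R] B) →ₐ[K] AlgebraicClosure K ⊗[K] (K ⊗[R] B)).toRingHom.comp
        (Algebra.TensorProduct.includeRight : B →ₐ[R] K ⊗[R] B).toRingHom)
  have hσe : ∀ x, σ x = φ (1 ⊗ₜ (1 ⊗ₜ x)) := fun x => rfl
  have hσ : Function.Injective σ := by
    intro x y hxy
    rw [hσe, hσe] at hxy
    have h1 := φ.injective hxy
    have h2 : ((1 : K) ⊗ₜ[R] x) = (1 : K) ⊗ₜ[R] y :=
      Algebra.TensorProduct.includeRight_injective (R := K) (A := AlgebraicClosure K)
        (B := K ⊗[R] B) hKL h1
    exact Algebra.TensorProduct.includeRight_injective (R := R) (A := K) (B := B) hRK h2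
  have hRs : ∀ r : R, σ (algebraMap R B r) =
      (algebraMap K (AlgebraicClosure K) (algebraMap R K r)) •
        (1 : Matrix (Fin n) (Fin n) (AlgebraicClosure K)) := by
    intro r
    have h1 : (1 : AlgebraicClosure K) ⊗ₜ[K] ((1 : K) ⊗ₜ[R] (algebraMap R B r)) =
        (algebraMap K (AlgebraicClosure K) (algebraMap R K r)) •
          (1 : AlgebraicClosure K ⊗[K] (K ⊗[R] B)) := by
      rw [Algebra.TensorProduct.one_def, Algebra.TensorProduct.one_def,
        TensorProduct.smul_tmul', smul_eq_mul, mul_one, Algebra.algebraMap_eq_smul_one (A := B),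
        ← TensorProduct.smul_tmul, ← Algebra.algebraMap_eq_smul_one (A := K)]
      rw [show (algebraMap R K r) ⊗ₜ[R] (1 : B) = (algebraMap R K r) • ((1 : K) ⊗ₜ[R] (1 : B)) by
        rw [TensorProduct.smul_tmul', smul_eq_mul, mul_one], ← TensorProduct.smul_tmul,
        Algebra.smul_def, mul_one]
    rw [hσe, h1, map_smul, map_one]
  have hR : ∀ r : R, r ≠ 0 → ∃ c : AlgebraicClosure K, c ≠ 0 ∧
      σ (algebraMap R B r) = c • (1 : Matrix (Fin n) (Fin n) (AlgebraicClosure K)) := by
    intro r hr
    refine ⟨algebraMap K (AlgebraicClosure K) (algebraMap R K r), ?_, hRs r⟩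
    intro h
    exact hr (hRK (hKL (by rw [h, map_zero, map_zero])))
  have hdt : ∀ (m : ℕ) (G : Matrix (Fin m) (Fin m) B), Function.Injective G.vecMulLinear →
      dt σ G ≠ 0 := fun m G hG => dt_ne_zero_of_injective φ σ hσe m G hG
  obtain ⟨d, x, hx⟩ := exists_del (R := R) σ ⊤ hσ hR hdt N hN
  exact good_del K σ hσ d N x hx

end

end Pool.Agent.SLtwo
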