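import Pool.Agent.SLtwo.PurB
import Pool.Agent.SLone.CodimLp

/-! P3: the local step. -/

namespace Pool.Agent.SLtwo

open Module TensorProduct Matrix Pool.Agent.PurNrd Pool.Agent.SLone

universe u

section
variable {R : Type u} [CommRing R] [SemiReg R] {B : Type u} [Ring B] [Algebra R B] [IsAzumaya R B]
  (K : Type u) [Field K] [Algebra R K] [IsFractionRing R K] [CharZero K]

omit [SemiReg R] [IsAzumaya R B] [IsFractionRing R K] [CharZero K] in
private theorem det_scalar' [Module.Finite R B] [Module.Free R B] [Nontrivial R] (c : K) :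
    LinearMap.det (LinearMap.mulRight K (algebraMap K (K ⊗[R] B) c)) = c ^ finrank R B := by
  have h : LinearMap.mulRight K (algebraMap K (K ⊗[R] B) c) =
      c • (LinearMap.id : (K ⊗[R] B) →ₗ[K] (K ⊗[R] B)) := by
    refine LinearMap.ext fun x => ?_
    rw [LinearMap.mulRight_apply, ← Algebra.commutes, ← Algebra.smul_def]
    rfl
  rw [h, LinearMap.det_smul, LinearMap.det_id, mul_one, Module.finrank_baseChange]

private theorem det_step [UniqueFactorizationMonoid R] {π : R} (hπ : Prime π) (b : B)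
    (hb : LinearMap.det (LinearMap.mulRight R b) ≠ 0) :
    ∃ (y : (K ⊗[R] B)ˣ), vl π (DK K (K ⊗[R] B) y : K) =
        multiplicity π (LinearMap.det (LinearMap.mulRight R b)) ∧
      ∀ π' : R, Prime π' → ¬ Associated π π' → vl π' (DK K (K ⊗[R] B) y : K) = 0 := by
  classical
  have hfB : Module.Free R B := free_of_azumaya R B
  obtain ⟨d, hd, hnd⟩ := FiniteMultiplicity.exists_eq_pow_mul_and_not_dvd
    (FiniteMultiplicity.of_prime_left hπ hb)
  set e := multiplicity π (LinearMap.det (LinearMap.mulRight R b)) with he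
  obtain ⟨g, hg1, hg2⟩ := exists_adj (LinearMap.mulRight R b)
  have hinj : Function.Injective (LinearMap.mulRight R b) := by
    rw [← LinearMap.ker_eq_bot, LinearMap.ker_eq_bot']
    intro v hv
    have h1 := LinearMap.congr_fun hg2 v
    rw [LinearMap.comp_apply, hv, map_zero] at h1
    exact (smul_eq_zero.1 h1.symm).resolve_left hb
  -- the module
  let L : Submodule B B := LinearMap.range (LinearMap.toSpanSingleton B B b) ⊔
    LinearMap.range (π ^ e • (LinearMap.id : B →ₗ[B] B))
  have hpe : ∀ v : B, π ^ e • v ∈ L := fun v => Submodule.mem_sup_right ⟨v, rfl⟩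
  have hkill : ∀ x : B ⧸ L, π ^ e • x = 0 := by
    intro x
    obtain ⟨v, rfl⟩ := Submodule.Quotient.mk_surjective L x
    rw [← Submodule.Quotient.mk_smul, Submodule.Quotient.mk_eq_zero]
    exact hpe v
  obtain ⟨y, hy⟩ := exists_unit_module (R := R) (B := B) K (B ⧸ L)
    ⟨π ^ e, pow_ne_zero _ hπ.ne_zero, fun x => by rw [algebraMap_smul]; exact hkill x⟩
  refine ⟨y, ?_, fun π' hπ' hna => ?_⟩
  · have hP := prime_span hπ
    obtain ⟨t, ht, hty⟩ := hy π hπ (Ideal.span {π}) rfl
    rw [hty]
    have hdom := loc_domain (π := π)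
    have hpid := loc_pid (π := π)
    have hflat : Module.Flat R (Localization.AtPrime (Ideal.span {π})) :=
      IsLocalization.flat _ (Ideal.span {π}).primeCompl
    have hO0 := loc_ne hπ
    have hO := loc_ord (π := π)
    set O := Localization.AtPrime (Ideal.span {π}) with hOdef
    have h1 : lp (R := R) O (B ⧸ LinearMap.range (LinearMap.mulRight R b)) = e := by
      rw [lp_coker O _ hinj, hd, map_mul, Ring.ord_mul_of_isUnit_right (loc_unit hnd)]
      have := ord_unit_pow O hO0 hO (1 : Rˣ) e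
      rwa [Units.val_one, one_mul] at this
    have hle : LinearMap.range (LinearMap.mulRight R b) ≤ L.restrictScalars R := by
      rintro v ⟨w, rfl⟩
      exact Submodule.mem_sup_left ⟨w, rfl⟩
    let β := Submodule.factor hle
    have hβ : Function.Surjective β := Submodule.factor_surjective hle
    have h2 := lp_add O (LinearMap.ker β).subtype β (Submodule.injective_subtype _) hβ
      (fun x => by
        rw [← LinearMap.mem_ker]
        simp)
    have h3 : lp (R := R) O (LinearMap.ker β) = 0 := by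
      refine lp_zero O fun a => ?_
      obtain ⟨x, hx⟩ := a
      obtain ⟨v, rfl⟩ := (LinearMap.range (LinearMap.mulRight R b)).mkQ_surjective x
      have hv : v ∈ L := by
        have h1 : (L.restrictScalars R).mkQ v = 0 := hx
        rwa [← LinearMap.mem_ker, Submodule.ker_mkQ] at h1
      obtain ⟨v1, ⟨w1, rfl⟩, v2, ⟨w2, rfl⟩, rfl⟩ := Submodule.mem_sup.1 hv
      refine ⟨d, loc_unit hnd, Subtype.ext ?_⟩
      change d • (LinearMap.range (LinearMap.mulRight R b)).mkQ _ = 0
      rw [← map_smul, ← LinearMap.mem_ker, Submodule.ker_mkQ, smul_add]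
      refine Submodule.add_mem _ (Submodule.smul_mem _ _ ⟨w1, rfl⟩) ⟨g w2, ?_⟩
      have h4 := LinearMap.congr_fun hg1 w2
      rw [LinearMap.comp_apply, hd] at h4
      rw [h4]
      change (π ^ e * d) • w2 = d • (π ^ e • w2)
      rw [smul_smul, mul_comm]
    rw [h3, zero_add, h1] at h2
    have h4 : lp (R := R) O (B ⧸ L.restrictScalars R) = t := ht
    rw [h4] at h2
    have h5 : e = t := by exact_mod_cast h2
    rw [h5]
  · have hP := prime_span hπ'
    obtain ⟨t, ht, hty⟩ := hy π' hπ' (Ideal.span {π'}) rfl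
    rw [hty]
    have h3 : lp (R := R) (Localization.AtPrime (Ideal.span {π'})) (B ⧸ L) = 0 := by
      refine lp_zero _ fun a => ⟨π ^ e, loc_unit fun h => ?_, hkill a⟩
      exact hna (hπ'.associated_of_dvd hπ (hπ'.dvd_of_dvd_pow h)).symm
    rw [h3] at ht
    have h5 : t = 0 := by exact_mod_cast ht.symm
    rw [h5, Nat.cast_zero]

theorem local_step [UniqueFactorizationMonoid R] {π : R} (hπ : Prime π) (g : (K ⊗[R] B)ˣ) :
    ∃ (y : (K ⊗[R] B)ˣ), vl π (DK K (K ⊗[R] B) y : K) = vl π (DK K (K ⊗[R] B) g : K) ∧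
      ∀ π' : R, Prime π' → ¬ Associated π π' → vl π' (DK K (K ⊗[R] B) y : K) = 0 := by
  have hfB : Module.Free R B := free_of_azumaya R B
  obtain ⟨s, b, hs, hb⟩ := exists_lift (R := R) (B := B) K (g : K ⊗[R] B)
  have hsK : algebraMap R K s ≠ 0 := by
    rw [Ne, FaithfulSMul.algebraMap_eq_zero_iff]; exact hs
  have hπK : algebraMap R K π ≠ 0 := by
    rw [Ne, FaithfulSMul.algebraMap_eq_zero_iff]; exact hπ.ne_zero
  have hbc : (LinearMap.mulRight R b).baseChange K =
      LinearMap.mulRight K ((1 : K) ⊗ₜ[R] b) := by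
    ext x
    simp
  have hdet1 : algebraMap R K (LinearMap.det (LinearMap.mulRight R b)) =
      (algebraMap R K s) ^ finrank R B * (DK K (K ⊗[R] B) g : K) := by
    rw [← LinearMap.det_baseChange, hbc, ← hb, DK_val]
    have h1 : LinearMap.mulRight K (s • (g : K ⊗[R] B)) =
        (algebraMap R K s) • LinearMap.mulRight K (g : K ⊗[R] B) := by
      refine LinearMap.ext fun x => ?_
      rw [LinearMap.mulRight_apply, LinearMap.smul_apply, LinearMap.mulRight_apply,
        algebraMap_smul, mul_smul_comm]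
    rw [h1, LinearMap.det_smul, Module.finrank_baseChange]
  have hdet0 : LinearMap.det (LinearMap.mulRight R b) ≠ 0 := by
    intro h0
    rw [h0, map_zero] at hdet1
    exact mul_ne_zero (pow_ne_zero _ hsK) (Units.ne_zero _) hdet1.symm
  obtain ⟨y, hy1, hy2⟩ := det_step K hπ b hdet0
  -- correct by a power of `π`
  let z : (K ⊗[R] B)ˣ := Units.map (algebraMap K (K ⊗[R] B)).toMonoidHom
    (Units.mk0 ((algebraMap R K π) ^ multiplicity π s) (pow_ne_zero _ hπK))
  have hz : (DK K (K ⊗[R] B) z : K) = algebraMap R K (π ^ (multiplicity π s * finrank R B)) := by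
    rw [DK_val]
    have h1 := det_scalar' (R := R) (B := B) K ((algebraMap R K π) ^ multiplicity π s)
    rw [map_pow, pow_mul]
    exact h1
  have hvz : vl π (DK K (K ⊗[R] B) z : K) = multiplicity π s * finrank R B := by
    rw [hz, vl_algebraMap hπ (pow_ne_zero _ hπ.ne_zero),
      multiplicity_pow_self hπ.ne_zero hπ.not_isUnit]
    push_cast
    rfl
  have hvz' : ∀ π' : R, Prime π' → ¬ Associated π π' → vl π' (DK K (K ⊗[R] B) z : K) = 0 := by
    intro π' hπ' hna
    rw [hz, vl_algebraMap hπ' (pow_ne_zero _ hπ.ne_zero), multiplicity_eq_zero.2, Nat.cast_zero]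
    intro h
    exact hna (hπ'.associated_of_dvd hπ (hπ'.dvd_of_dvd_pow h)).symm
  have hmul : ∀ π' : R, Prime π' → vl π' (DK K (K ⊗[R] B) (y * z⁻¹) : K) =
      vl π' (DK K (K ⊗[R] B) y : K) - vl π' (DK K (K ⊗[R] B) z : K) := by
    intro π' hπ'
    rw [map_mul, map_inv, Units.val_mul, vl_mul hπ' (Units.ne_zero _) (Units.ne_zero _),
      vl_inv hπ', sub_eq_add_neg]
  refine ⟨y * z⁻¹, ?_, fun π' hπ' hna => ?_⟩
  · rw [hmul π hπ, hy1, hvz]
    have h1 : vl π (algebraMap R K (LinearMap.det (LinearMap.mulRight R b))) =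
        vl π (algebraMap R K s ^ finrank R B) + vl π (DK K (K ⊗[R] B) g : K) := by
      rw [hdet1, vl_mul hπ (pow_ne_zero _ hsK) (Units.ne_zero _)]
    rw [vl_algebraMap hπ hdet0] at h1
    have h2 : vl π (algebraMap R K s ^ finrank R B) = finrank R B * multiplicity π s := by
      have := vl_pow hπ (Units.mk0 _ hsK) (finrank R B)
      rw [Units.val_pow_eq_pow_val, Units.val_mk0, vl_algebraMap hπ hs] at this
      exact this
    rw [h2] at h1
    rw [h1]
    ring
  · rw [hmul π' hπ', hy2 π' hπ' hna, hvz' π' hπ' hna, sub_zero]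

end

end Pool.Agent.SLtwo
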