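import Pool.Agent.PurNrd.Reg
import Pool.Agent.SLone.LemK
import Pool.Agent.SLtwo.Defs

/-! A7a: finite projective dimension over semilocal regular domains; regular local rings. -/

namespace Pool.Agent.SLtwo

open Pool.Agent.PurNrd

universe u

section
variable (R : Type u) [CommRing R] [SemiReg R]

theorem finite_pd (M : Type u) [AddCommGroup M] [Module R M] [Module.Finite R M] :
    ∃ n, PDLT R M n := by
  obtain ⟨n, hn⟩ := SLone.exists_pdlt R (fun P _ => SemiReg.regular P) M
  exact ⟨n + 1, hn⟩

theorem semiReg_of_regular (R : Type u) [CommRing R] [IsRegularLocalRing R] : SemiReg R where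
  isDomain := isDomain_of_regular R
  isNoetherian := inferInstance
  finite_max := by
    have : Subsingleton (MaximalSpectrum R) := ⟨fun a b => by
      ext1
      rw [IsLocalRing.eq_maximalIdeal a.2, IsLocalRing.eq_maximalIdeal b.2]⟩
    infer_instance
  regular := by
    intro P hP
    obtain rfl := IsLocalRing.eq_maximalIdeal hP
    have h : (IsLocalRing.maximalIdeal R).primeCompl ≤ IsUnit.submonoid R := by
      intro x hx
      by_contra hc
      exact hx ((IsLocalRing.mem_maximalIdeal x).2 hc)
    exact IsRegularLocalRing.of_ringEquiv (IsLocalization.atUnits R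
      (IsLocalRing.maximalIdeal R).primeCompl h).toRingEquiv

end

end Pool.Agent.SLtwo
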