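import Pool.Agent.SLtwo.Defs
import Pool.Agent.PurNrd.Reg
import Pool.Agent.SLone.Surface

/-! A8a: maximal ideals of polynomial rings. -/

namespace Pool.Agent.SLtwo

open IsLocalRing

universe u

/-- A8a: maximal ideals of polynomial rings lying over `m` -/
theorem mvpoly_regular {R : Type u} [CommRing R] [IsNoetherianRing R] (m : Ideal R) [m.IsMaximal]
    [IsRegularLocalRing (Localization.AtPrime m)] (s : ℕ)
    (P : Ideal (MvPolynomial (Fin s) R)) [P.IsMaximal]
    (hP : P.comap (MvPolynomial.C : R →+* MvPolynomial (Fin s) R) = m) :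
    IsRegularLocalRing (Localization.AtPrime P) ∧
      ringKrullDim (Localization.AtPrime P) = ringKrullDim (Localization.AtPrime m) +
        (s : WithBot ℕ∞) := by
  induction s with
  | zero =>
    let e : R ≃+* MvPolynomial (Fin 0) R := (MvPolynomial.isEmptyRingEquiv R (Fin 0)).symm
    have hPe : P.comap e = m := by
      rw [← hP]
      rfl
    have hM : ∀ (m' : Ideal R) [m'.IsPrime], P.comap e = m' →
        m'.primeCompl.map (e : R →* MvPolynomial (Fin 0) R) = P.primeCompl := by
      intro m' _ h
      subst h
      exact e.map_primeCompl_comap_eq P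
    let E : Localization.AtPrime m ≃+* Localization.AtPrime P :=
      IsLocalization.ringEquivOfRingEquiv (Localization.AtPrime m)
        (Localization.AtPrime P) e (hM m hPe)
    refine ⟨IsRegularLocalRing.of_ringEquiv (R := Localization.AtPrime m)
      (R' := Localization.AtPrime P) E, ?_⟩
    rw [← ringKrullDim_eq_of_ringEquiv E]
    simp
  | succ n ih =>
    let e : Polynomial (MvPolynomial (Fin n) R) ≃+* MvPolynomial (Fin (n + 1)) R :=
      (MvPolynomial.finSuccEquiv R n).symm.toRingEquiv
    have he : ∀ r : R, e (Polynomial.C (MvPolynomial.C r)) = MvPolynomial.C r := by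
      intro r
      have h1 : MvPolynomial.finSuccEquiv R n (MvPolynomial.C r) =
          Polynomial.C (MvPolynomial.C r) := by
        simp [MvPolynomial.finSuccEquiv_apply]
      change (MvPolynomial.finSuccEquiv R n).symm (Polynomial.C (MvPolynomial.C r)) = _
      rw [← h1, AlgEquiv.symm_apply_apply]
    let P' : Ideal (Polynomial (MvPolynomial (Fin n) R)) := P.comap e
    have hmax : P'.IsMaximal := Ideal.comap_isMaximal_of_equiv e
    have hcomap : (P'.comap (Polynomial.C : MvPolynomial (Fin n) R →+* _)).comap
        (MvPolynomial.C : R →+* MvPolynomial (Fin n) R) = m := by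
      rw [← hP]
      ext r
      change e (Polynomial.C (MvPolynomial.C r)) ∈ P ↔ MvPolynomial.C r ∈ P
      rw [he]
    let E1 : Localization.AtPrime P' ≃+* Localization.AtPrime P :=
      IsLocalization.ringEquivOfRingEquiv (Localization.AtPrime (P.comap e))
        (Localization.AtPrime P) e (e.map_primeCompl_comap_eq P)
    let Q : Ideal (MvPolynomial (Fin n) R) := P'.comap Polynomial.C
    have hQ : Q.IsMaximal := by
      let : Field (R ⧸ m) := Ideal.Quotient.field m
      refine SLone.isMaximal_comap_of_jacobson (MvPolynomial.map (Ideal.Quotient.mk m) :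
        MvPolynomial (Fin n) R →+* MvPolynomial (Fin n) (R ⧸ m))
        (MvPolynomial.map_surjective _ Ideal.Quotient.mk_surjective) P' ?_
      rw [MvPolynomial.ker_map, Ideal.mk_ker, Ideal.map_le_iff_le_comap,
        Ideal.map_le_iff_le_comap]
      exact hcomap.ge
    obtain ⟨h1, h2⟩ := ih Q hcomap
    have h3 : IsRegularLocalRing (Localization.AtPrime P') := SLone.poly_regular P'
    refine ⟨IsRegularLocalRing.of_ringEquiv (R := Localization.AtPrime P')
      (R' := Localization.AtPrime P) E1, ?_⟩
    rw [← ringKrullDim_eq_of_ringEquiv E1,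
      IsLocalization.AtPrime.ringKrullDim_eq_height P' (Localization.AtPrime P')]
    rw [IsLocalization.AtPrime.ringKrullDim_eq_height Q (Localization.AtPrime Q)] at h2
    have hover : P'.LiesOver Q := ⟨rfl⟩
    rw [Polynomial.height_eq_height_add_one Q P', WithBot.coe_add, h2, WithBot.coe_one,
      Nat.cast_succ, add_assoc]

end Pool.Agent.SLtwo
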